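import Pool.Agent.PT.DCONST

/-!
# Prime power twists: the pairing `O_{n Q^E}(b, η)` as a function of the prime and of the exponent
-/

set_option autoImplicit false

namespace Pool.Agent.PTL

open Pool.Agent.PT Pool.Agent.Lib_helper18 Pool.Agent.Lib_helper18.Eis Pool.Agent.Lib_helper84.Cub

/-- DCE: the pairing `O_{nQ^E}(b, η)` as a function of the prime `Q` and of `E`. -/
def DCE : Prop := ∀ (n : ℕ) (b x p q p' q' : ℤ), 0 < n → Sol b x p q p' q' →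
  b ≠ 0 → x ≠ 0 → ∃ f₀ : ℕ, 0 < f₀ ∧ ∀ f : ℕ, 0 < f → f₀ ∣ f →
  ∃ (C : ZMod 3) (Φ : (ZMod f)ˣ →* Multiplicative (ZMod 3)),
    ∀ (E Q : ℕ) (hQ : Q.Coprime f), Q.Prime → Q % 3 = 2 → Adm ((n : ℤ) * Q ^ E) x →
      ∀ r : ℤ, (Q : ℤ) ∣ r ^ 3 - b → OO ((n : ℤ) * Q ^ E) b x p q p' q' =
        C + E * ((Φ (ZMod.unitOfCoprime Q hQ)).toAdd - TAUV Q p q p' q' r)

namespace DC

open DCONST

lemma AS_pow {u : Eis} {s : Eis → Eis → ZMod 3} {e : ℕ} (h : LSym u s e) {p q p' q' r : ℤ}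
    (hr : ∀ i, Lf p q i r ≠ 0) (hr' : ∀ i, Lf p' q' i r ≠ 0) {B : Eis}
    (hB : B ≠ 0) (E : ℕ) : AS s (B ^ E) p q p' q' r = E * AS s B p q p' q' r := by
  induction E with
  | zero =>
    have h1 := AS_mul h hr hr' (A := 1) (B := 1) one_ne_zero one_ne_zero
    rw [mul_one] at h1
    rw [pow_zero, Nat.cast_zero, zero_mul]
    exact left_eq_add.1 h1
  | succ E ih =>
    rw [pow_succ, AS_mul h hr hr' (pow_ne_zero _ hB) hB, ih]
    push_cast
    ring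

/-- places where `b` is a cube -/
lemma place_LC {u : Eis} {s : Eis → Eis → ZMod 3} {e : ℕ} (h : LSym u s e)
    {b p q p' q' n : ℤ} (hn0 : n ≠ 0) (hn : p ^ 3 + b * q ^ 3 ≠ 0)
    (hn' : p' ^ 3 + b * q' ^ 3 ≠ 0) (hLC : LC u b) {f : ℕ} (hf : 1 < f)
    (huf : u ^ e ∣ ((f : ℤ) : Eis)) :
    ∃ (C : ZMod 3) (Φ : (ZMod f)ˣ →* Multiplicative (ZMod 3)),
      ∀ (E Q : ℕ) (hQ : Q.Coprime f) (c : ZMod 3) (N0 : ℕ),
      (∀ r : ℤ, u ^ N0 ∣ (r : Eis) ^ 3 - (b : Eis) →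
        AS s ((n * Q ^ E : ℤ) : Eis) p q p' q' r = c) →
      c = C + E * (Φ (ZMod.unitOfCoprime Q hQ)).toAdd := by
  obtain ⟨r, hr, hr', H⟩ := exists_root h hn hn' hLC
  have hne : ∀ a : ℤ, IsCoprime a (f : ℤ) → (a : Eis) ≠ 0 := by
    intro a ha
    apply cast_ne
    rintro rfl
    have h1 := isCoprime_zero_left.1 ha
    have h2 := Int.isUnit_iff.1 h1
    omega
  have huf1 : u ∣ ((f : ℤ) : Eis) := by
    have h1 : u ^ 1 ∣ u ^ e := pow_dvd_pow u h.pos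
    rw [pow_one] at h1
    exact h1.trans huf
  have hV : ∀ a : ℤ, IsCoprime a (f : ℤ) → V u (a : Eis) = 0 := by
    intro a ha
    apply V_eq_zero
    intro hd
    obtain ⟨x, y, hxy⟩ := ha
    apply h.prime.not_isUnit
    apply isUnit_of_dvd_one
    have h1 : (1 : Eis) = (x : Eis) * (a : Eis) + (y : Eis) * ((f : ℤ) : Eis) := by
      have h2 := congrArg (fun t : ℤ => (t : Eis)) hxy
      simp only [Int.cast_add, Int.cast_mul, Int.cast_one] at h2
      exact h2.symm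
    rw [h1]
    exact dvd_add (dvd_mul_of_dvd_right hd _) (dvd_mul_of_dvd_right huf1 _)
  obtain ⟨Φ, hΦ⟩ := exists_hom hf (fun a => AS s (a : Eis) p q p' q' r) (by
    intro a c ha hc
    show AS s ((a * c : ℤ) : Eis) p q p' q' r = _
    rw [Int.cast_mul]
    exact AS_mul h hr hr' (hne a ha) (hne c hc)) (by
    intro a c ha hc hd
    have h1 : u ^ (V u (a : Eis) + e) ∣ (c : Eis) - (a : Eis) := by
      rw [hV a ha, zero_add, ← Int.cast_sub]
      exact huf.trans (intCast_dvd_intCast.2 hd)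
    show AS s (c : Eis) p q p' q' r = AS s (a : Eis) p q p' q' r
    unfold AS
    rw [h.cont _ _ _ (hne a ha) (hr 2) h1, h.cont _ _ _ (hne a ha) (hr' 1) h1,
      h.cont _ _ _ (hne a ha) (hr 1) h1, h.cont _ _ _ (hne a ha) (hr' 2) h1])
  refine ⟨AS s (n : Eis) p q p' q' r, Φ, ?_⟩
  intro E Q hQ c N0 hc
  have hQ0 : ((Q : ℤ) : Eis) ≠ 0 := hne Q (Nat.isCoprime_iff_coprime.2 hQ)
  have hB : ((n * Q ^ E : ℤ) : Eis) = (n : Eis) * ((Q : ℤ) : Eis) ^ E := by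
    rw [Int.cast_mul, Int.cast_pow]
  rw [hΦ, ← H ((n * Q ^ E : ℤ) : Eis) c N0
    (by rw [hB]; exact mul_ne_zero (cast_ne hn0) (pow_ne_zero _ hQ0)) hc, hB,
    AS_mul h hr hr' (cast_ne hn0) (pow_ne_zero _ hQ0), AS_pow h hr hr' hQ0]

/-- the symbol at an inert prime -/
lemma tm_inert {Q : Eis} {n : ℤ} (hQ : Prime Q) (hn : ¬ Q ∣ (n : Eis)) {L : Eis}
    (hL : ¬ Q ∣ L) (E : ℕ) : tm Q ((n : Eis) * Q ^ E) L = - (E * sym Q L) := by
  have h1 : V Q ((n : Eis) * Q ^ E) = E := by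
    rw [V_mul_not_dvd hQ hn (pow_ne_zero _ hQ.ne_zero), V_pow hQ hQ.ne_zero, V_self, mul_one]
  have h2 : up Q L = L := by
    unfold up
    rw [V_eq_zero hL, pow_zero, EuclideanDomain.div_one]
  unfold tm
  rw [V_eq_zero hL, h1]
  unfold ch
  rw [h2]
  simp

end DC

open DCONST in
/-- DCE: the pairing `O_{nQ^E}(b, η)` as a function of the prime `Q`. -/
theorem DCE_thm (hSTM : STM) (hSPP : SPP) (hSLC : SLC)
    (hLCI : LCI) (hAVV : AVV) : DCE := by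
  intro n b x p q p' q' hn0 hs hb hx
  have hn1 := hs.n1
  have hn2 : p' ^ 3 + b * q' ^ 3 ≠ 0 := by
    intro h
    apply hs.n1
    rw [hs.eq, h, mul_zero]
  have hnz : (n : ℤ) ≠ 0 := by omega
  obtain ⟨M, hMdef⟩ : ∃ M : ℤ, M = (n : ℤ) * b * x * (p ^ 3 + b * q ^ 3) *
    (p' ^ 3 + b * q' ^ 3) := ⟨_, rfl⟩
  have hM : M ≠ 0 := by
    rw [hMdef]
    exact mul_ne_zero (mul_ne_zero (mul_ne_zero (mul_ne_zero hnz hb) hx) hn1) hn2
  have dn : (n : ℤ) ∣ M := ⟨b * x * (p ^ 3 + b * q ^ 3) * (p' ^ 3 + b * q' ^ 3), by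
    rw [hMdef]; ring⟩
  have db : b ∣ M := ⟨(n : ℤ) * x * (p ^ 3 + b * q ^ 3) * (p' ^ 3 + b * q' ^ 3), by
    rw [hMdef]; ring⟩
  have dx : x ∣ M := ⟨(n : ℤ) * b * (p ^ 3 + b * q ^ 3) * (p' ^ 3 + b * q' ^ 3), by
    rw [hMdef]; ring⟩
  have d1 : p ^ 3 + b * q ^ 3 ∣ M := ⟨(n : ℤ) * b * x * (p' ^ 3 + b * q' ^ 3), by
    rw [hMdef]; ring⟩
  have d2 : p' ^ 3 + b * q' ^ 3 ∣ M := ⟨(n : ℤ) * b * x * (p ^ 3 + b * q ^ 3), by
    rw [hMdef]; ring⟩
  have hfin := hSPP.2.2.1 (M : Eis) (cast_ne hM)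
  have hMa : 0 < M.natAbs := Int.natAbs_pos.2 hM
  refine ⟨9 * M.natAbs, by omega, ?_⟩
  intro f hf0 hf
  have h9 : 9 ∣ f := (Dvd.intro _ rfl).trans hf
  have hf1 : 1 < f := by
    have := Nat.le_of_dvd hf0 h9
    omega
  have hMf : M ∣ (f : ℤ) := by
    have h1 : M.natAbs ∣ f := (Dvd.intro_left 9 rfl).trans hf
    exact Int.natAbs_dvd.1 (Int.natCast_dvd_natCast.2 h1)
  have hlamf : lam ^ 4 ∣ ((f : ℤ) : Eis) := by
    have h1 : ((9 : ℤ) : Eis) ∣ ((f : ℤ) : Eis) :=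
      intCast_dvd_intCast.2 (by exact_mod_cast h9)
    refine Dvd.dvd.trans ⟨w ^ 4, ?_⟩ h1
    have h2 : ((9 : ℤ) : Eis) = (3 : Eis) ^ 2 := by norm_num
    rw [h2, three_eq]
    ring
  have hQM : ∀ Q : ℕ, Q.Prime → Q.Coprime f → ¬ (Q : ℤ) ∣ M := by
    intro Q hQ hQf h
    have h1 : (Q : ℤ) ∣ (f : ℤ) := h.trans hMf
    have h2 : Q ∣ f := Int.natCast_dvd_natCast.1 h1
    have h3 := Nat.Coprime.eq_one_of_dvd hQf h2
    exact hQ.one_lt.ne' h3
  have hBne : ∀ E Q : ℕ, Q.Prime → (n : ℤ) * Q ^ E ≠ 0 := fun E Q hQ =>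
    mul_ne_zero hnz (pow_ne_zero _ (by exact_mod_cast hQ.ne_zero))
  -- the place above `3`
  obtain ⟨c₀, Φ₀, H₀⟩ : ∃ (c : ZMod 3) (Φ : (ZMod f)ˣ →* Multiplicative (ZMod 3)),
      ∀ (E Q : ℕ) (hQ : Q.Coprime f), Q.Prime → Adm ((n : ℤ) * Q ^ E) x →
        TT none ((n : ℤ) * Q ^ E) b x p q p' q' =
          c + E * (Φ (ZMod.unitOfCoprime Q hQ)).toAdd := by
    by_cases hLC : LC (uni none) b
    · obtain ⟨C, Φ, H⟩   := DC.place_LC (n := (n : ℤ)) hSLC hnz hn1 hn2 hLC hf1 hlamf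
      refine ⟨C + sl w (x : Eis), Φ, ?_⟩
      intro E Q hQ hQp hax
      rw [TT_LC hLC]
      obtain ⟨N0, hN0⟩ := (hAVV none ((n : ℤ) * Q ^ E) b x p q p' q' (hBne E Q hQp) hb hx hs.toSolW
        (sy_zero hSTM hSPP (hBne E Q hQp) hax none) hLC).1
      rw [H E Q hQ _ N0 hN0]
      show _ + sl w (x : Eis) = _
      ring
    · refine ⟨0, 1, ?_⟩
      intro E Q hQ hQp hax
      unfold TT
      rw [if_neg hLC]
      simp
  -- the places dividing `M`
  have hpl : ∀ π : PP, ∃ (c : ZMod 3) (Φ : (ZMod f)ˣ →* Multiplicative (ZMod 3)),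
      π.1 ∣ (M : Eis) → ∀ (E Q : ℕ) (hQ : Q.Coprime f), Q.Prime → Adm ((n : ℤ) * Q ^ E) x →
        TT (some π) ((n : ℤ) * Q ^ E) b x p q p' q' =
          c + E * (Φ (ZMod.unitOfCoprime Q hQ)).toAdd := by
    intro π
    by_cases hπM : π.1 ∣ (M : Eis)
    · have hπf : π.1 ∣ ((f : ℤ) : Eis) := hπM.trans (intCast_dvd_intCast.2 hMf)
      by_cases hLC : LC (uni (some π)) b
      · obtain ⟨C, Φ, H⟩   := DC.place_LC (n := (n : ℤ)) (hSTM π.1 π.2.1 (hSPP.2.2.2.1 π).1) hnz hn1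
          hn2 hLC hf1 (by rw [pow_one]; exact hπf)
        refine ⟨C + tm π.1 w (x : Eis), Φ, ?_⟩
        intro _ E Q hQ hQp hax
        rw [TT_LC hLC]
        obtain ⟨N0, hN0⟩ := (hAVV (some π) ((n : ℤ) * Q ^ E) b x p q p' q' (hBne E Q hQp) hb hx
          hs.toSolW (sy_zero hSTM hSPP (hBne E Q hQp) hax (some π)) hLC).1
        rw [H E Q hQ _ N0 hN0]
        show _ + tm π.1 w (x : Eis) = _
        ring
      · refine ⟨if 3 ∣ V π.1 (b : Eis) + V π.1 ((n : ℤ) : Eis) ∧ ¬ 3 ∣ V π.1 (b : Eis)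
          then - tm π.1 w (x : Eis) else 0, 1, ?_⟩
        intro _ E Q hQ hQp hax
        rw [TT_some hLC]
        have hVQ : V π.1 ((Q : ℤ) : Eis) = 0 := by
          apply V_eq_zero
          intro hd
          obtain ⟨y, z, hyz⟩ := Nat.isCoprime_iff_coprime.2 hQ
          apply π.2.1.not_isUnit
          apply isUnit_of_dvd_one
          have h1 : (1 : Eis) = (y : Eis) * ((Q : ℤ) : Eis) + (z : Eis) * ((f : ℤ) : Eis) := by
            have h2 := congrArg (fun t : ℤ => (t : Eis)) hyz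
            simp only [Int.cast_add, Int.cast_mul, Int.cast_one] at h2
            exact h2.symm
          rw [h1]
          exact dvd_add (dvd_mul_of_dvd_right hd _) (dvd_mul_of_dvd_right hπf _)
        have hV : V π.1 (((n : ℤ) * Q ^ E : ℤ) : Eis) = V π.1 ((n : ℤ) : Eis) := by
          have hQe : ((Q : ℤ) : Eis) ≠ 0 := cast_ne (by exact_mod_cast hQp.ne_zero)
          rw [Int.cast_mul, Int.cast_pow, V_mul π.2.1 (cast_ne hnz) (pow_ne_zero _ hQe),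
            V_pow π.2.1 hQe, hVQ, mul_zero, add_zero]
        rw [hV]
        simp
    · exact ⟨0, 1, fun h => absurd h hπM⟩
  choose c Φ H using hpl
  refine ⟨c₀ + ∑ π ∈ hfin.toFinset, c π, Φ₀ * ∏ π ∈ hfin.toFinset, Φ π, ?_⟩
  intro E Q hQ hQp hQ3 hax r hr
  obtain ⟨πQ, hπQ⟩ := hSPP.2.2.2.2.1 Q hQp hQ3
  have hQc : ((Q : ℤ) : Eis) = (Q : Eis) := Int.cast_natCast Q
  have hπQ' : πQ.1 = ((Q : ℤ) : Eis) := by rw [hπQ, hQc]
  have hQnd : ∀ m : ℤ, m ∣ M → ¬ πQ.1 ∣ (m : Eis) := by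
    intro m hm h
    rw [hπQ'] at h
    exact hQM Q hQp hQ ((intCast_dvd_intCast.1 h).trans hm)
  have hQw : ¬ πQ.1 ∣ w := not_dvd_w πQ.2.1
  have hBcast : (((n : ℤ) * Q ^ E : ℤ) : Eis) = ((n : ℤ) : Eis) * πQ.1 ^ E := by
    rw [Int.cast_mul, Int.cast_pow, hπQ']
  -- the place `Q`
  have hTQ : TT (some πQ) ((n : ℤ) * Q ^ E) b x p q p' q' = - (E * TAUV Q p q p' q' r) := by
    have hLC : LC (uni (some πQ)) b := by
      refine (hLCI.1 πQ b hb).2 ⟨?_, ?_⟩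
      · rw [V_eq_zero (hQnd b db)]
        exact dvd_zero 3
      · unfold ch up
        rw [V_eq_zero (hQnd b db), pow_zero, EuclideanDomain.div_one, hπQ]
        refine sym_int hQp hQ3 ?_
        intro h
        exact hQM Q hQp hQ (h.trans db)
    rw [TT_LC hLC]
    have hw : sy (some πQ) w (x : Eis) = 0 := tm_zero hQw (hQnd x dx)
    rw [hw, add_zero]
    refine (hAVV (some πQ) ((n : ℤ) * Q ^ E) b x p q p' q' (hBne E Q hQp) hb hx
      hs.toSolW (sy_zero hSTM hSPP (hBne E Q hQp) hax (some πQ)) hLC).2 _ 1 ?_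
    intro r' hr'
    have hr1 : πQ.1 ∣ (r' : Eis) ^ 3 - (b : Eis) := by
      have h1 : πQ.1 ^ 1 ∣ (r' : Eis) ^ 3 - (b : Eis) := hr'
      rwa [pow_one] at h1
    have hrr : (Q : ℤ) ∣ r' - r := by
      apply root_unique hQp hQ3
      have h1 : (Q : ℤ) ∣ r' ^ 3 - b := by
        rw [hπQ'] at hr1
        apply intCast_dvd_intCast.1
        push_cast
        push_cast at hr1
        exact hr1
      have h2 : r' ^ 3 - r ^ 3 = (r' ^ 3 - b) - (r ^ 3 - b) := by ring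
      rw [h2]
      exact dvd_sub h1 hr
    have hrr' : πQ.1 ∣ (r' : Eis) - (r : Eis) := by
      rw [hπQ', ← Int.cast_sub]
      exact intCast_dvd_intCast.2 hrr
    have hsym : ∀ (g h : ℤ) (i : ℕ), sym (Q : Eis) (Lf g h i r') = sym (Q : Eis) (Lf g h i r) := by
      intro g h i
      apply sym_congr
      rw [← hπQ]
      have h1 : Lf g h i r' - Lf g h i r = (h * w ^ i) * ((r' : Eis) - r) := by
        unfold Lf
        ring
      rw [h1]
      exact dvd_mul_of_dvd_right hrr' _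
    have k1 := Lf_ndvd (p := p) (q := q) hr1 (hQnd _ d1)
    have k2 := Lf_ndvd (p := p') (q := q') hr1 (hQnd _ d2)
    show tm πQ.1 (((n : ℤ) * Q ^ E : ℤ) : Eis) (Lf p q 2 r') +
      tm πQ.1 (((n : ℤ) * Q ^ E : ℤ) : Eis) (Lf p' q' 1 r') -
      tm πQ.1 (((n : ℤ) * Q ^ E : ℤ) : Eis) (Lf p q 1 r') -
      tm πQ.1 (((n : ℤ) * Q ^ E : ℤ) : Eis) (Lf p' q' 2 r') = - (E * TAUV Q p q p' q' r)
    rw [hBcast, DC.tm_inert πQ.2.1 (hQnd _ dn) (k1 2), DC.tm_inert πQ.2.1 (hQnd _ dn) (k2 1),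
      DC.tm_inert πQ.2.1 (hQnd _ dn) (k1 1), DC.tm_inert πQ.2.1 (hQnd _ dn) (k2 2), hπQ, hsym, hsym,
      hsym, hsym]
    unfold TAUV
    ring
  -- the sum
  have hQS : πQ ∉ hfin.toFinset := by
    rw [Set.Finite.mem_toFinset]
    exact hQnd M dvd_rfl
  classical
  have hsupp : (Function.support fun v : Pl => TT v ((n : ℤ) * Q ^ E) b x p q p' q') ⊆
      ((insert none (insert (some πQ) (hfin.toFinset.image some)) : Finset Pl) : Set Pl) := by
    intro v hv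
    by_contra hnv
    apply hv
    rcases v with _ | π
    · exact absurd (Finset.mem_coe.2 (Finset.mem_insert_self _ _)) hnv
    · have hnM : ¬ π.1 ∣ (M : Eis) := by
        intro h
        apply hnv
        rw [Finset.mem_coe]
        refine Finset.mem_insert_of_mem (Finset.mem_insert_of_mem (Finset.mem_image_of_mem _ ?_))
        rw [Set.Finite.mem_toFinset]
        exact h
      have hπne : π ≠ πQ := by
        rintro rfl
        apply hnv
        rw [Finset.mem_coe]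
        exact Finset.mem_insert_of_mem (Finset.mem_insert_self _ _)
      have hd : ∀ m : ℤ, m ∣ M → ¬ π.1 ∣ (m : Eis) := fun m hm h =>
        hnM (h.trans (intCast_dvd_intCast.2 hm))
      have hπQnd : ¬ π.1 ∣ πQ.1 := by
        intro h
        exact hπne (hSPP.2.1 π πQ (π.2.1.associated_of_dvd πQ.2.1 h))
      have hnB : ¬ π.1 ∣ (((n : ℤ) * Q ^ E : ℤ) : Eis) := by
        rw [hBcast]
        intro h
        rcases π.2.1.dvd_or_dvd h with h1 | h1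
        · exact hd _ dn h1
        · exact hπQnd (π.2.1.dvd_of_dvd_pow h1)
      have hnw : ¬ π.1 ∣ w := not_dvd_w π.2.1
      show TT (some π) ((n : ℤ) * Q ^ E) b x p q p' q' = 0
      by_cases hLC : LC (uni (some π)) b
      · rw [TT_LC hLC]
        have hw : sy (some π) w (x : Eis) = 0 := tm_zero hnw (hd x dx)
        obtain ⟨N0, hN0⟩ := (hAVV (some π) ((n : ℤ) * Q ^ E) b x p q p' q' (hBne E Q hQp) hb hx
          hs.toSolW (sy_zero hSTM hSPP (hBne E Q hQp) hax (some π)) hLC).1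
        obtain ⟨r₁, hr₁⟩ := hLC (max N0 1)
        have hr0 : uni (some π) ^ N0 ∣ (r₁ : Eis) ^ 3 - (b : Eis) :=
          (pow_dvd_pow _ (le_max_left _ _)).trans hr₁
        have hr1 : π.1 ∣ (r₁ : Eis) ^ 3 - (b : Eis) := by
          have h1 : π.1 ^ 1 ∣ (r₁ : Eis) ^ 3 - (b : Eis) :=
            (pow_dvd_pow π.1 (le_max_right N0 1)).trans hr₁
          rwa [pow_one] at h1
        have k1 := Lf_ndvd (p := p) (q := q) hr1 (hd _ d1)
        have k2 := Lf_ndvd (p := p') (q := q') hr1 (hd _ d2)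
        rw [hw, ← hN0 r₁ hr0]
        show tm π.1 (((n : ℤ) * Q ^ E : ℤ) : Eis) (Lf p q 2 r₁) +
          tm π.1 (((n : ℤ) * Q ^ E : ℤ) : Eis) (Lf p' q' 1 r₁) -
          tm π.1 (((n : ℤ) * Q ^ E : ℤ) : Eis) (Lf p q 1 r₁) -
          tm π.1 (((n : ℤ) * Q ^ E : ℤ) : Eis) (Lf p' q' 2 r₁) + 0 = 0
        rw [tm_zero hnB (k1 2), tm_zero hnB (k2 1), tm_zero hnB (k1 1), tm_zero hnB (k2 2)]
        simp
      · rw [TT_some hLC, if_neg]
        rintro ⟨-, h1⟩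
        apply h1
        rw [V_eq_zero (hd b db)]
        exact dvd_zero 3
  have hn_notin : (none : Pl) ∉ insert (some πQ) (hfin.toFinset.image some) := by
    simp
  have hQ_notin : (some πQ : Pl) ∉ hfin.toFinset.image some := by
    intro h
    obtain ⟨y, hy, hy'⟩ := Finset.mem_image.1 h
    rw [Option.some.injEq] at hy'
    rw [hy'] at hy
    exact hQS hy
  have hsum : ∑ π ∈ hfin.toFinset, TT (some π) ((n : ℤ) * Q ^ E) b x p q p' q' =
      ∑ π ∈ hfin.toFinset, (c π + E * (Φ π (ZMod.unitOfCoprime Q hQ)).toAdd) := by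
    refine Finset.sum_congr rfl ?_
    intro π hπ
    rw [Set.Finite.mem_toFinset] at hπ
    exact H π hπ E Q hQ hQp hax
  unfold OO
  rw [finsum_eq_sum_of_support_subset _ hsupp, Finset.sum_insert hn_notin,
    Finset.sum_insert hQ_notin, Finset.sum_image (fun _ _ _ _ h => Option.some_injective _ h),
    hsum, hTQ, H₀ E Q hQ hQp hax, Finset.sum_add_distrib, MonoidHom.mul_apply,
    MonoidHom.finsetProd_apply, toAdd_mul, toAdd_prod, ← Finset.mul_sum]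
  ring

end Pool.Agent.PTL
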