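import Mathlib.Analysis.SpecialFunctions.Pow.Real
import Mathlib.Analysis.SpecialFunctions.Log.Basic
import Mathlib.Data.ZMod.Basic
import Mathlib.LinearAlgebra.Matrix.Rank

/-!
# Prime power twists: averages over `A = n q` and `A = n q ^ 2`
-/

set_option autoImplicit false

namespace Pool.Agent.PTL

open Classical in
/-- The sum of `F(A) / q ^ σ` over the pairs `(q, e)` with `e = 1, 2`, `q` in the finite set `T`, `q` prime, `q ≡ 2 (mod 3)`,
for which `A = n q ^ e` has the property `W`. -/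
noncomputable def Sum (n : ℤ) (W : ℤ → Prop) (F : ℤ → ℝ) (σ : ℝ) (T : Finset ℕ) : ℝ :=
  ∑ e ∈ ({1, 2} : Finset ℕ), ∑ q ∈ T,
    if q.Prime ∧ q % 3 = 2 ∧ W (n * q ^ e) then F (n * q ^ e) * (q : ℝ) ^ (-σ) else 0

/-- The sum of `F(A)` over the `A = n q ^ e` with the property `W` is at most `x` times `log (1 / (σ - 1))`, up to a
constant. -/
def Above (n : ℤ) (W : ℤ → Prop) (F : ℤ → ℝ) (x : ℝ) : Prop :=
  ∃ K : ℝ, ∀ σ : ℝ, 1 < σ → σ ≤ 2 → ∀ T : Finset ℕ, Sum n W F σ T ≤ x * Real.log (1 / (σ - 1)) + K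

/-- The sum of `F(A)` over the `A = n q ^ e` with the property `W` is at least `x` times `log (1 / (σ - 1))`, up to a
constant. -/
def Below (n : ℤ) (W : ℤ → Prop) (F : ℤ → ℝ) (x : ℝ) : Prop :=
  ∃ K : ℝ, ∀ σ : ℝ, 1 < σ → σ ≤ 2 → ∃ T : Finset ℕ, x * Real.log (1 / (σ - 1)) - K ≤ Sum n W F σ T

/-- `A ≡ ± a (mod 9)` -/
def Cls (a : ℤ) (A : ℤ) : Prop := A % 9 = a ∨ A % 9 = 9 - a

open Classical in
/-- `1` if `P` is true, `0` otherwise -/
noncomputable def tf (P : Prop) : ℝ := if P then 1 else 0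

/-- The average of `F(s - rank M)` over the skew-symmetric `s × s` matrices `M` over the field with `3` elements. -/
noncomputable def Esk (s : ℕ) (F : ℕ → ℝ) : ℝ :=
  (∑ᶠ M : {M : Matrix (Fin s) (Fin s) (ZMod 3) // M.transpose = -M}, F (s - M.1.rank)) /
    Nat.card {M : Matrix (Fin s) (Fin s) (ZMod 3) // M.transpose = -M}

end Pool.Agent.PTL
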