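import Pool.Agent.PT.SING
import Pool.Agent.PT.ALTK
import Pool.Agent.PTL.Defs

/-!
# Prime power twists: averages over skew-symmetric matrices over `F_3`
-/

set_option autoImplicit false

open Finset

namespace Pool.Agent.PTL

open Pool.Agent.PT

namespace AL

instance : Fact (Nat.Prime 3) := ⟨Nat.prime_three⟩

variable {s : ℕ}

/-- the corank -/
noncomputable def cr (v : Fin s → Fin s → ZMod 3) : ℕ := s - (alt v).rank

open Classical in
/-- matrices and skew-symmetric matrices -/
noncomputable def eqv (s : ℕ) : (Fin s → Fin s → ZMod 3) ≃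
    {M : Matrix (Fin s) (Fin s) (ZMod 3) // M.transpose = -M} ×
      ({x : Fin s × Fin s // ¬ x.1 < x.2} → ZMod 3) where
  toFun v := (⟨alt v, SING.alt_transpose v⟩, fun x => v x.1.1 x.1.2)
  invFun z := fun j i => if h : j < i then z.1.1 j i else z.2 ⟨(j, i), h⟩
  left_inv v := by
    funext j i
    by_cases h : j < i
    · simp [h, alt]
    · simp [h]
  right_inv z := by
    obtain ⟨⟨M, hM⟩, u⟩ := z
    have hsk : ∀ j i, M j i = - M i j := fun j i => by
      have h1 := congrFun (congrFun hM i) j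
      rw [Matrix.transpose_apply, Matrix.neg_apply] at h1
      exact h1
    have hd : ∀ j, M j j = 0 := fun j => by
      have h1 := hsk j j
      revert h1
      generalize M j j = d
      revert d
      decide
    refine Prod.ext (Subtype.ext ?_) ?_
    · ext j i
      change alt (fun j i => if h : j < i then M j i else u ⟨(j, i), h⟩) j i = M j i
      unfold alt
      rcases lt_trichotomy j i with h | h | h
      · simp [h]
      · subst h
        simp [hd]
      · simp [h, not_lt_of_gt h, hsk j i]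
    · funext x
      show (if h : x.1.1 < x.1.2 then M x.1.1 x.1.2 else u ⟨(x.1.1, x.1.2), h⟩) = u x
      rw [dif_neg x.2]

/-- the average over all arrays -/
theorem Esk_eq (s : ℕ) (F : ℕ → ℝ) :
    Esk s F = (∑ v : Fin s → Fin s → ZMod 3, F (cr v)) /
      Nat.card (Fin s → Fin s → ZMod 3) := by
  classical
  have : Fintype {M : Matrix (Fin s) (Fin s) (ZMod 3) // M.transpose = -M} :=
    Fintype.ofFinite _
  unfold Esk
  rw [finsum_eq_sum_of_fintype, Nat.card_congr (eqv s), Nat.card_prod]
  have h1 : (∑ v : Fin s → Fin s → ZMod 3, F (cr v)) =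
      Nat.card ({x : Fin s × Fin s // ¬ x.1 < x.2} → ZMod 3) *
        ∑ M : {M : Matrix (Fin s) (Fin s) (ZMod 3) // M.transpose = -M}, F (s - M.1.rank) := by
    rw [← (eqv s).symm.sum_comp, Fintype.sum_prod_type, Finset.mul_sum]
    refine Finset.sum_congr rfl fun M _ => ?_
    have h2 : ∀ u : {x : Fin s × Fin s // ¬ x.1 < x.2} → ZMod 3,
        F (cr ((eqv s).symm (M, u))) = F (s - M.1.rank) := by
      intro u
      have h3 : alt ((eqv s).symm (M, u)) = M.1 := by
        have h4 := congrArg (fun z => z.1.1) ((eqv s).apply_symm_apply (M, u))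
        exact h4
      unfold cr
      rw [h3]
    rw [Finset.sum_congr rfl fun u _ => h2 u, Finset.sum_const, nsmul_eq_mul, Finset.card_univ,
      ← Nat.card_eq_fintype_card]
  rw [h1, Nat.cast_mul, mul_comm ((Nat.card {M : Matrix (Fin s) (Fin s) (ZMod 3) //
    M.transpose = -M} : ℕ) : ℝ)]
  have h4 : (Nat.card ({x : Fin s × Fin s // ¬ x.1 < x.2} → ZMod 3) : ℝ) ≠ 0 :=
    Nat.cast_ne_zero.2 Nat.card_pos.ne'
  rw [mul_div_mul_left _ _ h4]

theorem rank_le_s (A : Matrix (Fin s) (Fin s) (ZMod 3)) : A.rank ≤ s := ALTK.rank_le_s A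

/-- the number of the vectors in the kernel -/
theorem card_ker (v : Fin s → Fin s → ZMod 3) :
    Nat.card {x : Fin s → ZMod 3 // (alt v).mulVec x = 0} = 3 ^ cr v := by
  have hker : Module.finrank (ZMod 3) (LinearMap.ker (alt v).mulVecLin) = cr v := by
    have h1 := LinearMap.finrank_range_add_finrank_ker (alt v).mulVecLin
    rw [Module.finrank_fintype_fun_eq_card, Fintype.card_fin] at h1
    have h2 : Module.finrank (ZMod 3) (LinearMap.range (alt v).mulVecLin) = (alt v).rank := rfl
    unfold cr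
    omega
  have h1 := Module.natCard_eq_pow_finrank (K := ZMod 3)
    (V := LinearMap.ker (alt v).mulVecLin)
  rw [Nat.card_zmod, hker] at h1
  exact h1

/-- the average of `3 ^ c` -/
theorem moment (s : ℕ) : (∑ v : Fin s → Fin s → ZMod 3, (3 : ℝ) ^ cr v) ≤
    (4 - 3 / 3 ^ s) * Nat.card (Fin s → Fin s → ZMod 3) := by
  classical
  have hN : (Nat.card (Fin s → Fin s → ZMod 3) : ℝ) =
      Fintype.card (Fin s → Fin s → ZMod 3) := by rw [Nat.card_eq_fintype_card]
  have h1 : (∑ v : Fin s → Fin s → ZMod 3, (3 : ℝ) ^ cr v) =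
      ∑ x : Fin s → ZMod 3,
        (Fintype.card {v : Fin s → Fin s → ZMod 3 // (alt v).mulVec x = 0} : ℝ) := by
    have h2 : ∀ v : Fin s → Fin s → ZMod 3, (3 : ℝ) ^ cr v =
        ∑ x : Fin s → ZMod 3, if (alt v).mulVec x = 0 then (1 : ℝ) else 0 := by
      intro v
      have h3 := card_ker v
      rw [Nat.card_eq_fintype_card, Fintype.card_subtype] at h3
      rw [Finset.sum_ite, Finset.sum_const_zero, add_zero, Finset.sum_const, nsmul_eq_mul,
        mul_one, h3]
      push_cast
      rfl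
    have h4 : ∀ x : Fin s → ZMod 3,
        (Fintype.card {v : Fin s → Fin s → ZMod 3 // (alt v).mulVec x = 0} : ℝ) =
        ∑ v : Fin s → Fin s → ZMod 3, if (alt v).mulVec x = 0 then (1 : ℝ) else 0 := by
      intro x
      rw [Finset.sum_ite, Finset.sum_const_zero, add_zero, Finset.sum_const, nsmul_eq_mul,
        mul_one, Fintype.card_subtype]
    rw [Finset.sum_congr rfl fun v _ => h2 v, Finset.sum_congr rfl fun x _ => h4 x,
      Finset.sum_comm]
  rw [h1, ← Finset.add_sum_erase _ _ (Finset.mem_univ (0 : Fin s → ZMod 3))]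
  have h5 : (Fintype.card {v : Fin s → Fin s → ZMod 3 // (alt v).mulVec 0 = 0} : ℝ) ≤
      Nat.card (Fin s → Fin s → ZMod 3) := by
    rw [hN]
    exact_mod_cast Fintype.card_subtype_le _
  have h6 : ∀ x ∈ (Finset.univ : Finset (Fin s → ZMod 3)).erase 0,
      (Fintype.card {v : Fin s → Fin s → ZMod 3 // (alt v).mulVec x = 0} : ℝ) ≤
        3 / 3 ^ s * Nat.card (Fin s → Fin s → ZMod 3) := by
    intro x hx
    have h7 := SING.card_ker x (Finset.ne_of_mem_erase hx)
    have h8 : (3 : ℝ) ^ s *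
        Fintype.card {v : Fin s → Fin s → ZMod 3 // (alt v).mulVec x = 0} ≤
        3 * Fintype.card (Fin s → Fin s → ZMod 3) := by exact_mod_cast h7
    rw [hN, div_mul_eq_mul_div, le_div_iff₀ (by positivity)]
    linarith
  have h9 := Finset.sum_le_sum h6
  rw [Finset.sum_const, nsmul_eq_mul, Finset.card_erase_of_mem (Finset.mem_univ _),
    Finset.card_univ, Fintype.card_fun, ZMod.card, Fintype.card_fin] at h9
  have h10 : ((3 ^ s - 1 : ℕ) : ℝ) = 3 ^ s - 1 := by
    rw [Nat.cast_sub (Nat.one_le_pow _ _ (by norm_num))]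
    push_cast
    rfl
  rw [h10] at h9
  have h11 : ((3 : ℝ) ^ s - 1) * (3 / 3 ^ s * Nat.card (Fin s → Fin s → ZMod 3)) =
      (3 - 3 / 3 ^ s) * Nat.card (Fin s → Fin s → ZMod 3) := by
    have h12 : (3 : ℝ) ^ s ≠ 0 := by positivity
    field_simp
  rw [h11] at h9
  linarith

/-- the rank of a skew-symmetric matrix is even -/
theorem even_rank (A : Matrix (Fin s) (Fin s) (ZMod 3)) (hA : A.transpose = -A) :
    Even A.rank := by
  classical
  obtain ⟨U, hU⟩ := Submodule.exists_isCompl (LinearMap.ker A.mulVecLin)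
  have hr : Module.finrank (ZMod 3) U = A.rank := by
    have h1 := LinearMap.finrank_range_add_finrank_ker A.mulVecLin
    have h2 := Submodule.finrank_add_eq_of_isCompl hU
    have h3 : Module.finrank (ZMod 3) (LinearMap.range A.mulVecLin) = A.rank := rfl
    omega
  rw [← hr]
  set r := Module.finrank (ZMod 3) U with hrdef
  let B : Module.Basis (Fin r) (ZMod 3) U := Module.finBasis (ZMod 3) U
  have hsk : ∀ x y : Fin s → ZMod 3, x ⬝ᵥ A.mulVec y = - (y ⬝ᵥ A.mulVec x) := by
    intro x y
    rw [Matrix.dotProduct_mulVec, ← Matrix.mulVec_transpose, hA, Matrix.neg_mulVec,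
      neg_dotProduct, dotProduct_comm]
  let G : Matrix (Fin r) (Fin r) (ZMod 3) := fun i j =>
    (B i : Fin s → ZMod 3) ⬝ᵥ A.mulVec (B j)
  have hG : G.transpose = -G := by
    ext i j
    rw [Matrix.transpose_apply, Matrix.neg_apply]
    exact hsk _ _
  by_contra hodd
  rw [Nat.not_even_iff_odd] at hodd
  have hdet := SING.odd_det hodd G hG
  obtain ⟨x, hx0, hx⟩ := Matrix.exists_mulVec_eq_zero_iff.2 hdet
  obtain ⟨w, hw⟩ : ∃ w : U, w = ∑ j, x j • B j := ⟨_, rfl⟩
  have hAw : ∀ u : Fin s → ZMod 3, u ⬝ᵥ A.mulVec (w : Fin s → ZMod 3) = 0 := by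
    have hB : ∀ i, (B i : Fin s → ZMod 3) ⬝ᵥ A.mulVec (w : Fin s → ZMod 3) = 0 := by
      intro i
      have h1 := congrFun hx i
      have h2 : A.mulVec (w : Fin s → ZMod 3) = ∑ j, x j • A.mulVec (B j : Fin s → ZMod 3) := by
        rw [hw, Submodule.coe_sum, ← Matrix.mulVecLin_apply, map_sum]
        refine Finset.sum_congr rfl fun j _ => ?_
        rw [Submodule.coe_smul, map_smul, Matrix.mulVecLin_apply]
      rw [h2, dotProduct_sum]
      refine Eq.trans ?_ (h1 : (G.mulVec x) i = 0)
      unfold Matrix.mulVec dotProduct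
      refine Finset.sum_congr rfl fun j _ => ?_
      simp only [G, Matrix.mulVec, dotProduct, Pi.smul_apply, smul_eq_mul, Finset.sum_mul]
      refine Finset.sum_congr rfl fun a _ => ?_
      ring
    intro u
    have hu : u ∈ LinearMap.ker A.mulVecLin ⊔ U := by
      rw [hU.sup_eq_top]
      exact Submodule.mem_top
    obtain ⟨k, hk, y, hy, rfl⟩ := Submodule.mem_sup.1 hu
    rw [add_dotProduct]
    have h1 : k ⬝ᵥ A.mulVec (w : Fin s → ZMod 3) = 0 := by
      rw [hsk]
      have h2 : A.mulVec k = 0 := hk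
      rw [h2, dotProduct_zero, neg_zero]
    have h2 : y ⬝ᵥ A.mulVec (w : Fin s → ZMod 3) = 0 := by
      have h3 := congrArg (Subtype.val : U → Fin s → ZMod 3) (B.sum_repr ⟨y, hy⟩)
      rw [Submodule.coe_sum] at h3
      have h4 : y = ∑ j, (B.repr ⟨y, hy⟩ j) • (B j : Fin s → ZMod 3) := h3.symm
      rw [h4, sum_dotProduct]
      refine Finset.sum_eq_zero fun j _ => ?_
      rw [smul_dotProduct, hB, smul_zero]
    rw [h1, h2, add_zero]
  have hker : (w : Fin s → ZMod 3) ∈ LinearMap.ker A.mulVecLin := by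
    rw [LinearMap.mem_ker, Matrix.mulVecLin_apply]
    funext i
    have h1 := hAw (Pi.single i 1)
    rw [single_one_dotProduct] at h1
    exact h1
  have hw0 : (w : Fin s → ZMod 3) = 0 := by
    have h1 : (w : Fin s → ZMod 3) ∈ LinearMap.ker A.mulVecLin ⊓ U := ⟨hker, w.2⟩
    rw [hU.inf_eq_bot] at h1
    exact (Submodule.mem_bot _).1 h1
  have hw1 : ∑ j, x j • B j = 0 := by
    rw [← hw]
    exact Subtype.ext hw0
  exact hx0 (funext fun j => Fintype.linearIndependent_iff.1 B.linearIndependent x hw1 j)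

theorem cr_parity (v : Fin s → Fin s → ZMod 3) : cr v % 2 = s % 2 := by
  have h1 := even_rank (alt v) (SING.alt_transpose v)
  have h2 := rank_le_s (alt v)
  obtain ⟨a, ha⟩ := h1
  unfold cr
  omega

theorem Esk_le (s : ℕ) (F : ℕ → ℝ) (α β : ℝ) (hα : 0 ≤ α)
    (h : ∀ c : ℕ, c % 2 = s % 2 → F c ≤ α * 3 ^ c + β) :
    Esk s F ≤ α * (4 - 3 / 3 ^ s) + β := by
  rw [Esk_eq]
  have hN : (0 : ℝ) < Nat.card (Fin s → Fin s → ZMod 3) := Nat.cast_pos.2 Nat.card_pos
  rw [div_le_iff₀ hN]
  have h1 : (∑ v : Fin s → Fin s → ZMod 3, F (cr v)) ≤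
      ∑ v : Fin s → Fin s → ZMod 3, (α * 3 ^ cr v + β) :=
    Finset.sum_le_sum fun v _ => h _ (cr_parity v)
  rw [Finset.sum_add_distrib, ← Finset.mul_sum, Finset.sum_const, nsmul_eq_mul,
    Finset.card_univ, ← Nat.card_eq_fintype_card] at h1
  have h2 := mul_le_mul_of_nonneg_left (moment s) hα
  linarith

theorem pos3 (s : ℕ) : (0 : ℝ) < 3 / 3 ^ s := by positivity

theorem pow_even {c : ℕ} (hc : c ≠ 1) : 4 * c + 1 ≤ 3 ^ c := by
  rcases Nat.lt_or_ge c 2 with h | h
  · have : c = 0 := by omega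
    subst this
    norm_num
  · induction c, h using Nat.le_induction with
    | base => norm_num
    | succ c hc ih =>
      have := ih (by omega)
      rw [pow_succ]
      omega

theorem pow_odd {c : ℕ} (hc : c % 2 = 1) : 12 * c ≤ 3 ^ c + 9 := by
  rcases Nat.lt_or_ge c 3 with h | h
  · have : c = 1 := by omega
    subst this
    norm_num
  · clear hc
    induction c, h using Nat.le_induction with
    | base => norm_num
    | succ c hc ih =>
      rw [pow_succ]
      omega

/-- the average of the corank -/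
theorem Esk_id (s : ℕ) : Esk s (fun c => (c : ℝ)) ≤ if Even s then 3 / 4 else 13 / 12 := by
  have h3 := pos3 s
  by_cases hs : Even s
  · rw [if_pos hs]
    have h1 := Esk_le s (fun c => (c : ℝ)) (1 / 4) (-(1 / 4)) (by norm_num) fun c hc => by
      have h2 := pow_even (c := c) (by
        rintro rfl
        rw [Nat.even_iff] at hs
        omega)
      have h4 : (4 * c + 1 : ℝ) ≤ 3 ^ c := by exact_mod_cast h2
      linarith
    linarith
  · rw [if_neg hs]
    rw [Nat.not_even_iff] at hs
    have h1 := Esk_le s (fun c => (c : ℝ)) (1 / 12) (3 / 4) (by norm_num) fun c hc => by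
      have h2 := pow_odd (c := c) (by omega)
      have h4 : (12 * c : ℝ) ≤ 3 ^ c + 9 := by exact_mod_cast h2
      linarith
    linarith

/-- the average of `3 ^ c` -/
theorem Esk_pow (s : ℕ) : Esk s (fun c => (3 : ℝ) ^ c) ≤ 4 - 3 / 3 ^ s := by
  have h1 := Esk_le s (fun c => (3 : ℝ) ^ c) 1 0 (by norm_num) fun c hc => by simp
  linarith

/-- the proportion of the singular matrices of even size -/
theorem Esk_pos {s : ℕ} (hs : Even s) : Esk s (fun c => if 1 ≤ c then 1 else 0) ≤ 3 / 8 := by
  have h3 := pos3 s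
  rw [Nat.even_iff] at hs
  have h1 := Esk_le s (fun c => if 1 ≤ c then 1 else 0) (1 / 8) (-(1 / 8)) (by norm_num)
    fun c hc => by
      show (if 1 ≤ c then (1 : ℝ) else 0) ≤ _
      by_cases h0 : c = 0
      · subst h0
        norm_num
      · rw [if_pos (by omega)]
        have h2 : 3 ^ 2 ≤ 3 ^ c := Nat.pow_le_pow_right (by norm_num) (by omega)
        have h4 : (3 ^ 2 : ℝ) ≤ 3 ^ c := by exact_mod_cast h2
        linarith
  linarith

/-- the proportion of the matrices of odd size with large kernel -/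
theorem Esk_two {s : ℕ} (hs : Odd s) : Esk s (fun c => if 2 ≤ c then 1 else 0) ≤ 1 / 24 := by
  have h3 := pos3 s
  rw [Nat.odd_iff] at hs
  have h1 := Esk_le s (fun c => if 2 ≤ c then 1 else 0) (1 / 24) (-(1 / 8)) (by norm_num)
    fun c hc => by
      show (if 2 ≤ c then (1 : ℝ) else 0) ≤ _
      by_cases h0 : c = 1
      · subst h0
        norm_num
      · rw [if_pos (by omega)]
        have h2 : 3 ^ 3 ≤ 3 ^ c := Nat.pow_le_pow_right (by norm_num) (by omega)
        have h4 : (3 ^ 3 : ℝ) ≤ 3 ^ c := by exact_mod_cast h2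
        linarith
  linarith

/-- summation by parts -/
theorem Esk_sum (s : ℕ) (F : ℕ → ℝ) : Esk s F = F 0 +
    ∑ t ∈ Finset.range s, (F (t + 1) - F t) *
      ((Nat.card {v : Fin s → Fin s → ZMod 3 // t + 1 ≤ s - (alt v).rank} : ℝ) /
        Nat.card (Fin s → Fin s → ZMod 3)) := by
  classical
  rw [Esk_eq]
  have hN : (Nat.card (Fin s → Fin s → ZMod 3) : ℝ) ≠ 0 := Nat.cast_ne_zero.2 Nat.card_pos.ne'
  have key : ∀ v : Fin s → Fin s → ZMod 3, F (cr v) = F 0 +
      ∑ t ∈ Finset.range s, (F (t + 1) - F t) * (if t + 1 ≤ cr v then 1 else 0) := by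
    intro v
    have h1 : cr v ≤ s := Nat.sub_le _ _
    have h2 : ∀ t, (F (t + 1) - F t) * (if t + 1 ≤ cr v then (1 : ℝ) else 0) =
        if t < cr v then F (t + 1) - F t else 0 := by
      intro t
      by_cases h : t < cr v
      · rw [if_pos h, if_pos (show t + 1 ≤ cr v from h), mul_one]
      · rw [if_neg h, if_neg (show ¬ t + 1 ≤ cr v from h), mul_zero]
    rw [Finset.sum_congr rfl fun t _ => h2 t, ← Finset.sum_filter]
    have h3 : (Finset.range s).filter (fun t => t < cr v) = Finset.range (cr v) := by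
      ext t
      simp only [Finset.mem_filter, Finset.mem_range]
      omega
    rw [h3, Finset.sum_range_sub]
    ring
  rw [Finset.sum_congr rfl fun v _ => key v, Finset.sum_add_distrib, Finset.sum_const,
    nsmul_eq_mul, Finset.card_univ, ← Nat.card_eq_fintype_card, Finset.sum_comm, add_div,
    mul_div_cancel_left₀ _ hN, Finset.sum_div]
  congr 1
  refine Finset.sum_congr rfl fun t _ => ?_
  rw [← Finset.mul_sum, mul_div_assoc]
  congr 2
  rw [Nat.card_eq_fintype_card, Fintype.card_subtype, Finset.sum_ite, Finset.sum_const_zero,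
    add_zero, Finset.sum_const, nsmul_eq_mul, mul_one]
  rfl

end AL

end Pool.Agent.PTL
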