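import Pool.Agent.PT.BDENS
import Pool.Agent.PT.EADM

/-!
# Prime power twists: lower bound for the number of primes in a class modulo `9`
-/

set_option autoImplicit false

open NumberField Finset

namespace Pool.Agent.PTL

open Pool.Agent.PT Pool.Agent.Lib_helper18 Pool.Agent.Lib_helper18.Eis Pool.Agent.Lib_helper84.Cub

namespace DL

open BDENS

theorem sm_nonneg (S : Set ℕ) (σ : ℝ) : 0 ≤ sm S σ := by
  rw [sm_eq]
  exact tsum_nonneg fun n => ind_nonneg S σ n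

theorem sm_mono {S T : Set ℕ} (h : ∀ n, n.Prime → n ∈ S → n ∈ T) {σ : ℝ} (hσ : 1 < σ) :
    sm S σ ≤ sm T σ := by
  rw [sm_eq, sm_eq]
  refine (ind_summable S hσ).tsum_le_tsum (fun n => ?_) (ind_summable T hσ)
  by_cases hn : n.Prime ∧ n ∈ S
  · rw [ind_mem hn.1 hn.2, ind_mem hn.1 (h n hn.1 hn.2)]
  · rw [ind_not hn]
    exact ind_nonneg _ _ _

theorem total_of (L : Type) [Field L] [NumberField L] [IsGalois ℚ L] :
    ∃ C : ℝ, ∀ σ : ℝ, 1 < σ → σ ≤ 2 → Real.log (1 / (σ - 1)) - C ≤ sm Set.univ σ := by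
  obtain ⟨C, hC⟩ := RI.FROBD_thm L (T := Set.univ) fun _ _ _ _ _ => Set.mem_univ _
  refine ⟨C, fun σ h1 h2 => ?_⟩
  have h3 := hC σ h1 h2
  have h4 : (Nat.card (Set.univ : Set (L ≃ₐ[ℚ] L)) : ℝ) / Nat.card (L ≃ₐ[ℚ] L) = 1 := by
    rw [Nat.card_coe_set_eq, Set.ncard_univ]
    exact div_self (Nat.cast_ne_zero.2 Nat.card_pos.ne')
  rw [h4, one_mul] at h3
  refine h3.trans ?_
  exact sm_mono (fun n _ _ => Set.mem_univ n) h1

/-- all primes -/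
theorem total : ∃ C : ℝ, ∀ σ : ℝ, 1 < σ → σ ≤ 2 →
    Real.log (1 / (σ - 1)) - C ≤ sm Set.univ σ := by
  have hgal : @IsGalois ℚ _ ℚ _ DivisionRing.toRatAlgebra := by
    have h : (DivisionRing.toRatAlgebra : Algebra ℚ ℚ) = Algebra.id ℚ := Subsingleton.elim _ _
    rw [h]
    infer_instance
  exact @total_of ℚ _ _ hgal

/-- a class modulo `9` -/
theorem cls_lower (hDIR : DIR) (a : (ZMod 9)ˣ) : ∃ C : ℝ, ∀ σ : ℝ, 1 < σ → σ ≤ 2 →
    1 / 6 * Real.log (1 / (σ - 1)) - C ≤ sm {q : ℕ | (q : ZMod 9) = a} σ := by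
  classical
  obtain ⟨C0, hC0⟩ := total
  choose DC hDC using fun b : (ZMod 9)ˣ => hDIR 9 b (by norm_num)
  refine ⟨C0 + 2 + ∑ b ∈ (Finset.univ : Finset (ZMod 9)ˣ).erase a, DC b, fun σ h1 h2 => ?_⟩
  have e0 := hC0 σ h1 h2
  have e1 := sm_add_le Set.univ ∅ {n : ℕ | n ≠ 3} {3} (fun n _ hA _ => ⟨by
    rw [Finset.mem_singleton] at hA
    exact hA, fun h => h⟩) (fun n _ _ h => absurd h (Set.notMem_empty n)) h1
  have e2 := sm_cover {n : ℕ | n ≠ 3} (Finset.univ : Finset (ZMod 9)ˣ) (fun n hn hn3 => by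
    have h3 : n.Coprime 9 := by
      have h4 : (9 : ℕ) = 3 ^ 2 := by norm_num
      rw [h4]
      apply Nat.Coprime.pow_right
      exact (Nat.coprime_primes hn Nat.prime_three).2 hn3
    exact ⟨ZMod.unitOfCoprime n h3, Finset.mem_univ _, (ZMod.coe_unitOfCoprime n h3).symm⟩) h1
  have e3 := sm_nonneg ∅ σ
  rw [← Finset.add_sum_erase _ _ (Finset.mem_univ a)] at e2
  have e4 : ∑ b ∈ (Finset.univ : Finset (ZMod 9)ˣ).erase a,
      ∑' q : {q : ℕ // q.Prime ∧ (q : ZMod 9) = b}, (q : ℝ) ^ (-σ) ≤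
      ∑ b ∈ (Finset.univ : Finset (ZMod 9)ˣ).erase a,
        ((1 / ((Nat.totient 9 : ℕ) : ℝ)) * Real.log (1 / (σ - 1)) + DC b) :=
    Finset.sum_le_sum fun b _ => hDC b σ h1 h2
  have h9 : Nat.totient 9 = 6 := by decide
  rw [Finset.sum_add_distrib, Finset.sum_const, Finset.card_erase_of_mem (Finset.mem_univ a),
    Finset.card_univ, ZMod.card_units_eq_totient, h9, nsmul_eq_mul] at e4
  have e5 : sm {q : ℕ | (q : ZMod 9) = a} σ =
      ∑' q : {q : ℕ // q.Prime ∧ (q : ZMod 9) = a}, (q : ℝ) ^ (-σ) := rfl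
  rw [Finset.card_singleton] at e1
  have h5 : ((6 - 1 : ℕ) : ℝ) = 5 := by norm_num
  have h6 : ((6 : ℕ) : ℝ) = 6 := by norm_num
  have h7 : ((1 : ℕ) : ℝ) = 1 := by norm_num
  rw [h5, h6] at e4
  rw [h7] at e1
  rw [e5]
  linarith

theorem wt_val {q : ℕ} (c : ℕ) (s t : ℤ) (hq : q % 9 = c) (h : (c : ℤ) ^ 2 = 1 + 3 * (3 * s + t)) :
    wt ((q : ℤ) ^ 2) = (t : ZMod 3) := by
  obtain ⟨k, hk⟩ : ∃ k : ℤ, (q : ℤ) = 9 * k + c := ⟨(q : ℤ) / 9, by omega⟩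
  have h3 : (q : ℤ) ^ 2 = 1 + 3 * (3 * (9 * k ^ 2 + 2 * k * c + s) + t) := by
    rw [hk]
    linear_combination h
  rw [wt_eq h3]
  push_cast
  have h4 : (3 : ZMod 3) = 0 := by decide
  rw [h4]
  ring

/-- the primes `= 2 (mod 3)` of a class modulo `9` -/
theorem w_lower (hDIR : DIR) (w : ZMod 3) : ∃ C : ℝ, ∀ σ : ℝ, 1 < σ → σ ≤ 2 →
    1 / 6 * Real.log (1 / (σ - 1)) - C ≤ sm {q : ℕ | q % 3 = 2 ∧ wt ((q : ℤ) ^ 2) = w} σ := by
  have key : ∀ (c : ℕ) (hc : c.Coprime 9) (s t : ℤ), c < 9 → c % 3 = 2 →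
      (c : ℤ) ^ 2 = 1 + 3 * (3 * s + t) → (t : ZMod 3) = w → ∃ C : ℝ, ∀ σ : ℝ, 1 < σ → σ ≤ 2 →
    1 / 6 * Real.log (1 / (σ - 1)) - C ≤
      sm {q : ℕ | q % 3 = 2 ∧ wt ((q : ℤ) ^ 2) = w} σ := by
    intro c hc s t hc9 hc3 h ht
    obtain ⟨C, hC⟩ := cls_lower hDIR (ZMod.unitOfCoprime c hc)
    refine ⟨C, fun σ h1 h2 => (hC σ h1 h2).trans (sm_mono ?_ h1)⟩
    intro n _ hn
    have h3 : (n : ZMod 9) = (c : ZMod 9) := by
      rw [← ZMod.coe_unitOfCoprime c hc]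
      exact hn
    rw [ZMod.natCast_eq_natCast_iff'] at h3
    have h4 : n % 9 = c := by omega
    refine ⟨by omega, ?_⟩
    rw [wt_val c s t h4 h, ht]
  have hw : ∀ w : ZMod 3, w = 0 ∨ w = 1 ∨ w = 2 := by decide
  rcases hw w with rfl | rfl | rfl
  · exact key 8 (by decide) 7 0 (by norm_num) (by norm_num) (by norm_num) (by decide)
  · exact key 2 (by decide) 0 1 (by norm_num) (by norm_num) (by norm_num) (by decide)
  · exact key 5 (by decide) 2 2 (by norm_num) (by norm_num) (by norm_num) (by decide)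

end DL

end Pool.Agent.PTL
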