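import Pool.Agent.PTL.CL
import Pool.Agent.PTL.AL
import Pool.Agent.PTL.DL
import Pool.Agent.CubeRank.Basics

/-!
# Prime power twists: averages of functions of the rank in a class
-/

set_option autoImplicit false

open NumberField IsDedekindDomain Finset
open scoped nonZeroDivisors Pointwise

namespace Pool.Agent.PTL

open Pool.Agent.PT Pool.Agent.Lib_helper18 Pool.Agent.Lib_helper18.Eis Pool.Agent.Lib_helper84.Cub

namespace DOM

open BDENS

/-- The groups are finitely generated. -/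
theorem fin_gen {k : ℕ} (hk : 1 ≤ k) {p e : Fin k → ℕ} (hp : ∀ i, (p i).Prime)
    (h3 : ∀ i, p i % 3 = 2) (hinj : Function.Injective p) (he : ∀ i, e i = 1 ∨ e i = 2)
    {q E : ℕ} (hq : q.Prime) (hq3 : q % 3 = 2) (hE : E = 1 ∨ E = 2)
    (h9 : q % 9 ≠ 8 ∨ ∃ i, p i % 9 ≠ 8) (hne : ∀ i, p i ≠ q) :
    CubeRank.GenBy ((∏ i, (p i : ℤ) ^ e i) * q ^ E)
      (CubeRank.rr ((∏ i, (p i : ℤ) ^ e i) * q ^ E)) := by
  have h := CubeRank.gen_no (q := (Fin.cons q p : Fin (k + 1) → ℕ))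
    (fun i => Fin.cases (by simpa using hq) (fun i => by simpa using hp i) i)
    (fun i => Fin.cases (by simpa using hq3) (fun i => by simpa using h3 i) i)
    (by
      rw [Fin.cons_injective_iff]
      exact ⟨fun ⟨i, hi⟩ => hne i hi, hinj⟩)
    (by
      rcases h9 with h9 | ⟨i, h9⟩
      · exact ⟨0, by simpa using h9⟩
      · exact ⟨i.succ, by simpa using h9⟩)
    (by omega) (e := (Fin.cons E e : Fin (k + 1) → ℕ))
    (fun i => Fin.cases (by simpa using hE) (fun i => by simpa using he i) i)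
  rw [Fin.prod_univ_succ] at h
  simp only [Fin.cons_zero, Fin.cons_succ] at h
  rw [mul_comm] at h
  exact CubeRank.gen_rr h

/-- The trivial group has no rational points. -/
theorem no_sol {A : ℤ} (hA : A ≠ 0) (h : CubeRank.GenBy A 0) :
    ¬ ∃ X Y : ℚ, X ^ 3 + Y ^ 3 = (A : ℚ) := by
  rintro ⟨X, Y, hXY⟩
  have hAq : (A : ℚ) ≠ 0 := by exact_mod_cast hA
  obtain ⟨s, hs, hcl⟩ := h
  have hs0 : s = ∅ := Finset.card_eq_zero.1 (by omega)
  rw [hs0, Finset.coe_empty, AddSubgroup.closure_empty] at hcl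
  have hsum : X + Y ≠ 0 := by
    intro h0
    apply hAq
    rw [← hXY]
    have : Y = -X := by linarith
    rw [this]
    ring
  have hx : 12 * (A : ℚ) / (X + Y) ≠ 0 := div_ne_zero (mul_ne_zero (by norm_num) hAq) hsum
  have hns := CubeRank.bas_nonsing (A := A) (x := 12 * (A : ℚ) / (X + Y))
    (y := 36 * (A : ℚ) * (X - Y) / (X + Y)) hx (by
      rw [← hXY]
      field_simp
      ring)
  have h1 : (WeierstrassCurve.Affine.Point.some _ _ hns : CubeRank.GA A) ∈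
      (⊥ : AddSubgroup (CubeRank.GA A)) := by
    rw [hcl]
    exact AddSubgroup.mem_top _
  rw [AddSubgroup.mem_bot] at h1
  exact WeierstrassCurve.Affine.Point.some_ne_zero _ h1

theorem sum_ind_le (S : Set ℕ) {σ : ℝ} (hσ : 1 < σ) (T : Finset ℕ) :
    ∑ q ∈ T, ind S σ q ≤ sm S σ := by
  rw [sm_eq]
  exact (ind_summable S hσ).sum_le_tsum T fun n _ => ind_nonneg S σ n

theorem NK_zero (s : ℕ) : NK s 0 = Nat.card (Fin s → Fin s → ZMod 3) := by
  unfold NK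
  exact Nat.card_congr (Equiv.subtypeUnivEquiv fun v => Nat.zero_le _)

section

variable {k : ℕ} {r f : Fin k → ℕ} {w0 : ZMod 3}

theorem WS_zero {E t q : ℕ} (h : q ∈ WS r f w0 E t) : q ∈ WS r f w0 E 0 :=
  ⟨h.1, h.2.1, h.2.2.1, Nat.zero_le _⟩

open Classical in
/-- one exponent, pointwise -/
theorem point (F : ℕ → ℝ) (hF : Monotone F) (h0 : 0 ≤ F 0) {M s : ℕ} {E : ℕ}
    (hM : ∀ q : ℕ, q.Prime → M < q → q ∈ WS r f w0 E 0 →
      CubeRank.rr ((∏ i, (r i : ℤ) ^ f i) * q ^ E) ≤ s) {σ : ℝ} (hσ : 1 < σ) (q : ℕ) :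
    (if q.Prime ∧ q ∈ WS r f w0 E 0 then
      F (CubeRank.rr ((∏ i, (r i : ℤ) ^ f i) * q ^ E)) * (q : ℝ) ^ (-σ) else 0) ≤
    F 0 * ind (WS r f w0 E 0) σ q +
      ∑ t ∈ Finset.range s, (F (t + 1) - F t) * ind (WS r f w0 E (t + 1)) σ q +
      (if q ≤ M then F (CubeRank.rr ((∏ i, (r i : ℤ) ^ f i) * q ^ E)) else 0) := by
  have hFn : ∀ n, 0 ≤ F n := fun n => h0.trans (hF (Nat.zero_le n))
  have hsum : 0 ≤ ∑ t ∈ Finset.range s, (F (t + 1) - F t) * ind (WS r f w0 E (t + 1)) σ q :=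
    Finset.sum_nonneg fun t _ => mul_nonneg (sub_nonneg.2 (hF (Nat.le_succ t)))
      (ind_nonneg _ _ _)
  have h00 : 0 ≤ F 0 * ind (WS r f w0 E 0) σ q := mul_nonneg h0 (ind_nonneg _ _ _)
  have hlast : 0 ≤ (if q ≤ M then F (CubeRank.rr ((∏ i, (r i : ℤ) ^ f i) * q ^ E)) else 0) := by
    split_ifs
    · exact hFn _
    · exact le_rfl
  by_cases hq : q.Prime ∧ q ∈ WS r f w0 E 0
  · rw [if_pos hq]
    by_cases hqM : q ≤ M
    · rw [if_pos hqM]
      have h1 : (q : ℝ) ^ (-σ) ≤ 1 :=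
        Real.rpow_le_one_of_one_le_of_nonpos (by exact_mod_cast hq.1.one_lt.le) (by linarith)
      have h2 := mul_le_mul_of_nonneg_left h1
        (hFn (CubeRank.rr ((∏ i, (r i : ℤ) ^ f i) * q ^ E)))
      rw [mul_one] at h2
      linarith
    · rw [if_neg hqM, add_zero]
      push Not at hqM
      have hrs := hM q hq.1 hqM hq.2
      obtain ⟨ρ, hρ⟩ : ∃ ρ, ρ = CubeRank.rr ((∏ i, (r i : ℤ) ^ f i) * q ^ E) := ⟨_, rfl⟩
      rw [← hρ] at hrs ⊢
      have e1 : ∀ t, ind (WS r f w0 E (t + 1)) σ q = if t < ρ then (q : ℝ) ^ (-σ) else 0 := by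
        intro t
        by_cases ht : t < ρ
        · rw [if_pos ht]
          exact ind_mem hq.1 ⟨hq.2.1, hq.2.2.1, hq.2.2.2.1, by rw [← hρ]; exact ht⟩
        · rw [if_neg ht]
          refine ind_not fun h => ht ?_
          have h3 := h.2.2.2.2
          rw [← hρ] at h3
          exact h3
      have e2 : ∑ t ∈ Finset.range s, (F (t + 1) - F t) * ind (WS r f w0 E (t + 1)) σ q =
          (F ρ - F 0) * (q : ℝ) ^ (-σ) := by
        have e3 : ∀ t ∈ Finset.range s, (F (t + 1) - F t) * ind (WS r f w0 E (t + 1)) σ q =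
            if t < ρ then (F (t + 1) - F t) * (q : ℝ) ^ (-σ) else 0 := by
          intro t _
          rw [e1 t, mul_ite, mul_zero]
        rw [Finset.sum_congr rfl e3, ← Finset.sum_filter]
        have e4 : (Finset.range s).filter (fun t => t < ρ) = Finset.range ρ := by
          ext t
          simp only [Finset.mem_filter, Finset.mem_range]
          omega
        rw [e4, ← Finset.sum_mul, Finset.sum_range_sub]
      rw [e2, ind_mem hq.1 hq.2]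
      apply le_of_eq
      ring
  · rw [if_neg hq]
    linarith

open Classical in
/-- averages in a class -/
theorem dom (hCLE : CLE) (hk : 1 ≤ k) (hr : ∀ i, (r i).Prime) (h2 : ∀ i, r i % 3 = 2)
    (hinj : Function.Injective r) (hf : ∀ i, f i = 1 ∨ f i = 2) (w0 : ZMod 3)
    (F : ℕ → ℝ) (hF : Monotone F) (h0 : 0 ≤ F 0) :
    ∃ K : ℝ, ∀ σ : ℝ, 1 < σ → σ ≤ 2 → ∀ T : Finset ℕ,
      ∑ E ∈ ({1, 2} : Finset ℕ), ∑ q ∈ T, (if q.Prime ∧ q ∈ WS r f w0 E 0 then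
        F (CubeRank.rr ((∏ i, (r i : ℤ) ^ f i) * q ^ E)) * (q : ℝ) ^ (-σ) else 0) ≤
      Esk (sz r f w0) F / 3 * Real.log (1 / (σ - 1)) + K := by
  obtain ⟨⟨M, hM⟩, hC⟩ := hCLE k r f hk hr h2 hinj hf w0
  choose K hK using hC
  have hFn : ∀ n, 0 ≤ F n := fun n => h0.trans (hF (Nat.zero_le n))
  obtain ⟨s, hs⟩ : ∃ s, s = sz r f w0 := ⟨_, rfl⟩
  rw [← hs] at hM hK ⊢
  obtain ⟨B, hB⟩ : ∃ B : ℕ → ℝ, ∀ E, B E = ∑ q ∈ Finset.range (M + 1),
      F (CubeRank.rr ((∏ i, (r i : ℤ) ^ f i) * (q : ℤ) ^ E)) := ⟨_, fun _ => rfl⟩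
  refine ⟨F 0 * K 0 + ∑ t ∈ Finset.range s, (F (t + 1) - F t) * K (t + 1) + B 1 + B 2,
    fun σ h1 hσ2 T => ?_⟩
  have hone : ∀ E : ℕ, (E = 1 ∨ E = 2) →
      ∑ q ∈ T, (if q.Prime ∧ q ∈ WS r f w0 E 0 then
        F (CubeRank.rr ((∏ i, (r i : ℤ) ^ f i) * q ^ E)) * (q : ℝ) ^ (-σ) else 0) ≤
      F 0 * sm (WS r f w0 E 0) σ + ∑ t ∈ Finset.range s, (F (t + 1) - F t) *
        sm (WS r f w0 E (t + 1)) σ + B E := by
    intro E hE
    refine (Finset.sum_le_sum fun q _ => point F hF h0 (s := s) (M := M)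
      (fun q hq hqM hqW => hM E q hE hq hqM hqW) h1 q).trans ?_
    rw [Finset.sum_add_distrib, Finset.sum_add_distrib]
    refine add_le_add (add_le_add ?_ ?_) ?_
    · rw [← Finset.mul_sum]
      exact mul_le_mul_of_nonneg_left (sum_ind_le _ h1 T) h0
    · rw [Finset.sum_comm]
      refine Finset.sum_le_sum fun t _ => ?_
      rw [← Finset.mul_sum]
      exact mul_le_mul_of_nonneg_left (sum_ind_le _ h1 T) (sub_nonneg.2 (hF (Nat.le_succ t)))
    · rw [← Finset.sum_filter, hB]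
      refine Finset.sum_le_sum_of_subset_of_nonneg ?_ fun q _ _ => hFn _
      intro q hq
      rw [Finset.mem_range]
      have := (Finset.mem_filter.1 hq).2
      omega
  rw [Finset.sum_pair (by norm_num : (1 : ℕ) ≠ 2)]
  have i1 := hone 1 (Or.inl rfl)
  have i2 := hone 2 (Or.inr rfl)
  have j0 := mul_le_mul_of_nonneg_left (hK 0 σ h1 hσ2) h0
  have j1 : ∑ t ∈ Finset.range s, (F (t + 1) - F t) * (sm (WS r f w0 1 (t + 1)) σ +
      sm (WS r f w0 2 (t + 1)) σ) ≤ ∑ t ∈ Finset.range s, (F (t + 1) - F t) *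
      ((NK s (t + 1) : ℝ) / Nat.card (Fin s → Fin s → ZMod 3) / 3 *
        Real.log (1 / (σ - 1)) + K (t + 1)) :=
    Finset.sum_le_sum fun t _ => mul_le_mul_of_nonneg_left (hK (t + 1) σ h1 hσ2)
      (sub_nonneg.2 (hF (Nat.le_succ t)))
  have hN : (Nat.card (Fin s → Fin s → ZMod 3) : ℝ) ≠ 0 := Nat.cast_ne_zero.2 Nat.card_pos.ne'
  rw [NK_zero, div_self hN] at j0
  have hE : Esk s F / 3 * Real.log (1 / (σ - 1)) =
      F 0 * (1 / 3 * Real.log (1 / (σ - 1))) +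
      ∑ t ∈ Finset.range s, (F (t + 1) - F t) *
        ((NK s (t + 1) : ℝ) / Nat.card (Fin s → Fin s → ZMod 3) / 3 *
          Real.log (1 / (σ - 1))) := by
    rw [AL.Esk_sum, add_div, add_mul, Finset.sum_div, Finset.sum_mul]
    congr 1
    · ring
    · refine Finset.sum_congr rfl fun t _ => ?_
      unfold NK
      ring
  rw [hE]
  have e1 : ∑ t ∈ Finset.range s, (F (t + 1) - F t) * (sm (WS r f w0 1 (t + 1)) σ +
      sm (WS r f w0 2 (t + 1)) σ) =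
      ∑ t ∈ Finset.range s, (F (t + 1) - F t) * sm (WS r f w0 1 (t + 1)) σ +
      ∑ t ∈ Finset.range s, (F (t + 1) - F t) * sm (WS r f w0 2 (t + 1)) σ := by
    rw [← Finset.sum_add_distrib]
    exact Finset.sum_congr rfl fun t _ => by ring
  have e2 : ∑ t ∈ Finset.range s, (F (t + 1) - F t) *
      ((NK s (t + 1) : ℝ) / Nat.card (Fin s → Fin s → ZMod 3) / 3 *
        Real.log (1 / (σ - 1)) + K (t + 1)) =
      ∑ t ∈ Finset.range s, (F (t + 1) - F t) *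
        ((NK s (t + 1) : ℝ) / Nat.card (Fin s → Fin s → ZMod 3) / 3 *
          Real.log (1 / (σ - 1))) +
      ∑ t ∈ Finset.range s, (F (t + 1) - F t) * K (t + 1) := by
    rw [← Finset.sum_add_distrib]
    exact Finset.sum_congr rfl fun t _ => by ring
  rw [e1, e2] at j1
  rw [mul_add, mul_add] at j0
  linarith

/-- the number of the primes in the class -/
theorem low0 (hDIR : DIR) (w0 : ZMod 3) (hH : (∃ i, r i % 9 ≠ 8) ∨ w0 ≠ 0) :
    ∃ K : ℝ, ∀ σ : ℝ, 1 < σ → σ ≤ 2 →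
      1 / 3 * Real.log (1 / (σ - 1)) - K ≤ sm (WS r f w0 1 0) σ + sm (WS r f w0 2 0) σ := by
  obtain ⟨C1, hC1⟩ := DL.w_lower hDIR w0
  obtain ⟨C2, hC2⟩ := DL.w_lower hDIR (-w0)
  have h9 : ∀ q : ℕ, q % 3 = 2 → wt ((q : ℤ) ^ 2) = w0 ∨ wt ((q : ℤ) ^ 2) = -w0 →
      q % 9 ≠ 8 ∨ ∃ i, r i % 9 ≠ 8 := by
    intro q _ hw
    rcases hH with h | h
    · exact Or.inr h
    · refine Or.inl fun hq => h ?_
      have h1 := DL.wt_val 8 7 0 hq (by norm_num)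
      rw [h1] at hw
      rcases hw with hw | hw
      · rw [← hw]
        decide
      · have h2 : w0 = -(-w0) := (neg_neg _).symm
        rw [h2, ← hw]
        decide
  refine ⟨C1 + C2, fun σ h1 h2 => ?_⟩
  have e1 := hC1 σ h1 h2
  have e2 := hC2 σ h1 h2
  have e3 : sm {q : ℕ | q % 3 = 2 ∧ wt ((q : ℤ) ^ 2) = w0} σ ≤ sm (WS r f w0 1 0) σ := by
    refine DL.sm_mono ?_ h1
    intro q _ hq
    refine ⟨hq.1, h9 q hq.1 (Or.inl hq.2), ?_, Nat.zero_le _⟩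
    rw [pow_one]
    exact hq.2
  have e4 : sm {q : ℕ | q % 3 = 2 ∧ wt ((q : ℤ) ^ 2) = -w0} σ ≤ sm (WS r f w0 2 0) σ := by
    refine DL.sm_mono ?_ h1
    intro q _ hq
    refine ⟨hq.1, h9 q hq.1 (Or.inr hq.2), ?_, Nat.zero_le _⟩
    rw [CL.wt_sq2 hq.1, hq.2]
    have h3 : ∀ z : ZMod 3, 2 * -z = z := by decide
    exact h3 w0
  linarith

theorem approx (S : Set ℕ) {σ : ℝ} (hσ : 1 < σ) :
    ∃ T : Finset ℕ, sm S σ - 1 ≤ ∑ q ∈ T, ind S σ q := by
  have h1 := (ind_summable S hσ).hasSum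
  rw [← sm_eq] at h1
  have h2 := h1.eventually (lt_mem_nhds (show sm S σ - 1 < sm S σ by linarith))
  obtain ⟨T, hT⟩ := h2.exists
  exact ⟨T, hT.le⟩

/-- lower bounds in a class -/
theorem low (hCLE : CLE) (hDIR : DIR) (hk : 1 ≤ k) (hr : ∀ i, (r i).Prime)
    (h2 : ∀ i, r i % 3 = 2) (hinj : Function.Injective r) (hf : ∀ i, f i = 1 ∨ f i = 2)
    (w0 : ZMod 3) (hH : (∃ i, r i % 9 ≠ 8) ∨ w0 ≠ 0) (t : ℕ) (G : ℕ → Set ℕ) (M : ℕ)
    (hG : ∀ E q : ℕ, (E = 1 ∨ E = 2) → q.Prime → M < q → q ∈ WS r f w0 E 0 →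
      q ∉ WS r f w0 E t → q ∈ G E) :
    ∃ K : ℝ, ∀ σ : ℝ, 1 < σ → σ ≤ 2 → ∃ T : Finset ℕ,
      (1 - (NK (sz r f w0) t : ℝ) / Nat.card (Fin (sz r f w0) → Fin (sz r f w0) → ZMod 3)) / 3 *
        Real.log (1 / (σ - 1)) - K ≤ ∑ E ∈ ({1, 2} : Finset ℕ), ∑ q ∈ T, ind (G E) σ q := by
  obtain ⟨-, hC⟩ := hCLE k r f hk hr h2 hinj hf w0
  obtain ⟨K, hK⟩ := hC t
  obtain ⟨K0, hK0⟩ := low0 (r := r) (f := f) hDIR w0 hH
  refine ⟨K + K0 + 2 * (2 * ((Finset.range (M + 1)).card : ℝ)) + 2, fun σ h1 hσ2 => ?_⟩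
  have e1 := hK σ h1 hσ2
  have e2 := hK0 σ h1 hσ2
  have e3 : ∀ E : ℕ, (E = 1 ∨ E = 2) → sm (WS r f w0 E 0) σ ≤
      sm (WS r f w0 E t) σ + sm (G E) σ + 2 * ((Finset.range (M + 1)).card : ℝ) := by
    intro E hE
    have i1 := CL.sm_le_add (WS r f w0 E 0) (WS r f w0 E t ∪ G E) M (fun q hq hqM hqW => by
      by_cases h : q ∈ WS r f w0 E t
      · exact Or.inl h
      · exact Or.inr (hG E q hE hq hqM hqW h)) h1
    have i2 := BD.sm_union_inter (WS r f w0 E t) (G E) h1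
    have i3 := DL.sm_nonneg (WS r f w0 E t ∩ G E) σ
    linarith
  obtain ⟨T1, hT1⟩ := approx (G 1) h1
  obtain ⟨T2, hT2⟩ := approx (G 2) h1
  refine ⟨T1 ∪ T2, ?_⟩
  rw [Finset.sum_pair (by norm_num : (1 : ℕ) ≠ 2)]
  have j1 : ∑ q ∈ T1, ind (G 1) σ q ≤ ∑ q ∈ T1 ∪ T2, ind (G 1) σ q :=
    Finset.sum_le_sum_of_subset_of_nonneg Finset.subset_union_left fun q _ _ =>
      ind_nonneg _ _ _
  have j2 : ∑ q ∈ T2, ind (G 2) σ q ≤ ∑ q ∈ T1 ∪ T2, ind (G 2) σ q :=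
    Finset.sum_le_sum_of_subset_of_nonneg Finset.subset_union_right fun q _ _ =>
      ind_nonneg _ _ _
  have e4 := e3 1 (Or.inl rfl)
  have e5 := e3 2 (Or.inr rfl)
  have e6 : (1 - (NK (sz r f w0) t : ℝ) /
      Nat.card (Fin (sz r f w0) → Fin (sz r f w0) → ZMod 3)) / 3 * Real.log (1 / (σ - 1)) =
      1 / 3 * Real.log (1 / (σ - 1)) - (NK (sz r f w0) t : ℝ) /
      Nat.card (Fin (sz r f w0) → Fin (sz r f w0) → ZMod 3) / 3 * Real.log (1 / (σ - 1)) := by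
    ring
  rw [e6]
  linarith

end

end DOM

end Pool.Agent.PTL
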