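import Pool.Agent.PT.BDENS

/-!
# Prime power twists: the density of the primes with large kernel, both exponents together
-/

set_option autoImplicit false

open NumberField IsDedekindDomain Finset
open scoped nonZeroDivisors Pointwise

namespace Pool.Agent.PTL

open Pool.Agent.PT Pool.Agent.Lib_helper18 Pool.Agent.Lib_helper18.Eis Pool.Agent.Lib_helper84.Cub

/-- the number of the matrices with large kernel -/
noncomputable def NK (s t : ℕ) : ℕ :=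
  Nat.card {v : Fin s → Fin s → ZMod 3 // t ≤ s - (alt v).rank}

/-- the primes of the class `c` with large kernel, for the exponent `1` -/
def SP {s : ℕ} (b : Fin s → ℤ) (p q p' q' : Fin s → Fin s → ℤ) {f m : ℕ} (t : ℕ)
    (κ : (ZMod f)ˣ →* Multiplicative (Fin (m + 1) → ZMod 3)) (c : Fin (m + 1) → ZMod 3)
    (C : Fin s → Fin s → ZMod 3) (Φ : (ZMod f)ˣ →* Multiplicative (Fin s → Fin s → ZMod 3)) :
    Set ℕ :=
  {Q : ℕ | ∃ hQ : Q.Coprime f, Q % 3 = 2 ∧ (κ (ZMod.unitOfCoprime Q hQ)).toAdd = c ∧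
    ∀ τ : Fin s → Fin s → ZMod 3,
      (∀ j i, j ≠ i → ∀ r : ℤ, (Q : ℤ) ∣ r ^ 3 - b j →
        τ j i = TAUV Q (p j i) (q j i) (p' j i) (q' j i) r) →
      t ≤ s - (alt (C + (Φ (ZMod.unitOfCoprime Q hQ)).toAdd - τ)).rank}

/-- the primes of the class `-c` with large kernel, for the exponent `2` -/
def SM {s : ℕ} (b : Fin s → ℤ) (p q p' q' : Fin s → Fin s → ℤ) {f m : ℕ} (t : ℕ)
    (κ : (ZMod f)ˣ →* Multiplicative (Fin (m + 1) → ZMod 3)) (c : Fin (m + 1) → ZMod 3)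
    (C : Fin s → Fin s → ZMod 3) (Φ : (ZMod f)ˣ →* Multiplicative (Fin s → Fin s → ZMod 3)) :
    Set ℕ :=
  {Q : ℕ | ∃ hQ : Q.Coprime f, Q % 3 = 2 ∧ (κ (ZMod.unitOfCoprime Q hQ)).toAdd = -c ∧
    ∀ τ : Fin s → Fin s → ZMod 3,
      (∀ j i, j ≠ i → ∀ r : ℤ, (Q : ℤ) ∣ r ^ 3 - b j →
        τ j i = TAUV Q (p j i) (q j i) (p' j i) (q' j i) r) →
      t ≤ s - (alt (C - (Φ (ZMod.unitOfCoprime Q hQ)).toAdd + τ)).rank}

/-- BDE: the exact bound for the density, both exponents together. -/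
def BDE : Prop := ∀ (s : ℕ) (b : Fin s → ℤ) (p q p' q' : Fin s → Fin s → ℤ) (f m t : ℕ)
  (κ : (ZMod f)ˣ →* Multiplicative (Fin (m + 1) → ZMod 3)) (c : Fin (m + 1) → ZMod 3)
  (C : Fin s → Fin s → ZMod 3) (Φ : (ZMod f)ˣ →* Multiplicative (Fin s → Fin s → ZMod 3)),
  Sys b p q p' q' → 0 < f → 9 ∣ f →
  (∀ c : Fin (m + 1) → ZMod 3,
    Nat.card {a : (ZMod f)ˣ // M2 a ∧ (κ a).toAdd = c} * (2 * 3 ^ (m + 1)) = f.totient) →
  ∃ K : ℝ, ∀ σ : ℝ, 1 < σ → σ ≤ 2 →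
    BDENS.sm (SP b p q p' q' t κ c C Φ) σ + BDENS.sm (SM b p q p' q' t κ c C Φ) σ ≤
      (NK s t : ℝ) / Nat.card (Fin s → Fin s → ZMod 3) / 3 ^ (m + 1) *
        Real.log (1 / (σ - 1)) + K

namespace BD

open BDENS

/-- two sets of primes -/
theorem sm_union_inter (S₁ S₂ : Set ℕ) {σ : ℝ} (hσ : 1 < σ) :
    sm S₁ σ + sm S₂ σ = sm (S₁ ∪ S₂) σ + sm (S₁ ∩ S₂) σ := by
  classical
  rw [sm_eq, sm_eq, sm_eq, sm_eq, ← (ind_summable S₁ hσ).tsum_add (ind_summable S₂ hσ),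
    ← (ind_summable (S₁ ∪ S₂) hσ).tsum_add (ind_summable (S₁ ∩ S₂) hσ)]
  refine tsum_congr fun n => ?_
  by_cases hp : n.Prime
  · by_cases h1 : n ∈ S₁
    · by_cases h2 : n ∈ S₂
      · rw [ind_mem hp h1, ind_mem hp h2, ind_mem hp (Or.inl h1 : n ∈ S₁ ∪ S₂),
          ind_mem hp (⟨h1, h2⟩ : n ∈ S₁ ∩ S₂)]
      · rw [ind_mem hp h1, ind_not fun h => h2 h.2, ind_mem hp (Or.inl h1 : n ∈ S₁ ∪ S₂),
          ind_not fun h => h2 h.2.2]
    · by_cases h2 : n ∈ S₂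
      · rw [ind_not fun h => h1 h.2, ind_mem hp h2, ind_mem hp (Or.inr h2 : n ∈ S₁ ∪ S₂),
          ind_not fun h => h1 h.2.1, add_comm]
      · rw [ind_not fun h => h1 h.2, ind_not fun h => h2 h.2,
          ind_not fun h => h.2.elim h1 h2, ind_not fun h => h1 h.2.1]
  · rw [ind_not fun h => hp h.1, ind_not fun h => hp h.1, ind_not fun h => hp h.1,
      ind_not fun h => hp h.1]

section
variable {G : Type} [Group G] {f m s : ℕ} (χ : G →* (ZMod f)ˣ)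
    (κ : (ZMod f)ˣ →* Multiplicative (Fin (m + 1) → ZMod 3)) (c : Fin (m + 1) → ZMod 3)
    (C : Fin s → Fin s → ZMod 3) (Φ : (ZMod f)ˣ →* Multiplicative (Fin s → Fin s → ZMod 3))
    (t : ℕ) (tt : G → Fin s → Fin s → ZMod 3)

/-- the elements of class `c` with large kernel -/
def XP (g : G) : Prop := M2 (χ g) ∧ (κ (χ g)).toAdd = c ∧
  t ≤ s - (alt (C + (Φ (χ g)).toAdd - tt g)).rank

/-- the elements of class `-c` with large kernel -/
def XM (g : G) : Prop := M2 (χ g) ∧ (κ (χ g)).toAdd = -c ∧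
  t ≤ s - (alt (C - (Φ (χ g)).toAdd + tt g)).rank

/-- passing to a power with exponent prime to `6` -/
theorem transfer (hf : 0 < f) (h3 : 3 ∣ f) {g h : G} {k : ℕ} (hk : Odd k) (hk3 : k % 3 ≠ 0)
    (hχ : χ h = χ g ^ k) (hg : M2 (χ g)) (ht : ∀ j i, j ≠ i → tt h j i = k * tt g j i) :
    (InU χ κ c g → InU χ κ c h) ∧
      (((XP χ κ c C Φ t tt h → XP χ κ c C Φ t tt g) ∧
          (XM χ κ c C Φ t tt h → XM χ κ c C Φ t tt g)) ∨
        ((XP χ κ c C Φ t tt h → XM χ κ c C Φ t tt g) ∧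
          (XM χ κ c C Φ t tt h → XP χ κ c C Φ t tt g))) := by
  have hM : M2 (χ h) := by
    rw [hχ]
    exact M2_pow hf h3 hg hk
  have e1 : (κ (χ h)).toAdd = k • (κ (χ g)).toAdd := by
    rw [hχ, map_pow, toAdd_pow]
  have e2 : (Φ (χ h)).toAdd = k • (Φ (χ g)).toAdd := by
    rw [hχ, map_pow, toAdd_pow]
  have hk12 : k % 3 = 1 ∨ k % 3 = 2 := by omega
  rcases hk12 with hk1 | hk2
  · rw [nsmul_one three_f hk1] at e1
    rw [nsmul_one three_ff hk1] at e2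
    have e3 : alt (C + (Φ (χ h)).toAdd - tt h) = alt (C + (Φ (χ g)).toAdd - tt g) := by
      apply alt_congr
      intro j i hji
      rw [Pi.sub_apply, Pi.sub_apply, Pi.sub_apply, Pi.sub_apply, ht j i hji.ne,
        cast_one hk1, e2]
    have e4 : alt (C - (Φ (χ h)).toAdd + tt h) = alt (C - (Φ (χ g)).toAdd + tt g) := by
      apply alt_congr
      intro j i hji
      rw [Pi.add_apply, Pi.add_apply, Pi.add_apply, Pi.add_apply, ht j i hji.ne,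
        cast_one hk1, e2]
    refine ⟨?_, Or.inl ⟨?_, ?_⟩⟩
    · rintro ⟨-, h2⟩
      refine ⟨hM, ?_⟩
      rw [e1]
      exact h2
    · rintro ⟨-, h2, h4⟩
      rw [e1] at h2
      rw [e3] at h4
      exact ⟨hg, h2, h4⟩
    · rintro ⟨-, h2, h4⟩
      rw [e1] at h2
      rw [e4] at h4
      exact ⟨hg, h2, h4⟩
  · rw [nsmul_two three_f hk2] at e1
    rw [nsmul_two three_ff hk2] at e2
    have e3 : alt (C + (Φ (χ h)).toAdd - tt h) = alt (C - (Φ (χ g)).toAdd + tt g) := by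
      apply alt_congr
      intro j i hji
      rw [Pi.sub_apply, Pi.sub_apply, Pi.add_apply, Pi.add_apply, ht j i hji.ne,
        cast_two hk2, e2]
      show C j i + -((Φ (χ g)).toAdd j i) - -tt g j i = C j i - (Φ (χ g)).toAdd j i + tt g j i
      ring
    have e4 : alt (C - (Φ (χ h)).toAdd + tt h) = alt (C + (Φ (χ g)).toAdd - tt g) := by
      apply alt_congr
      intro j i hji
      rw [Pi.add_apply, Pi.add_apply, Pi.sub_apply, Pi.sub_apply, ht j i hji.ne,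
        cast_two hk2, e2]
      show C j i - -((Φ (χ g)).toAdd j i) + -tt g j i = C j i + (Φ (χ g)).toAdd j i - tt g j i
      ring
    refine ⟨?_, Or.inr ⟨?_, ?_⟩⟩
    · rintro ⟨-, h2⟩
      refine ⟨hM, ?_⟩
      rw [e1]
      rcases h2 with h2 | h2
      · exact Or.inr (by rw [h2])
      · exact Or.inl (by rw [h2, neg_neg])
    · rintro ⟨-, h2, h4⟩
      rw [e1] at h2
      rw [e3] at h4
      exact ⟨hg, by rw [← h2, neg_neg], h4⟩
    · rintro ⟨-, h2, h4⟩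
      rw [e1] at h2
      rw [e4] at h4
      exact ⟨hg, neg_injective h2, h4⟩

/-- a predicate which can be transferred -/
def Inv (B : G → Prop) : Prop := ∀ {g h : G} {k : ℕ}, Odd k → k % 3 ≠ 0 → χ h = χ g ^ k →
  M2 (χ g) → (∀ j i, j ≠ i → tt h j i = k * tt g j i) →
  (InU χ κ c g → InU χ κ c h) ∧ (B h → B g)

theorem inv_or (hf : 0 < f) (h3 : 3 ∣ f) :
    Inv χ κ c tt fun g => XP χ κ c C Φ t tt g ∨ XM χ κ c C Φ t tt g := by
  intro g h k hk hk3 hχ hg ht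
  obtain ⟨h1, h2⟩ := transfer χ κ c C Φ t tt hf h3 hk hk3 hχ hg ht
  refine ⟨h1, ?_⟩
  rcases h2 with ⟨h4, h5⟩ | ⟨h4, h5⟩
  · rintro (h6 | h6)
    · exact Or.inl (h4 h6)
    · exact Or.inr (h5 h6)
  · rintro (h6 | h6)
    · exact Or.inr (h4 h6)
    · exact Or.inl (h5 h6)

theorem inv_and (hf : 0 < f) (h3 : 3 ∣ f) :
    Inv χ κ c tt fun g => XP χ κ c C Φ t tt g ∧ XM χ κ c C Φ t tt g := by
  intro g h k hk hk3 hχ hg ht
  obtain ⟨h1, h2⟩ := transfer χ κ c C Φ t tt hf h3 hk hk3 hχ hg ht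
  refine ⟨h1, ?_⟩
  rcases h2 with ⟨h4, h5⟩ | ⟨h4, h5⟩
  · rintro ⟨h6, h7⟩
    exact ⟨h4 h6, h5 h7⟩
  · rintro ⟨h6, h7⟩
    exact ⟨h5 h7, h4 h6⟩

/-- the elements that are not bad are stable under conjugation and change of generator -/
theorem stable [Finite G] (hf : 0 < f) (h3 : 3 ∣ f) {B : G → Prop} (hB : Inv χ κ c tt B)
    (hconj : ∀ g τ : G, M2 (χ g) → ∀ j i, j ≠ i → tt (τ * g * τ⁻¹) j i = tt g j i)
    (hpow : ∀ (g : G) (k : ℕ), M2 (χ g) → Odd k → ∀ j i, j ≠ i →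
      tt (g ^ k) j i = k * tt g j i)
    {g h τ : G} (hg : InU χ κ c g ∧ ¬ B g)
    (hz : Subgroup.zpowers h = Subgroup.zpowers (τ * g * τ⁻¹)) :
    InU χ κ c h ∧ ¬ B h := by
  have hM := hg.1.1
  have hχg : χ (τ * g * τ⁻¹) = χ g := by
    rw [map_mul, map_mul, map_inv, mul_comm (χ τ), mul_inv_cancel_right]
  have hM' : M2 (χ (τ * g * τ⁻¹)) := by
    rw [hχg]
    exact hM
  have he : Even (orderOf (τ * g * τ⁻¹)) := by
    apply M2_even hf h3 hM'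
    rw [← map_pow, pow_orderOf_eq_one, map_one]
  obtain ⟨k, hk, hk3, hh⟩ := exists_pow hz he
  have h1 : χ h = χ g ^ k := by
    rw [hh, map_pow, hχg]
  have h2 : ∀ j i, j ≠ i → tt h j i = k * tt g j i := by
    intro j i hji
    rw [hh, hpow _ k hM' hk j i hji, hconj g τ hM j i hji]
  obtain ⟨h4, h5⟩ := hB hk hk3 h1 hM h2
  exact ⟨h4 hg.1, fun h6 => hg.2 (h5 h6)⟩

/-- counting -/
theorem card_X [Finite G] (hEQD : EQD) (hf : 0 < f) (hχ : Function.Surjective χ)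
    (heq : ∀ (a : (ZMod f)ˣ) (v v' : Fin s → Fin s → ZMod 3), M2 a →
      Nat.card {g : G // χ g = a ∧ ∀ j i, j < i → tt g j i = v j i} =
        Nat.card {g : G // χ g = a ∧ ∀ j i, j < i → tt g j i = v' j i})
    (hκ : ∀ c : Fin (m + 1) → ZMod 3,
      Nat.card {a : (ZMod f)ˣ // M2 a ∧ (κ a).toAdd = c} * (2 * 3 ^ (m + 1)) = f.totient) :
    Nat.card (Fin s → Fin s → ZMod 3) * Nat.card {g : G // XP χ κ c C Φ t tt g} *
        (2 * 3 ^ (m + 1)) ≤ NK s t * Nat.card G ∧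
      Nat.card (Fin s → Fin s → ZMod 3) * Nat.card {g : G // XM χ κ c C Φ t tt g} *
        (2 * 3 ^ (m + 1)) ≤ NK s t * Nat.card G := by
  have : NeZero f := ⟨hf.ne'⟩
  obtain ⟨hfib, hcard⟩ := fibre χ hχ
  have hH : Nat.card (ZMod f)ˣ = f.totient := by
    rw [Nat.card_eq_fintype_card, ZMod.card_units_eq_totient]
  rw [hH] at hcard
  have hcls : ∀ (a : (ZMod f)ˣ) (D : Fin s → Fin s → ZMod 3), M2 a →
      Nat.card (Fin s → Fin s → ZMod 3) *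
        Nat.card {g : G // χ g = a ∧ t ≤ s - (alt (D - tt g)).rank} ≤
        NK s t * Nat.card χ.ker ∧
      Nat.card (Fin s → Fin s → ZMod 3) *
        Nat.card {g : G // χ g = a ∧ t ≤ s - (alt (D + tt g)).rank} ≤
        NK s t * Nat.card χ.ker := by
    intro a D ha
    obtain ⟨h1, h2⟩ := hEQD s f G χ tt hf heq a D {M | t ≤ s - M.rank} ha
    rw [hfib a] at h1 h2
    constructor
    · rw [mul_comm]
      exact le_of_eq h1
    · rw [mul_comm]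
      exact le_of_eq h2
  have hP : Nat.card (Fin s → Fin s → ZMod 3) *
      Nat.card {g : G // (M2 (χ g) ∧ (κ (χ g)).toAdd = c) ∧
      t ≤ s - (alt (C + (Φ (χ g)).toAdd - tt g)).rank} ≤
      Nat.card {a : (ZMod f)ˣ // M2 a ∧ (κ a).toAdd = c} * (NK s t * Nat.card χ.ker) := by
    refine count_le χ (fun g => t ≤ s - (alt (C + (Φ (χ g)).toAdd - tt g)).rank)
      (fun a => M2 a ∧ (κ a).toAdd = c) _ _ fun a ha => ?_
    refine le_trans (Nat.mul_le_mul_left _ (le_of_eq ?_)) (hcls a (C + (Φ a).toAdd) ha.1).1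
    refine Nat.card_congr (Equiv.subtypeEquivRight fun g => ?_)
    constructor
    · rintro ⟨rfl, h⟩
      exact ⟨rfl, h⟩
    · rintro ⟨rfl, h⟩
      exact ⟨rfl, h⟩
  have hN : Nat.card (Fin s → Fin s → ZMod 3) *
      Nat.card {g : G // (M2 (χ g) ∧ (κ (χ g)).toAdd = -c) ∧
      t ≤ s - (alt (C - (Φ (χ g)).toAdd + tt g)).rank} ≤
      Nat.card {a : (ZMod f)ˣ // M2 a ∧ (κ a).toAdd = -c} * (NK s t * Nat.card χ.ker) := by
    refine count_le χ (fun g => t ≤ s - (alt (C - (Φ (χ g)).toAdd + tt g)).rank)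
      (fun a => M2 a ∧ (κ a).toAdd = -c) _ _ fun a ha => ?_
    refine le_trans (Nat.mul_le_mul_left _ (le_of_eq ?_)) (hcls a (C - (Φ a).toAdd) ha.1).2
    refine Nat.card_congr (Equiv.subtypeEquivRight fun g => ?_)
    constructor
    · rintro ⟨rfl, h⟩
      exact ⟨rfl, h⟩
    · rintro ⟨rfl, h⟩
      exact ⟨rfl, h⟩
  have e1 : Nat.card {g : G // XP χ κ c C Φ t tt g} =
      Nat.card {g : G // (M2 (χ g) ∧ (κ (χ g)).toAdd = c) ∧
      t ≤ s - (alt (C + (Φ (χ g)).toAdd - tt g)).rank} :=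
    Nat.card_congr (Equiv.subtypeEquivRight fun g => (and_assoc).symm)
  have e2 : Nat.card {g : G // XM χ κ c C Φ t tt g} =
      Nat.card {g : G // (M2 (χ g) ∧ (κ (χ g)).toAdd = -c) ∧
      t ≤ s - (alt (C - (Φ (χ g)).toAdd + tt g)).rank} :=
    Nat.card_congr (Equiv.subtypeEquivRight fun g => (and_assoc).symm)
  rw [← e1] at hP
  rw [← e2] at hN
  have h1 := hκ c
  have h2 := hκ (-c)
  generalize Nat.card {g : G // XP χ κ c C Φ t tt g} = nP at *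
  generalize Nat.card {g : G // XM χ κ c C Φ t tt g} = nN at *
  generalize Nat.card {a : (ZMod f)ˣ // M2 a ∧ (κ a).toAdd = c} = cP at *
  generalize Nat.card {a : (ZMod f)ˣ // M2 a ∧ (κ a).toAdd = -c} = cN at *
  generalize Nat.card (Fin s → Fin s → ZMod 3) = A at *
  generalize 3 ^ (m + 1) = F at *
  generalize Nat.card χ.ker = K at *
  rw [← hcard]
  constructor
  · calc A * nP * (2 * F) ≤ cP * (NK s t * K) * (2 * F) := Nat.mul_le_mul_right _ hP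
      _ = NK s t * (K * (cP * (2 * F))) := by ring
      _ = NK s t * (K * f.totient) := by rw [h1]
  · calc A * nN * (2 * F) ≤ cN * (NK s t * K) * (2 * F) := Nat.mul_le_mul_right _ hN
      _ = NK s t * (K * (cN * (2 * F))) := by ring
      _ = NK s t * (K * f.totient) := by rw [h2]

/-- inclusion and exclusion -/
theorem card_incl [Finite G] (P Q : G → Prop) :
    Nat.card {g : G // P g ∨ Q g} + Nat.card {g : G // P g ∧ Q g} =
      Nat.card {g : G // P g} + Nat.card {g : G // Q g} :=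
  Set.ncard_union_add_ncard_inter {g : G | P g} {g : G | Q g} (Set.toFinite _) (Set.toFinite _)

/-- counting the elements of `T` -/
theorem card_T [Finite G] (hf : 0 < f) (hχ : Function.Surjective χ) (B : G → Prop) :
    (Nat.card {a : (ZMod f)ˣ // M2 a ∧ ((κ a).toAdd = c ∨ (κ a).toAdd = -c)} : ℝ) *
        (1 / (f.totient : ℝ)) -
      (Nat.card {g : G // InU χ κ c g ∧ ¬ B g} : ℝ) / Nat.card G ≤
      (Nat.card {g : G // B g} : ℝ) / Nat.card G := by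
  have : NeZero f := ⟨hf.ne'⟩
  obtain ⟨hfib, hcard⟩ := fibre χ hχ
  have hH : Nat.card (ZMod f)ˣ = f.totient := by
    rw [Nat.card_eq_fintype_card, ZMod.card_units_eq_totient]
  rw [hH] at hcard
  have hU : Nat.card {g : G // InU χ κ c g} =
      Nat.card {a : (ZMod f)ˣ // M2 a ∧ ((κ a).toAdd = c ∨ (κ a).toAdd = -c)} *
        Nat.card χ.ker :=
    count_eq χ (fun a => M2 a ∧ ((κ a).toAdd = c ∨ (κ a).toAdd = -c)) _ fun a _ => hfib a
  have hUT : Nat.card {g : G // InU χ κ c g} ≤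
      Nat.card {g : G // InU χ κ c g ∧ ¬ B g} + Nat.card {g : G // B g} := by
    have h1 : {g : G | InU χ κ c g} ⊆
        {g : G | InU χ κ c g ∧ ¬ B g} ∪ {g : G | B g} := by
      intro g hg
      by_cases hb : B g
      · exact Or.inr hb
      · exact Or.inl ⟨hg, hb⟩
    exact (Set.ncard_le_ncard h1 (Set.toFinite _)).trans (Set.ncard_union_le _ _)
  have hK : 0 < Nat.card χ.ker := Nat.card_pos
  have hφ : 0 < f.totient := Nat.totient_pos.2 hf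
  rw [hU] at hUT
  generalize Nat.card {a : (ZMod f)ˣ // M2 a ∧ ((κ a).toAdd = c ∨ (κ a).toAdd = -c)} = nV at *
  generalize Nat.card {g : G // InU χ κ c g ∧ ¬ B g} = nT at *
  generalize Nat.card {g : G // B g} = nB at *
  generalize Nat.card χ.ker = K at *
  rw [← hcard]
  have hK' : (0 : ℝ) < K := Nat.cast_pos.2 hK
  have hφ' : (0 : ℝ) < f.totient := Nat.cast_pos.2 hφ
  have h1 : (nV : ℝ) * K ≤ nT + nB := by exact_mod_cast hUT
  have h3 : (nV : ℝ) * (1 / (f.totient : ℝ)) - (nT : ℝ) / ((K * f.totient : ℕ) : ℝ) =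
      (nV * K - nT) / (K * f.totient) := by
    push_cast
    field_simp
  rw [h3]
  push_cast
  exact div_le_div_of_nonneg_right (by linarith) (by positivity)

end

/-- the density of a set of primes -/
theorem dens (hDIR : DIR) {s : ℕ} {b : Fin s → ℤ} {p q p' q' : Fin s → Fin s → ℤ} {f m : ℕ}
    (hf : 0 < f) (h3 : 3 ∣ f)
    (κ : (ZMod f)ˣ →* Multiplicative (Fin (m + 1) → ZMod 3)) (c : Fin (m + 1) → ZMod 3)
    (L : Type) [Field L] [NumberField L] [IsGalois ℚ L] (χ : (L ≃ₐ[ℚ] L) →* (ZMod f)ˣ)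
    (tt : (L ≃ₐ[ℚ] L) → Fin s → Fin s → ZMod 3) (N₀ : ℕ) (hχ : Function.Surjective χ)
    (hconj : ∀ g τ : L ≃ₐ[ℚ] L, M2 (χ g) → ∀ j i, j ≠ i → tt (τ * g * τ⁻¹) j i = tt g j i)
    (hpow : ∀ (g : L ≃ₐ[ℚ] L) (k : ℕ), M2 (χ g) → Odd k → ∀ j i, j ≠ i →
      tt (g ^ k) j i = k * tt g j i)
    (hfrob : ∀ (Q : ℕ) (hQ : Q.Coprime f), Q.Prime → N₀ < Q → ∀ (P : Ideal (𝓞 L))
      (g : L ≃ₐ[ℚ] L), P.IsPrime → (Q : 𝓞 L) ∈ P →
      MulAction.stabilizer (L ≃ₐ[ℚ] L) P = Subgroup.zpowers g →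
      ∃ k : ℕ, k.Coprime (orderOf g) ∧ χ (g ^ k) = ZMod.unitOfCoprime Q hQ ∧
        (Q % 3 = 2 → ∀ j i, j ≠ i → ∀ r : ℤ, (Q : ℤ) ∣ r ^ 3 - b j →
          tt (g ^ k) j i = TAUV Q (p j i) (q j i) (p' j i) (q' j i) r))
    (B : (L ≃ₐ[ℚ] L) → Prop) (hB : Inv χ κ c tt B) (S : Set ℕ)
    (hS1 : ∀ n : ℕ, n.Prime → ∀ hQ : n.Coprime f, n ∈ S → n % 3 = 2 ∧
      ((κ (ZMod.unitOfCoprime n hQ)).toAdd = c ∨ (κ (ZMod.unitOfCoprime n hQ)).toAdd = -c))
    (hS2 : ∀ n : ℕ, n.Prime → ∀ hQ : n.Coprime f, n ∈ S → ∀ g : L ≃ₐ[ℚ] L,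
      χ g = ZMod.unitOfCoprime n hQ → (∀ j i, j ≠ i → ∀ r : ℤ, (n : ℤ) ∣ r ^ 3 - b j →
        tt g j i = TAUV n (p j i) (q j i) (p' j i) (q' j i) r) → B g) :
    ∃ K : ℝ, ∀ σ : ℝ, 1 < σ → σ ≤ 2 → sm S σ ≤
      (Nat.card {g : L ≃ₐ[ℚ] L // B g} : ℝ) / Nat.card (L ≃ₐ[ℚ] L) *
        Real.log (1 / (σ - 1)) + K := by
  classical
  have : NeZero f := ⟨hf.ne'⟩
  have hst : ∀ g h τ : L ≃ₐ[ℚ] L, g ∈ {g | InU χ κ c g ∧ ¬ B g} →
      Subgroup.zpowers h = Subgroup.zpowers (τ * g * τ⁻¹) →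
      h ∈ {g | InU χ κ c g ∧ ¬ B g} := fun g h τ hg hz =>
    stable χ κ c tt hf h3 hB hconj hpow hg hz
  obtain ⟨C1, hC1⟩ := RI.FROBD_thm L _ hst
  choose DC hDC using fun a : (ZMod f)ˣ => hDIR f a hf
  have hT := card_T χ κ c hf hχ B
  obtain ⟨ST, hST⟩ : ∃ ST : Set ℕ, ST = {Q : ℕ | ∃ g ∈ {g | InU χ κ c g ∧
      ¬ B g}, ∃ P : Ideal (𝓞 L), P.IsPrime ∧ (Q : 𝓞 L) ∈ P ∧
      MulAction.stabilizer (L ≃ₐ[ℚ] L) P = Subgroup.zpowers g} := ⟨_, rfl⟩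
  obtain ⟨V, hV⟩ : ∃ V : Finset (ZMod f)ˣ, V = Finset.univ.filter fun a =>
      M2 a ∧ ((κ a).toAdd = c ∨ (κ a).toAdd = -c) := ⟨_, rfl⟩
  have hVc : V.card =
      Nat.card {a : (ZMod f)ˣ // M2 a ∧ ((κ a).toAdd = c ∨ (κ a).toAdd = -c)} := by
    rw [Nat.card_eq_fintype_card, Fintype.card_subtype, hV]
  have hM : ∀ (Q : ℕ) (hQ : Q.Coprime f), M2 (ZMod.unitOfCoprime Q hQ) ↔ Q % 3 = 2 := by
    intro Q hQ
    unfold M2
    rw [ZMod.coe_unitOfCoprime, ZMod.val_natCast, Nat.mod_mod_of_dvd _ h3]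
  have hcop : ∀ n : ℕ, n.Prime → n ∉ Finset.range (max N₀ f + 1) → n.Coprime f ∧ N₀ < n := by
    intro n hn hA
    rw [Finset.mem_range, not_lt] at hA
    refine ⟨(Nat.Prime.coprime_iff_not_dvd hn).2 fun h => ?_, ?_⟩
    · have h1 := Nat.le_of_dvd hf h
      have h2 := le_max_right N₀ f
      omega
    · have h2 := le_max_left N₀ f
      omega
  have hSTe : ∀ n : ℕ, n.Prime → n ∉ Finset.range (max N₀ f + 1) → n ∈ ST →
      ∃ (hQ : n.Coprime f) (g : L ≃ₐ[ℚ] L), (InU χ κ c g ∧ ¬ B g) ∧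
        χ g = ZMod.unitOfCoprime n hQ ∧ (n % 3 = 2 → ∀ j i, j ≠ i → ∀ r : ℤ,
          (n : ℤ) ∣ r ^ 3 - b j → tt g j i = TAUV n (p j i) (q j i) (p' j i) (q' j i) r) := by
    intro n hn hA hnST
    rw [hST] at hnST
    obtain ⟨g, hg, P, hP, hnP, hstab⟩ := hnST
    obtain ⟨hQ, hN⟩ := hcop n hn hA
    obtain ⟨k, hk, hχk, htk⟩ := hfrob n hQ hn hN P g hP hnP hstab
    refine ⟨hQ, g ^ k, ?_, hχk, htk⟩
    refine hst g (g ^ k) 1 hg ?_
    rw [one_mul, inv_one, mul_one]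
    exact zpowers_pow_eq hk
  refine ⟨2 * (Finset.range (max N₀ f + 1)).card + ∑ a ∈ V, DC a + C1, fun σ h1 h2 => ?_⟩
  have key := sm_add_le S ST {Q : ℕ | ∃ a ∈ V, (Q : ZMod f) = a}
    (Finset.range (max N₀ f + 1)) ?_ ?_ h1
  · have cov := sm_cover {Q : ℕ | ∃ a ∈ V, (Q : ZMod f) = a} V (fun n _ hn => hn) h1
    have hfr := hC1 σ h1 h2
    have hfr' : ((Nat.card {g : L ≃ₐ[ℚ] L // InU χ κ c g ∧ ¬ B g} : ℝ) /
        Nat.card (L ≃ₐ[ℚ] L)) * Real.log (1 / (σ - 1)) - C1 ≤ sm ST σ := by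
      rw [hST]
      exact hfr
    have hsum : ∑ a ∈ V, ∑' q : {q : ℕ // q.Prime ∧ (q : ZMod f) = a}, (q : ℝ) ^ (-σ) ≤
        ∑ a ∈ V, ((1 / (f.totient : ℝ)) * Real.log (1 / (σ - 1)) + DC a) :=
      Finset.sum_le_sum fun a _ => hDC a σ h1 h2
    rw [Finset.sum_add_distrib, Finset.sum_const, nsmul_eq_mul, hVc] at hsum
    have hlog : 0 ≤ Real.log (1 / (σ - 1)) := by
      apply Real.log_nonneg
      rw [le_div_iff₀ (by linarith)]
      linarith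
    have hmul := mul_le_mul_of_nonneg_right hT hlog
    rw [sub_mul, mul_assoc] at hmul
    linarith
  · intro n hn hA hnB
    obtain ⟨hQ, _⟩ := hcop n hn hA
    obtain ⟨hn3, hnc⟩ := hS1 n hn hQ hnB
    constructor
    · refine ⟨ZMod.unitOfCoprime n hQ, ?_, ZMod.coe_unitOfCoprime n hQ⟩
      rw [hV]
      exact Finset.mem_filter.2 ⟨Finset.mem_univ _, (hM n hQ).2 hn3, hnc⟩
    · intro hnST
      obtain ⟨hQ', g, ⟨hgU, hgB⟩, hχg, htg⟩ := hSTe n hn hA hnST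
      exact hgB (hS2 n hn hQ' hnB g hχg (htg hn3))
  · intro n hn hA hnST
    obtain ⟨hQ', g, ⟨hgU, hgB⟩, hχg, htg⟩ := hSTe n hn hA hnST
    refine ⟨ZMod.unitOfCoprime n hQ', ?_, ZMod.coe_unitOfCoprime n hQ'⟩
    rw [hV]
    have h5 := hgU
    unfold InU at h5
    rw [hχg] at h5
    exact Finset.mem_filter.2 ⟨Finset.mem_univ _, h5⟩

end BD

open BDENS BD in
/-- BDE: the exact bound for the density, both exponents together. -/
theorem BDE_thm (hGALD : GALD) (hEQD : EQD) (hDIR : DIR) : BDE := by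
  classical
  intro s b p q p' q' f m t κ c C Φ hSys hf h9 hκ
  obtain ⟨L, iF, iN, iG, χ, tt, N₀, hχ, hconj, hpow, heq, hfrob⟩ :=
    hGALD s b p q p' q' f hSys hf h9
  have h3 : 3 ∣ f := Dvd.dvd.trans (by norm_num) h9
  have hM : ∀ (Q : ℕ) (hQ : Q.Coprime f), M2 (ZMod.unitOfCoprime Q hQ) ↔ Q % 3 = 2 := by
    intro Q hQ
    unfold M2
    rw [ZMod.coe_unitOfCoprime, ZMod.val_natCast, Nat.mod_mod_of_dvd _ h3]
  have hP : ∀ n : ℕ, n.Prime → ∀ hQ : n.Coprime f, n ∈ SP b p q p' q' t κ c C Φ →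
      ∀ g : L ≃ₐ[ℚ] L, χ g = ZMod.unitOfCoprime n hQ →
      (∀ j i, j ≠ i → ∀ r : ℤ, (n : ℤ) ∣ r ^ 3 - b j →
        tt g j i = TAUV n (p j i) (q j i) (p' j i) (q' j i) r) → XP χ κ c C Φ t tt g := by
    intro n hn hQ hnS g hg htg
    obtain ⟨hQ', h1, h2, h4⟩ := hnS
    refine ⟨?_, ?_, ?_⟩
    · rw [hg]
      exact (hM n hQ).2 h1
    · rw [hg]
      exact h2
    · rw [hg]
      exact h4 (tt g) htg
  have hN : ∀ n : ℕ, n.Prime → ∀ hQ : n.Coprime f, n ∈ SM b p q p' q' t κ c C Φ →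
      ∀ g : L ≃ₐ[ℚ] L, χ g = ZMod.unitOfCoprime n hQ →
      (∀ j i, j ≠ i → ∀ r : ℤ, (n : ℤ) ∣ r ^ 3 - b j →
        tt g j i = TAUV n (p j i) (q j i) (p' j i) (q' j i) r) → XM χ κ c C Φ t tt g := by
    intro n hn hQ hnS g hg htg
    obtain ⟨hQ', h1, h2, h4⟩ := hnS
    refine ⟨?_, ?_, ?_⟩
    · rw [hg]
      exact (hM n hQ).2 h1
    · rw [hg]
      exact h2
    · rw [hg]
      exact h4 (tt g) htg
  obtain ⟨K1, hK1⟩ := dens hDIR hf h3 κ c L χ tt N₀ hχ hconj hpow hfrob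
    (fun g => XP χ κ c C Φ t tt g ∨ XM χ κ c C Φ t tt g)
    (inv_or χ κ c C Φ t tt hf h3) (SP b p q p' q' t κ c C Φ ∪ SM b p q p' q' t κ c C Φ)
    (by
      rintro n hn hQ (⟨hQ', h1, h2, -⟩ | ⟨hQ', h1, h2, -⟩)
      · exact ⟨h1, Or.inl h2⟩
      · exact ⟨h1, Or.inr h2⟩)
    (by
      rintro n hn hQ (h | h) g hg htg
      · exact Or.inl (hP n hn hQ h g hg htg)
      · exact Or.inr (hN n hn hQ h g hg htg))
  obtain ⟨K2, hK2⟩ := dens hDIR hf h3 κ c L χ tt N₀ hχ hconj hpow hfrob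
    (fun g => XP χ κ c C Φ t tt g ∧ XM χ κ c C Φ t tt g)
    (inv_and χ κ c C Φ t tt hf h3) (SP b p q p' q' t κ c C Φ ∩ SM b p q p' q' t κ c C Φ)
    (by
      rintro n hn hQ ⟨⟨hQ', h1, h2, -⟩, -⟩
      exact ⟨h1, Or.inl h2⟩)
    (by
      rintro n hn hQ ⟨h, h'⟩ g hg htg
      exact ⟨hP n hn hQ h g hg htg, hN n hn hQ h' g hg htg⟩)
  obtain ⟨hX1, hX2⟩ := card_X χ κ c C Φ t tt hEQD hf hχ heq hκ
  have hincl := card_incl (fun g => XP χ κ c C Φ t tt g) (fun g => XM χ κ c C Φ t tt g)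
  refine ⟨K1 + K2, fun σ h1 h2 => ?_⟩
  have e1 := hK1 σ h1 h2
  have e2 := hK2 σ h1 h2
  have hlog : 0 ≤ Real.log (1 / (σ - 1)) := by
    apply Real.log_nonneg
    rw [le_div_iff₀ (by linarith)]
    linarith
  rw [sm_union_inter _ _ h1]
  have hG : 0 < Nat.card (L ≃ₐ[ℚ] L) := Nat.card_pos
  have hA : 0 < Nat.card (Fin s → Fin s → ZMod 3) := Nat.card_pos
  have hcnt : (Nat.card {g : L ≃ₐ[ℚ] L // XP χ κ c C Φ t tt g ∨ XM χ κ c C Φ t tt g} : ℝ) /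
      Nat.card (L ≃ₐ[ℚ] L) +
      (Nat.card {g : L ≃ₐ[ℚ] L // XP χ κ c C Φ t tt g ∧ XM χ κ c C Φ t tt g} : ℝ) /
      Nat.card (L ≃ₐ[ℚ] L) ≤
      (NK s t : ℝ) / Nat.card (Fin s → Fin s → ZMod 3) / 3 ^ (m + 1) := by
    generalize Nat.card {g : L ≃ₐ[ℚ] L // XP χ κ c C Φ t tt g ∨ XM χ κ c C Φ t tt g} = n1 at *
    generalize Nat.card {g : L ≃ₐ[ℚ] L // XP χ κ c C Φ t tt g ∧ XM χ κ c C Φ t tt g} = n2 at *
    generalize Nat.card {g : L ≃ₐ[ℚ] L // XP χ κ c C Φ t tt g} = x1 at *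
    generalize Nat.card {g : L ≃ₐ[ℚ] L // XM χ κ c C Φ t tt g} = x2 at *
    generalize Nat.card (Fin s → Fin s → ZMod 3) = A at *
    generalize Nat.card (L ≃ₐ[ℚ] L) = g0 at *
    have hG' : (0 : ℝ) < g0 := Nat.cast_pos.2 hG
    have hA' : (0 : ℝ) < A := Nat.cast_pos.2 hA
    have hF : (0 : ℝ) < 3 ^ (m + 1) := by positivity
    have i1 : (A : ℝ) * x1 * (2 * 3 ^ (m + 1)) ≤ NK s t * g0 := by exact_mod_cast hX1
    have i2 : (A : ℝ) * x2 * (2 * 3 ^ (m + 1)) ≤ NK s t * g0 := by exact_mod_cast hX2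
    have i3 : (n1 : ℝ) + n2 = x1 + x2 := by exact_mod_cast hincl
    rw [← add_div, i3, div_div, div_le_div_iff₀ hG' (by positivity)]
    nlinarith
  have hmul := mul_le_mul_of_nonneg_right hcnt hlog
  rw [add_mul] at hmul
  linarith

end Pool.Agent.PTL
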