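import Pool.Agent.PT.EADM

/-!
# Prime power twists: `AdmC` and `Adm` for `n q^E`
-/

set_option autoImplicit false

namespace Pool.Agent.PTL

open Pool.Agent.PT Pool.Agent.Lib_helper18 Pool.Agent.Lib_helper18.Eis Pool.Agent.Lib_helper84.Cub

/-- EAE: `AdmC` and `Adm` for `n q^E`, `E = 1, 2`. -/
def EAE : Prop := ∀ (n k : ℕ) (π : Fin 0 → PP) (p e : Fin 0 → ℕ) (r f : Fin k → ℕ)
  (w0 : ZMod 3) (c : Fin 0 → ZMod 3) (E q : ℕ), NF n π p e r f → q.Prime → q % 3 = 2 →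
  (E = 1 ∨ E = 2) → wt (((q : ℤ) ^ E) ^ 2) = w0 →
  ¬ q ∣ n → BOk ((n : ℤ) * q ^ E) ∧ ∀ x : ℤ, (∀ l : ℕ, l.Prime → (l : ℤ) ∣ x → l ∣ n) →
    (AdmC n π w0 c x ↔ Adm ((n : ℤ) * q ^ E) x)

open EADM in
/-- EAE: `AdmC` and `Adm` for `n q^E`. -/
theorem EAE_thm (hSPP : SPP) (hSCJ : SCJ) : EAE := by
  intro n k π p e r f w0 c E q hN hq hq3 hE hqw hqn
  obtain ⟨_, _, _, _, _, hSPP6⟩ := hSPP
  obtain ⟨_, _, _, hSCJ4⟩ := hSCJ
  have hn0 : n ≠ 0 := n_ne hN
  have hn3 : ¬ 3 ∣ n := three_not hN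
  have hbelow : ∀ π : PP, ∃ l, Below π l := by
    intro π
    obtain ⟨l, hl, h⟩ := hSPP6 π
    exact ⟨l, hl, h⟩
  have hqE : q ^ E ≠ 0 := pow_ne_zero _ hq.ne_zero
  have hcast : (((n : ℤ) * (q : ℤ) ^ E : ℤ) : Eis) = ((n * q ^ E : ℕ) : Eis) := by push_cast; ring
  have hnq0 : n * q ^ E ≠ 0 := mul_ne_zero hn0 hqE
  have hB0 : (n : ℤ) * (q : ℤ) ^ E ≠ 0 := by exact_mod_cast hnq0
  have hB3 : ¬ (3 : ℤ) ∣ (n : ℤ) * (q : ℤ) ^ E := by
    intro h
    have h1 : 3 ∣ n * q ^ E := by exact_mod_cast h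
    rcases Nat.prime_three.dvd_mul.1 h1 with h2 | h2
    · exact hn3 h2
    · have := (Nat.prime_dvd_prime_iff_eq Nat.prime_three hq).1 (Nat.prime_three.dvd_of_dvd_pow h2)
      omega
  refine ⟨⟨hB0, hB3, ?_⟩, ?_⟩
  · intro ϖ
    obtain ⟨l, hl⟩ := hbelow ϖ
    rw [hcast, hl.V_nat hnq0, Nat.factorization_mul hn0 hqE, Finsupp.add_apply]
    have h1 := fac_le hN l
    by_cases hlq : l = q
    · have h2 : n.factorization l = 0 := by
        rw [hlq]
        exact Nat.factorization_eq_zero_of_not_dvd hqn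
      have h3 : (q ^ E).factorization l = E := by
        rw [hlq, hq.factorization_pow, Finsupp.single_eq_same]
      omega
    · have h3 : (q ^ E).factorization l = 0 := by
        apply Nat.factorization_eq_zero_of_not_dvd
        intro h
        exact hlq ((Nat.prime_dvd_prime_iff_eq hl.pr hq).1 (hl.pr.dvd_of_dvd_pow h))
      omega
  · intro x hsupp
    have hnine : ¬ (3 : ℤ) ∣ (n : ℤ) := by
      intro h
      exact hn3 (by exact_mod_cast h)
    have hqq : ¬ (3 : ℤ) ∣ (q : ℤ) ^ E := by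
      intro h
      have h1 : 3 ∣ q ^ E := by exact_mod_cast h
      have h2 := Nat.prime_three.dvd_of_dvd_pow h1
      omega
    have hC : C9 ((n : ℤ) * (q : ℤ) ^ E) ↔ wt ((n : ℤ) ^ 2) + w0 = 0 := by
      rw [C9_iff hB3, mul_pow, wt_mul (sq_mod_three hnine) (sq_mod_three hqq), hqw]
    constructor
    · rintro ⟨hx, h3, _, hsym, h9⟩
      refine ⟨hx, h3, ?_, ?_, fun h => h9 (hC.1 h)⟩
      · intro ϖ
        obtain ⟨l, hl⟩ := hbelow ϖ
        rcases hl.h with ⟨hl3, hl2⟩ | ⟨hl3, hl2, hl4, hl5⟩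
        · rw [hl2]
          exact hSCJ4 l hl.pr hl3 x _ hx hB0
        · have hln : ¬ l ∣ n := by
            intro hln
            rcases prime_dvd hN hl.pr hln with ⟨i, hi⟩ | ⟨j, hj⟩
            · exact i.elim0
            · have := hN.r2 j
              rw [← hj] at this
              omega
          have h4 : ¬ ϖ.1 ∣ (x : Eis) := by
            intro h
            exact hln (hsupp l hl.pr ((hl.dvd_int x).1 h))
          have h5 : ¬ ϖ.1 ∣ (((n : ℤ) * (q : ℤ) ^ E : ℤ) : Eis) := by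
            rw [hcast, hl.dvd_nat]
            intro h
            rcases hl.pr.dvd_mul.1 h with h6 | h6
            · exact hln h6
            · have := (Nat.prime_dvd_prime_iff_eq hl.pr hq).1 (hl.pr.dvd_of_dvd_pow h6)
              omega
          unfold tm
          rw [V_eq_zero h4, V_eq_zero h5]
          simp
      · intro ϖ hϖ h
        obtain ⟨l, hl⟩ := hbelow ϖ
        apply hϖ
        rw [hcast, hl.dvd_nat]
        exact (hsupp l hl.pr ((hl.dvd_int x).1 h)).mul_right _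
    · rintro ⟨hx, h3, hsym, _, h9⟩
      exact ⟨hx, h3, hsupp, fun i => i.elim0, fun h => h9 (hC.2 h)⟩

end Pool.Agent.PTL
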