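import Pool.Agent.PT.BKER
import Pool.Agent.PTL.EA

/-!
# Prime power twists: the rank is bounded by the dimension of the kernel of the matrix
-/

set_option autoImplicit false

namespace Pool.Agent.PTL

open Pool.Agent.PT Pool.Agent.Lib_helper18 Pool.Agent.Lib_helper18.Eis Pool.Agent.Lib_helper84.Cub

/-- BKE: the rank is bounded by the dimension of the kernel of the matrix. -/
def BKE : Prop := ∀ (n k : ℕ) (π : Fin 0 → PP) (p e : Fin 0 → ℕ) (r f : Fin k → ℕ)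
  (w0 : ZMod 3) (c : Fin 0 → ZMod 3) (s : ℕ) (b : Fin s → ℤ) (P Q P' Q' : Fin s → Fin s → ℤ)
  (E q : ℕ), NF n π p e r f → 1 ≤ k → (∀ i, AdmC n π w0 c (b i)) → Sys b P Q P' Q' →
  (∀ x : ℤ, AdmC n π w0 c x → ∃ (g : Fin s → ℕ) (u v : ℤ), u ≠ 0 ∧ v ≠ 0 ∧
      x * u ^ 3 = (∏ i, b i ^ g i) * v ^ 3) →
  q.Prime → q % 3 = 2 → (E = 1 ∨ E = 2) → wt (((q : ℤ) ^ E) ^ 2) = w0 → ¬ q ∣ n →
  ((∃ j, r j % 9 ≠ 8) ∨ q % 9 ≠ 8) →
  CubeRank.GenBy ((n : ℤ) * q ^ E) (s - (Mat b P Q P' Q' ((n : ℤ) * q ^ E)).rank)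

namespace BK

open BKER Pool.Agent.CubeRank

theorem AA_pc {k : ℕ} (E q : ℕ) (r f : Fin k → ℕ) :
    AA (pc q r) (pc E f) = (q : ℤ) ^ E * ∏ i, (r i : ℤ) ^ f i := by
  unfold AA
  rw [Fin.prod_univ_succ]
  simp [pc]

theorem Z_eq {k : ℕ} (E q : ℕ) (r f : Fin k → ℕ) (v : Fin (k + 1) → ZMod 3) (h0 : v 0 = 2) :
    (Z r f v : ℤ) = cell (pc q r) (pc E f) (fun i => zf (v i)) 0 ^ 2 *
      cell (pc q r) (pc E f) (fun i => zf (v i)) 1 := by
  unfold cell Z
  rw [Fin.prod_univ_succ, Fin.prod_univ_succ]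
  have h1 : zf (v 0) ≠ 0 := by rw [h0]; decide
  have h2 : zf (v 0) ≠ 1 := by rw [h0]; decide
  rw [if_neg h1, if_neg h2, one_mul, one_mul, ← Finset.prod_pow, ← Finset.prod_mul_distrib]
  push_cast
  refine Finset.prod_congr rfl (fun j _ => ?_)
  simp only [pc, Fin.cons_succ]
  rcases cases3 (v j.succ) with h | h | h
  · rw [h, if_pos (by decide), if_neg (by decide), mul_one, ← pow_mul]
    rfl
  · rw [h, if_neg (by decide), if_pos (by decide), one_pow, one_mul]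
    have : (2 - (1 : ZMod 3).val) = 1 := by decide
    rw [this, mul_one]
  · rw [h, if_neg (by decide), if_neg (by decide), one_pow, one_mul]
    have : (2 - (2 : ZMod 3).val) = 0 := by decide
    rw [this, mul_zero, pow_zero]

theorem AA_eq {n k : ℕ} {π : Fin 0 → PP} {p e : Fin 0 → ℕ} {r f : Fin k → ℕ}
    (hNF : NF n π p e r f) (E q : ℕ) :
    AA (pc q r) (pc E f) = (n : ℤ) * q ^ E := by
  rw [AA_pc, NF_eq hNF]
  push_cast
  ring

theorem main (hEAE : EAE) (hFDX : FDX) (hTEND : TEND) {n k : ℕ} {π : Fin 0 → PP}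
    {p e : Fin 0 → ℕ} {r f : Fin k → ℕ} {w0 : ZMod 3} {c : Fin 0 → ZMod 3} {s : ℕ}
    {b : Fin s → ℤ} {P Q P' Q' : Fin s → Fin s → ℤ} {E q : ℕ} (hNF : NF n π p e r f)
    (hAdm : ∀ i, AdmC n π w0 c (b i)) (hSys : Sys b P Q P' Q')
    (hgen : ∀ x : ℤ, AdmC n π w0 c x → ∃ (g : Fin s → ℕ) (u v : ℤ), u ≠ 0 ∧ v ≠ 0 ∧
      x * u ^ 3 = (∏ i, b i ^ g i) * v ^ 3)
    (hq : q.Prime) (hq2 : q % 3 = 2) (hEE : E = 1 ∨ E = 2) (hw : wt (((q : ℤ) ^ E) ^ 2) = w0)
    (hqn : ¬ q ∣ n)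
    (hG : HypG (pc q r) (pc E f)) {v : Fin (k + 1) → ZMod 3} (hv : UG (pc q r) (pc E f) v)
    (h0 : v 0 = 2) :
    ∃ (g : Fin s → ℕ) (u y : ℤ), u ≠ 0 ∧ y ≠ 0 ∧ (Z r f v : ℤ) * u ^ 3 =
      (∏ i, b i ^ g i) * y ^ 3 ∧
      ∀ j, ∑ i, Mat b P Q P' Q' ((n : ℤ) * q ^ E) j i * (g i : ZMod 3) = 0 := by
  obtain ⟨hB, hE⟩ := hEAE n k π p e r f w0 c E q hNF hq hq2 hEE hw hqn
  have hA : ∀ i, Adm ((n : ℤ) * q ^ E) (b i) := fun i => (hE _ (hAdm i).supp).1 (hAdm i)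
  by_cases hc : ∃ c, ∀ i, v i = c
  · obtain ⟨d, hd⟩ := hc
    have hd2 : d = 2 := by rw [← hd 0, h0]
    refine ⟨0, 1, 1, one_ne_zero, one_ne_zero, ?_, fun j => by simp⟩
    have hZ : Z r f v = 1 := by
      unfold Z
      refine Finset.prod_eq_one (fun j _ => ?_)
      rw [hd, hd2]
      have : (2 - (2 : ZMod 3).val) = 0 := by decide
      rw [this, mul_zero, pow_zero]
    rw [hZ]
    simp
  · obtain ⟨x, hx⟩ := CubeRank.UG_rep hG hv hc
    obtain ⟨hPt, hAz⟩ := hFDX ((n : ℤ) * q ^ E) (cell (pc q r) (pc E f) (fun i => zf (v i))) x hB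
      hx.ne hx.sum (by
        rw [Fin.prod_univ_three, cell_prod]
        exact AA_eq hNF E q) hx.cop
    rw [← Z_eq E q r f v h0] at hPt hAz
    have hsupp : ∀ l : ℕ, l.Prime → (l : ℤ) ∣ (Z r f v : ℤ) → l ∣ n := by
      intro l hl hlZ
      rw [Int.natCast_dvd_natCast, Z, hl.prime.dvd_finset_prod_iff] at hlZ
      obtain ⟨j, -, hj⟩ := hlZ
      exact (hl.dvd_of_dvd_pow hj).trans (r_dvd hNF j)
    obtain ⟨g, u, y, hu, hy, hg⟩ := hgen _ ((hE _ hsupp).2 hAz)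
    refine ⟨g, u, y, hu, hy, hg, ?_⟩
    by_cases hex : ∃ i, ¬ 3 ∣ g i
    · generalize (Z r f v : ℤ) = z at *
      set W : ℤ := ∏ i, b i ^ g i with hW
      obtain ⟨c0, hc0, h1⟩ := hPt.eq
      have hPt' : Pt ((n : ℤ) * q ^ E) (∏ i, b i ^ g i)
          (u * y * (cell (pc q r) (pc E f) (fun i => zf (v i)) 0 * x 0)) (y ^ 2 * x 1) := by
        refine ⟨mul_ne_zero (mul_ne_zero hu hy) hPt.hX, mul_ne_zero (pow_ne_zero 2 hy) hPt.hY,
          c0 * u ^ 2, mul_ne_zero hc0 (pow_ne_zero 2 hu), ?_⟩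
        rw [← hW]
        generalize cell (pc q r) (pc E f) (fun i => zf (v i)) 0 * x 0 = X1 at *
        generalize x 1 = Y1 at *
        have e1 : W * ((u * y * X1) ^ 3 + W * (y ^ 2 * Y1) ^ 3) =
            (W * y ^ 3) * (u ^ 3 * X1 ^ 3 + (W * y ^ 3) * Y1 ^ 3) := by ring
        rw [e1, ← hg]
        have e2 : z * u ^ 3 * (u ^ 3 * X1 ^ 3 + z * u ^ 3 * Y1 ^ 3) =
            u ^ 6 * (z * (X1 ^ 3 + z * Y1 ^ 3)) := by ring
        rw [e2, h1]
        ring
      exact (hTEND s b P Q P' Q' ((n : ℤ) * q ^ E) hSys hB hA).2 g _ _ hex hPt'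
    · push Not at hex
      intro j
      refine Finset.sum_eq_zero (fun i _ => ?_)
      rw [(ZMod.natCast_eq_zero_iff (g i) 3).2 (hex i), mul_zero]

end BK

open BKER BK in
/-- BKE: the rank is bounded by the dimension of the kernel of the matrix. -/
theorem BKE_thm (hEAE : EAE) (hFDX : FDX) (hTEND : TEND) : BKE := by
  classical
  intro n k π p e r f w0 c s b P Q P' Q' E q hNF hk hAdm hSys hgen hq hq2 hEE hw hqn hex
  have hG : CubeRank.HypG (pc q r) (pc E f) := by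
    refine CubeRank.hypG_of (fun i => ?_) (fun i => ?_) ?_ (fun i => ?_) ?_
    · refine Fin.cases ?_ (fun i => ?_) i
      · simpa [pc] using hq
      · simpa [pc] using hNF.rp i
    · refine Fin.cases ?_ (fun i => ?_) i
      · simpa [pc] using hq2
      · simpa [pc] using hNF.r2 i
    · unfold pc
      rw [Fin.cons_injective_iff]
      refine ⟨?_, hNF.rinj⟩
      rintro ⟨i, hi⟩
      exact hqn (by rw [← hi]; exact r_dvd hNF i)
    · refine Fin.cases ?_ (fun i => ?_) i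
      · simpa [pc] using hEE
      · simpa [pc] using hNF.rf i
    · rcases hex with ⟨j, hj⟩ | h
      · exact ⟨j.succ, by simpa [pc] using hj⟩
      · exact ⟨0, by simpa [pc] using h⟩
  set M := Mat b P Q P' Q' ((n : ℤ) * q ^ E) with hMdef
  have H : ∀ v : {v // CubeRank.UG (pc q r) (pc E f) v},
      ∃ (g : Fin s → ℕ) (u y : ℤ), u ≠ 0 ∧ y ≠ 0 ∧
        (Z r f (v.1 + fun _ => 2 - v.1 0) : ℤ) * u ^ 3 = (∏ i, b i ^ g i) * y ^ 3 ∧
        ∀ j, ∑ i, M j i * (g i : ZMod 3) = 0 := by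
    intro v
    exact BK.main hEAE hFDX hTEND hNF hAdm hSys hgen hq hq2 hEE hw hqn hG
      (CubeRank.UG_add hG v.2 (CubeRank.UG_const _ _ _)) (by
        simp only [Pi.add_apply]; ring)
  choose g u y hu hy hZ hM using H
  let F : {v // CubeRank.UG (pc q r) (pc E f) v} → ZMod 3 × LinearMap.ker M.mulVecLin :=
    fun v => (v.1 0, ⟨fun i => (g v i : ZMod 3), by
      rw [LinearMap.mem_ker]
      funext j
      exact hM v j⟩)
  have hF : Function.Injective F := by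
    intro v v' hvv
    have h0 : v.1 0 = v'.1 0 := congrArg Prod.fst hvv
    have h1 : ∀ i, (g v i : ZMod 3) = g v' i := by
      intro i
      have h2 := congrArg (fun x => (x.2 : Fin s → ZMod 3) i) hvv
      exact h2
    obtain ⟨A, B, hA, hB, hAB⟩ := prod_cube b (fun i => (hAdm i).ne) (g v) (g v') h1
    have h3 := Z_inj (v := v.1 + fun _ => 2 - v.1 0) (v' := v'.1 + fun _ => 2 - v'.1 0)
      hNF.rp hNF.rinj hNF.rf (by simp only [Pi.add_apply]; ring)
      (A := u v * A * y v') (B := u v' * B * y v)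
      (mul_ne_zero (mul_ne_zero (hu v) hA) (hy v')) (mul_ne_zero (mul_ne_zero (hu v') hB) (hy v))
      (by
        have e1 := hZ v
        have e2 := hZ v'
        generalize (Z r f (v.1 + fun _ => 2 - v.1 0) : ℤ) = z1 at *
        generalize (Z r f (v'.1 + fun _ => 2 - v'.1 0) : ℤ) = z2 at *
        linear_combination (A ^ 3 * y v' ^ 3) * e1 - (B ^ 3 * y v ^ 3) * e2 +
          (y v ^ 3 * y v' ^ 3) * hAB)
    apply Subtype.ext
    rw [h0] at h3
    exact add_right_cancel h3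
  have hcard := Nat.card_le_card_of_injective F hF
  have hker : Module.finrank (ZMod 3) (LinearMap.ker M.mulVecLin) = s - M.rank := by
    have h1 := LinearMap.finrank_range_add_finrank_ker M.mulVecLin
    rw [Module.finrank_fintype_fun_eq_card, Fintype.card_fin] at h1
    have h2 : Module.finrank (ZMod 3) (LinearMap.range M.mulVecLin) = M.rank := rfl
    omega
  rw [Nat.card_prod, Nat.card_zmod,
    Module.natCard_eq_pow_finrank (K := ZMod 3) (V := LinearMap.ker M.mulVecLin), Nat.card_zmod,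
    hker] at hcard
  have hfin := CubeRank.gen_of_cardG (by omega) hG (s - M.rank) (by
    rw [pow_succ, mul_comm]
    exact hcard)
  rw [BK.AA_eq hNF E q] at hfin
  exact hfin

end Pool.Agent.PTL
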