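import Pool.Agent.PT.BSYS

/-!
# Prime power twists: systems for products of primes `= 2 (mod 3)`, with their size
-/

set_option autoImplicit false

namespace Pool.Agent.PTL

open Pool.Agent.PT Pool.Agent.Lib_helper18 Pool.Agent.Lib_helper18.Eis Pool.Agent.Lib_helper84.Cub

open Classical in
/-- BSE: systems for products of primes `= 2 (mod 3)`, all classes modulo `9`. -/
def BSE : Prop := ∀ (n k : ℕ) (π : Fin 0 → PP) (p e : Fin 0 → ℕ) (r f : Fin k → ℕ)
  (w0 : ZMod 3) (c : Fin 0 → ZMod 3), NF n π p e r f →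
  ∃ (s : ℕ) (b : Fin s → ℤ) (P Q P' Q' : Fin s → Fin s → ℤ),
    (s = if wt ((n : ℤ) ^ 2) + w0 = 0 ∧ ∃ j, wt ((r j : ℤ) ^ 2) ≠ 0 then k - 1 else k) ∧
    (∀ i, AdmC n π w0 c (b i)) ∧ Sys b P Q P' Q' ∧
    (∀ x : ℤ, AdmC n π w0 c x → ∃ (g : Fin s → ℕ) (u v : ℤ), u ≠ 0 ∧ v ≠ 0 ∧
      x * u ^ 3 = (∏ i, b i ^ g i) * v ^ 3)

namespace BS

instance : Fact (Nat.Prime 3) := ⟨Nat.prime_three⟩

theorem size {k s : ℕ} (W : Submodule (ZMod 3) (Fin k → ZMod 3)) (v : Fin s → Fin k → ZMod 3)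
    (h1 : ∀ i, v i ∈ W) (h2 : ∀ g : Fin s → ZMod 3, ∑ i, g i • v i = 0 → g = 0)
    (h3 : ∀ x ∈ W, ∃ g : Fin s → ZMod 3, x = ∑ i, g i • v i) :
    s = Module.finrank (ZMod 3) W := by
  have hli : LinearIndependent (ZMod 3) v := by
    rw [Fintype.linearIndependent_iff]
    intro g hg i
    rw [h2 g hg]
    rfl
  have hspan : Submodule.span (ZMod 3) (Set.range v) = W := by
    apply le_antisymm
    · rw [Submodule.span_le]
      rintro _ ⟨i, rfl⟩
      exact h1 i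
    · intro x hx
      obtain ⟨g, rfl⟩ := h3 x hx
      exact Submodule.sum_mem _ fun i _ => Submodule.smul_mem _ _
        (Submodule.subset_span ⟨i, rfl⟩)
  have h4 := finrank_span_eq_card hli
  rw [hspan, Fintype.card_fin] at h4
  exact h4.symm

theorem fin_ker {k : ℕ} (φ : (Fin k → ZMod 3) →ₗ[ZMod 3] ZMod 3) (h : φ ≠ 0) :
    Module.finrank (ZMod 3) (LinearMap.ker φ) = k - 1 := by
  have h1 := LinearMap.finrank_range_add_finrank_ker φ
  rw [LinearMap.range_eq_top.2 (LinearMap.surjective h), finrank_top,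
    Module.finrank_self, Module.finrank_fintype_fun_eq_card, Fintype.card_fin] at h1
  omega

end BS

open BSYS in
/-- BSE -/
theorem BSE_thm (hEVEC : EVEC) (hESYS : ESYS) (hSPP : SPP) : BSE := by
  classical
  intro n k π p e r f w0 c hNF
  obtain ⟨hE1, hE2⟩ := hEVEC n 0 k π p e r f w0 c hNF
  have hr := hNF.rp
  have hinj := hNF.rinj
  have hn : n = ∏ j, r j ^ f j := by
    rw [hNF.eq, Finset.univ_eq_empty (α := Fin 0), Finset.prod_empty, one_mul]
  have hrn : ∀ j, r j ∣ n := by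
    intro j
    rw [hn]
    refine (dvd_pow_self (r j) ?_).trans (Finset.dvd_prod_of_mem _ (Finset.mem_univ j))
    rcases hNF.rf j with h | h <;> omega
  -- the functional
  let φ : (Fin k → ZMod 3) →ₗ[ZMod 3] ZMod 3 :=
    ∑ j, wt ((r j : ℤ) ^ 2) • LinearMap.proj j
  have hφ : ∀ z, φ z = ∑ j, z j * wt ((r j : ℤ) ^ 2) := by
    intro z
    change (∑ j, wt ((r j : ℤ) ^ 2) • LinearMap.proj j : (Fin k → ZMod 3) →ₗ[ZMod 3] ZMod 3) z = _
    rw [LinearMap.sum_apply]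
    refine Finset.sum_congr rfl fun j _ => ?_
    rw [LinearMap.smul_apply, LinearMap.proj_apply, smul_eq_mul, mul_comm]
  let W : Submodule (ZMod 3) (Fin k → ZMod 3) :=
    if wt ((n : ℤ) ^ 2) + w0 = 0 then LinearMap.ker φ else ⊤
  have hW : ∀ z, z ∈ W ↔ (wt ((n : ℤ) ^ 2) + w0 = 0 → φ z = 0) := by
    intro z
    change z ∈ (if wt ((n : ℤ) ^ 2) + w0 = 0 then LinearMap.ker φ else ⊤) ↔ _
    split_ifs with h
    · rw [LinearMap.mem_ker]
      exact ⟨fun h1 _ => h1, fun h1 => h1 h⟩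
    · exact ⟨fun _ h1 => absurd h1 h, fun _ => Submodule.mem_top⟩
  obtain ⟨s, v, hv1, hv2, hv3, hv4⟩ := basis_exists W φ
  have hsz := BS.size W v hv1 hv2 hv3
  have hφ0 : φ ≠ 0 ↔ ∃ j, wt ((r j : ℤ) ^ 2) ≠ 0 := by
    constructor
    · intro h
      by_contra h1
      push Not at h1
      apply h
      refine LinearMap.ext fun z => ?_
      rw [hφ, LinearMap.zero_apply]
      exact Finset.sum_eq_zero fun j _ => by rw [h1 j, mul_zero]
    · rintro ⟨j, hj⟩ h
      apply hj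
      have h1 := congrArg (fun ψ : (Fin k → ZMod 3) →ₗ[ZMod 3] ZMod 3 => ψ (Pi.single j 1)) h
      simp only [LinearMap.zero_apply] at h1
      rw [hφ, Finset.sum_eq_single j (fun i _ hij => by rw [Pi.single_eq_of_ne hij, zero_mul])
        (fun h => absurd (Finset.mem_univ j) h), Pi.single_eq_same, one_mul] at h1
      exact h1
  have hsz' : s = if wt ((n : ℤ) ^ 2) + w0 = 0 ∧ ∃ j, wt ((r j : ℤ) ^ 2) ≠ 0 then k - 1
      else k := by
    rw [hsz]
    change Module.finrank (ZMod 3) (if wt ((n : ℤ) ^ 2) + w0 = 0 then LinearMap.ker φ else ⊤ :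
      Submodule (ZMod 3) (Fin k → ZMod 3)) = _
    by_cases ha : wt ((n : ℤ) ^ 2) + w0 = 0
    · rw [if_pos ha]
      by_cases hb : ∃ j, wt ((r j : ℤ) ^ 2) ≠ 0
      · rw [if_pos ⟨ha, hb⟩]
        exact BS.fin_ker φ (hφ0.2 hb)
      · rw [if_neg fun h => hb h.2]
        have h0 : φ = 0 := by
          by_contra h
          exact hb (hφ0.1 h)
        rw [h0, LinearMap.ker_zero, finrank_top, Module.finrank_fintype_fun_eq_card,
          Fintype.card_fin]
    · rw [if_neg ha, if_neg fun h => ha h.1, finrank_top, Module.finrank_fintype_fun_eq_card,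
        Fintype.card_fin]
  -- elementary facts on the products
  have hR0 : ∀ A, (R r A : ℤ) ≠ 0 := fun A => by exact_mod_cast R_ne hr A
  have hRs : ∀ A, ∀ l : ℕ, l.Prime → (l : ℤ) ∣ (R r A : ℤ) → l ∣ n := by
    intro A l hl h
    obtain ⟨j, rfl⟩ := R_supp hr hl (Int.natCast_dvd_natCast.mp h)
    exact hrn j
  have hR3 : ∀ A, ¬ (3 : ℤ) ∣ (R r A : ℤ) := by
    intro A h
    have h1 : ((3 : ℕ) : ℤ) ∣ (R r A : ℤ) := by exact_mod_cast h
    obtain ⟨j, hj⟩ := R_supp hr Nat.prime_three (Int.natCast_dvd_natCast.mp h1)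
    have h2 := hNF.r2 j
    omega
  have hRv : ∀ A j, (padicValInt (r j) (R r A : ℤ) : ZMod 3) = A j := fun A j => by
    rw [R_val hr hinj]
  have hRφ : ∀ A : Fin k → ℕ, (∑ i : Fin 0, (padicValInt (p i) (R r A : ℤ) : ZMod 3) *
      wt ((p i : ℤ) ^ 2)) + ∑ j, (padicValInt (r j) (R r A : ℤ) : ZMod 3) *
      wt ((r j : ℤ) ^ 2) = φ fun j => (A j : ZMod 3) := by
    intro A
    rw [Finset.univ_eq_empty (α := Fin 0), Finset.sum_empty, zero_add, hφ]
    exact Finset.sum_congr rfl fun j _ => by rw [hRv]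
  have hRC : ∀ A : Fin k → ℕ, AdmC n π w0 c (R r A : ℤ) ↔ (fun j => (A j : ZMod 3)) ∈ W := by
    intro A
    rw [(hE1 _ (hR0 A) (hR3 A) (hRs A)).1, hRφ, hW]
    exact ⟨fun h => h.2, fun h => ⟨fun i => i.elim0, h⟩⟩
  have hR9 : ∀ A : Fin k → ℕ, C9 (R r A : ℤ) ↔ φ (fun j => (A j : ZMod 3)) = 0 := by
    intro A
    rw [(hE1 _ (hR0 A) (hR3 A) (hRs A)).2, hRφ]
  -- the basis
  let a : Fin s → Fin k → ℕ := fun i j => (v i j).val
  have ha : ∀ i, (fun j => (a i j : ZMod 3)) = v i := by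
    intro i
    funext j
    exact ZMod.natCast_zmod_val (v i j)
  let b : Fin s → ℤ := fun i => (R r (a i) : ℤ)
  have hprod : ∀ g : Fin s → ℕ, ∏ i, b i ^ g i = (R r (fun j => ∑ i, g i * a i j) : ℤ) := by
    intro g
    change ∏ i, ((R r (a i) : ℕ) : ℤ) ^ g i = _
    unfold R
    push_cast
    simp only [← Finset.prod_pow]
    rw [Finset.prod_comm]
    refine Finset.prod_congr rfl fun j _ => ?_
    rw [← Finset.prod_pow_eq_pow_sum]
    refine Finset.prod_congr rfl fun i _ => ?_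
    rw [← pow_mul, mul_comm]
  have hAdm : ∀ i, AdmC n π w0 c (b i) := by
    intro i
    rw [hRC, ha]
    exact hv1 i
  have hind : ∀ g : Fin s → ℕ, (∃ i, ¬ 3 ∣ g i) → ¬ ∃ t : ℤ, t ^ 3 = ∏ i, b i ^ g i := by
    rintro g ⟨i, hi⟩ ⟨t, ht⟩
    rw [hprod] at ht
    have ht0 : t ≠ 0 := by
      rintro rfl
      exact hR0 _ (by rw [← ht]; norm_num)
    have h1 := (hE2 (R r fun j => ∑ i, g i * a i j) 1 (hR0 _) one_ne_zero (hRs _) (by
      intro l hl h
      exact absurd (Int.natCast_dvd_natCast.mp (by exact_mod_cast h) : l ∣ 1)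
        hl.not_dvd_one)).mp ⟨1, t, one_ne_zero, ht0, by rw [← ht]; ring⟩
    have h2 : (fun i => (g i : ZMod 3)) = 0 := by
      apply hv2
      funext j
      have h3 := h1.2 j
      rw [hRv, padicValInt.one] at h3
      push_cast at h3
      rw [Finset.sum_apply, Pi.zero_apply, ← h3]
      refine Finset.sum_congr rfl fun i _ => ?_
      rw [Pi.smul_apply, smul_eq_mul, ← congrFun (ha i) j]
    have h3 := congrFun h2 i
    exact hi ((ZMod.natCast_eq_zero_iff (g i) 3).mp h3)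
  have h9 : ∀ i j, i ≠ j → C9 (b i) ∨ C9 (b j) := by
    intro i j hij
    rw [hR9, hR9, ha, ha]
    exact hv4 i j hij
  have hV : ∀ i (π : PP), V π.1 (b i : Eis) ≤ 2 := by
    intro i π
    refine R_V hSPP hr hNF.r2 hinj (fun j => ?_) π
    have := ZMod.val_lt (v i j)
    change (v i j).val ≤ 2
    omega
  obtain ⟨P, Q, P', Q', hSys⟩ := hESYS n 0 k π p e r f w0 c s b hNF hAdm hV hind h9
  refine ⟨s, b, P, Q, P', Q', hsz', hAdm, hSys, ?_⟩
  intro x hx
  have h1 := (hE1 x hx.ne hx.three hx.supp).1.mp hx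
  have h2 : (fun j => (padicValInt (r j) x : ZMod 3)) ∈ W := by
    rw [hW, hφ]
    intro h
    have h3 := h1.2 h
    rwa [Finset.univ_eq_empty (α := Fin 0), Finset.sum_empty, zero_add] at h3
  obtain ⟨g, hg⟩ := hv3 _ h2
  obtain ⟨u, w, hu, hw, huw⟩ := (hE2 x (R r fun j => ∑ i, (g i).val * a i j) hx.ne (hR0 _)
    hx.supp (hRs _)).mpr ⟨fun i => i.elim0, fun j => by
      rw [hRv]
      have h3 := congrFun hg j
      change (padicValInt (r j) x : ZMod 3) = _ at h3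
      rw [h3, Finset.sum_apply]
      push_cast
      refine Finset.sum_congr rfl fun i _ => ?_
      rw [Pi.smul_apply, smul_eq_mul, ← congrFun (ha i) j, ZMod.natCast_zmod_val (g i)]⟩
  refine ⟨fun i => (g i).val, u, w, hu, hw, ?_⟩
  rw [hprod]
  exact huw

end Pool.Agent.PTL
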