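import Pool.Agent.PTL.DC
import Pool.Agent.PTL.BK
import Pool.Agent.PTL.BS
import Pool.Agent.PTL.BD
import Pool.Agent.PT.BFINA

/-!
# Prime power twists: the distribution of the rank in a class
-/

set_option autoImplicit false

open NumberField IsDedekindDomain Finset
open scoped nonZeroDivisors Pointwise

namespace Pool.Agent.PTL

open Pool.Agent.PT Pool.Agent.Lib_helper18 Pool.Agent.Lib_helper18.Eis Pool.Agent.Lib_helper84.Cub

/-- the primes `q` with `n q^E` in the class `w0` and rank at least `t` -/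
def WS {k : ℕ} (r f : Fin k → ℕ) (w0 : ZMod 3) (E t : ℕ) : Set ℕ :=
  {q : ℕ | q % 3 = 2 ∧ (q % 9 ≠ 8 ∨ ∃ i, r i % 9 ≠ 8) ∧ wt (((q : ℤ) ^ E) ^ 2) = w0 ∧
    t ≤ CubeRank.rr ((∏ i, (r i : ℤ) ^ f i) * q ^ E)}

open Classical in
/-- the size of the matrices -/
noncomputable def sz {k : ℕ} (r f : Fin k → ℕ) (w0 : ZMod 3) : ℕ :=
  if wt (((∏ i, r i ^ f i : ℕ) : ℤ) ^ 2) + w0 = 0 ∧ ∃ j, wt ((r j : ℤ) ^ 2) ≠ 0 then k - 1 else k

/-- CLE: the distribution of the rank in a class. -/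
def CLE : Prop := ∀ (k : ℕ) (r f : Fin k → ℕ), 1 ≤ k → (∀ i, (r i).Prime) →
  (∀ i, r i % 3 = 2) → Function.Injective r → (∀ i, f i = 1 ∨ f i = 2) → ∀ w0 : ZMod 3,
  (∃ M : ℕ, ∀ (E q : ℕ), (E = 1 ∨ E = 2) → q.Prime → M < q → q ∈ WS r f w0 E 0 →
    CubeRank.rr ((∏ i, (r i : ℤ) ^ f i) * q ^ E) ≤ sz r f w0) ∧
  ∀ t : ℕ, ∃ K : ℝ, ∀ σ : ℝ, 1 < σ → σ ≤ 2 →
    BDENS.sm (WS r f w0 1 t) σ + BDENS.sm (WS r f w0 2 t) σ ≤
      (NK (sz r f w0) t : ℝ) / Nat.card (Fin (sz r f w0) → Fin (sz r f w0) → ZMod 3) / 3 *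
        Real.log (1 / (σ - 1)) + K

namespace CL

open BDENS

theorem sm_le_add (S T : Set ℕ) (M : ℕ) (h : ∀ n, n.Prime → M < n → n ∈ S → n ∈ T) {σ : ℝ}
    (hσ : 1 < σ) : sm S σ ≤ sm T σ + 2 * ((Finset.range (M + 1)).card : ℝ) := by
  have h1 := sm_add_le S ∅ T (Finset.range (M + 1)) (fun n hn hA hS => ⟨h n hn (by
    rw [Finset.mem_range, not_lt] at hA
    omega) hS, fun h => h⟩) (fun n _ _ h => absurd h (Set.notMem_empty n)) hσ
  have h2 : 0 ≤ sm ∅ σ := by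
    rw [sm_eq]
    exact tsum_nonneg fun n => ind_nonneg ∅ σ n
  linarith

theorem wt_sq2 {q : ℕ} (hq : q % 3 = 2) : wt (((q : ℤ) ^ 2) ^ 2) = 2 * wt ((q : ℤ) ^ 2) := by
  have h : ¬ (3 : ℤ) ∣ (q : ℤ) := by omega
  have h1 := sq_mod_three h
  have h2 : ((q : ℤ) ^ 2) ^ 2 = (q : ℤ) ^ 2 * (q : ℤ) ^ 2 := by ring
  rw [h2, wt_mul h1 h1]
  ring

end CL

open BFINA CL in
/-- CLE: the distribution of the rank in a class. -/
theorem CLE_thm (hBSE : BSE) (hDCE : DCE) (hCLSC : CLSC) (hBKE : BKE) (hBDE : BDE)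
    (hTEND : TEND) (hEAE : EAE) : CLE := by
  classical
  intro k r f hk hr h2 hinj hf w0
  obtain ⟨n, hn⟩ : ∃ n, n = ∏ i, r i ^ f i := ⟨_, rfl⟩
  have hNF := nf hr h2 hinj hf
  rw [← hn] at hNF
  have hn0 : 0 < n := by
    rw [hn]
    exact Finset.prod_pos fun i _ => pow_pos (hr i).pos _
  have hnZ : (∏ i, (r i : ℤ) ^ f i) = (n : ℤ) := by
    rw [hn]
    push_cast
    rfl
  obtain ⟨s, b, P, Q, P', Q', hs, hAC, hSys, hspan⟩ := hBSE n k (fun i : Fin 0 => i.elim0)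
    (fun i : Fin 0 => i.elim0) (fun i : Fin 0 => i.elim0) r f w0 (fun i : Fin 0 => i.elim0) hNF
  have hsz : sz r f w0 = s := by
    rw [hs]
    unfold sz
    rw [← hn]
  rw [hsz]
  -- the conductor
  have hD : ∀ j i : Fin s, ∃ f₀ : ℕ, 0 < f₀ ∧ (j ≠ i → ∀ f : ℕ, 0 < f → f₀ ∣ f →
      ∃ (C : ZMod 3) (Φ : (ZMod f)ˣ →* Multiplicative (ZMod 3)),
        ∀ (E q : ℕ) (hQ : q.Coprime f), q.Prime → q % 3 = 2 →
          Adm ((n : ℤ) * q ^ E) (b i) →
          ∀ r : ℤ, (q : ℤ) ∣ r ^ 3 - b j →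
            OO ((n : ℤ) * q ^ E) (b j) (b i) (P j i) (Q j i) (P' j i) (Q' j i) =
            C + E * ((Φ (ZMod.unitOfCoprime q hQ)).toAdd -
              TAUV q (P j i) (Q j i) (P' j i) (Q' j i) r)) := by
    intro j i
    by_cases hji : j = i
    · exact ⟨1, one_pos, fun h => absurd hji h⟩
    · obtain ⟨f₀, h0, h1⟩ := hDCE n (b j) (b i) (P j i) (Q j i) (P' j i) (Q' j i) hn0
        (hSys.sol j i hji) (hAC j).ne (hAC i).ne
      exact ⟨f₀, h0, fun _ => h1⟩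
  choose F0 hF0 hF1 using hD
  obtain ⟨F, hFdef⟩ : ∃ F, F = 9 * ∏ j, ∏ i, F0 j i := ⟨_, rfl⟩
  have hFpos : 0 < F := by
    rw [hFdef]
    exact Nat.mul_pos (by norm_num) (Finset.prod_pos fun j _ => Finset.prod_pos fun i _ => hF0 j i)
  have hF9 : 9 ∣ F := by
    rw [hFdef]
    exact dvd_mul_right _ _
  have hFd : ∀ j i, F0 j i ∣ F := by
    intro j i
    rw [hFdef]
    apply Dvd.dvd.mul_left
    exact (Finset.dvd_prod_of_mem (fun i => F0 j i) (Finset.mem_univ i)).trans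
      (Finset.dvd_prod_of_mem (fun j => ∏ i, F0 j i) (Finset.mem_univ j))
  have hC : ∀ j i : Fin s, ∃ (C : ZMod 3) (Φ : (ZMod F)ˣ →* Multiplicative (ZMod 3)),
      j ≠ i → ∀ (E q : ℕ) (hQ : q.Coprime F), q.Prime → q % 3 = 2 →
          Adm ((n : ℤ) * q ^ E) (b i) →
          ∀ r : ℤ, (q : ℤ) ∣ r ^ 3 - b j →
            OO ((n : ℤ) * q ^ E) (b j) (b i) (P j i) (Q j i) (P' j i) (Q' j i) =
            C + E * ((Φ (ZMod.unitOfCoprime q hQ)).toAdd -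
              TAUV q (P j i) (Q j i) (P' j i) (Q' j i) r) := by
    intro j i
    by_cases hji : j = i
    · exact ⟨0, 1, fun h => absurd hji h⟩
    · obtain ⟨C, Φ, h⟩ := hF1 j i hji F hFpos (hFd j i)
      exact ⟨C, Φ, fun _ => h⟩
  choose C Φ hC using hC
  obtain ⟨κ, hκ1, hκ2⟩ := hCLSC 0 (fun i : Fin 0 => i.elim0) (fun i : Fin 0 => i.elim0)
    (fun i => i.elim0) (fun i => i.elim0) (fun i => i.elim0) (fun i => i.elim0) F hFpos hF9
    (fun i => i.elim0)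
  let Φ' : (ZMod F)ˣ →* Multiplicative (Fin s → Fin s → ZMod 3) :=
    { toFun := fun a => Multiplicative.ofAdd fun j i => (Φ j i a).toAdd
      map_one' := by
        rw [← ofAdd_zero]
        congr 1
        funext j i
        rw [map_one]
        rfl
      map_mul' := by
        intro a a'
        rw [← ofAdd_add]
        congr 1
        funext j i
        rw [map_mul]
        rfl }
  obtain ⟨M, hM⟩ : ∃ M, M = n + F := ⟨_, rfl⟩
  -- the matrix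
  have hmat : ∀ (E q : ℕ), (E = 1 ∨ E = 2) → q.Prime → M < q → q ∈ WS r f w0 E 0 →
      CubeRank.rr ((n : ℤ) * q ^ E) ≤ s - (Mat b P Q P' Q' ((n : ℤ) * q ^ E)).rank ∧
      ∃ hQ : q.Coprime F, ∀ τ : Fin s → Fin s → ZMod 3,
        (∀ j i, j ≠ i → ∀ r : ℤ, (q : ℤ) ∣ r ^ 3 - b j →
          τ j i = TAUV q (P j i) (Q j i) (P' j i) (Q' j i) r) →
        Mat b P Q P' Q' ((n : ℤ) * q ^ E) = alt fun j i =>
          C j i + E * ((Φ j i (ZMod.unitOfCoprime q hQ)).toAdd - τ j i) := by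
    intro E q hE hq hqM ⟨hq3, hq9, hw, _⟩
    have hqn : ¬ q ∣ n := fun h => by
      have := Nat.le_of_dvd hn0 h
      omega
    have hQ : q.Coprime F := by
      rw [Nat.Prime.coprime_iff_not_dvd hq]
      intro h
      have := Nat.le_of_dvd hFpos h
      omega
    obtain ⟨hBOk, hA⟩ := hEAE n k (fun i : Fin 0 => i.elim0) (fun i : Fin 0 => i.elim0)
      (fun i : Fin 0 => i.elim0) r f w0 (fun i : Fin 0 => i.elim0) E q hNF hq hq3 hE hw hqn
    have hAdm : ∀ i, Adm ((n : ℤ) * q ^ E) (b i) := fun i => (hA (b i) (hAC i).supp).1 (hAC i)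
    have hgen := hBKE n k (fun i : Fin 0 => i.elim0) (fun i : Fin 0 => i.elim0)
      (fun i : Fin 0 => i.elim0) r f w0 (fun i : Fin 0 => i.elim0) s b P Q P' Q' E q hNF hk hAC
      hSys hspan hq hq3 hE hw hqn hq9.symm
    refine ⟨CubeRank.rr_le hgen, hQ, ?_⟩
    intro τ hτ
    have hent : ∀ j i, j ≠ i → Mat b P Q P' Q' ((n : ℤ) * q ^ E) j i =
        C j i + E * ((Φ j i (ZMod.unitOfCoprime q hQ)).toAdd - τ j i) := by
      intro j i hji
      obtain ⟨ρ, hρ⟩ := exists_root hq hq3 (b j)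
      rw [Mat, if_neg hji, hC j i hji E q hQ hq hq3 (hAdm i) ρ hρ, ← hτ j i hji ρ hρ]
    have hanti := (hTEND s b P Q P' Q' ((n : ℤ) * q ^ E) hSys hBOk hAdm).1
    ext j i
    rw [alt]
    rcases lt_trichotomy j i with h | h | h
    · rw [if_pos h, hent j i h.ne]
    · subst h
      rw [if_neg (lt_irrefl _), if_neg (lt_irrefl _), Mat, if_pos rfl]
    · rw [if_neg (not_lt.2 h.le), if_pos h, hanti j i, hent i j h.ne]
  constructor
  · refine ⟨M, fun E q hE hq hqM hqW => ?_⟩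
    rw [hnZ]
    exact (hmat E q hE hq hqM hqW).1.trans (Nat.sub_le _ _)
  intro t
  obtain ⟨K, hK⟩ := hBDE s b P Q P' Q' F 0 t κ (Fin.cons w0 fun i : Fin 0 => i.elim0) C Φ' hSys
    hFpos hF9 hκ2
  refine ⟨K + 2 * (2 * ((Finset.range (M + 1)).card : ℝ)), fun σ h1 hσ2 => ?_⟩
  have hB := hK σ h1 hσ2
  have h31 : (3 : ℝ) ^ (0 + 1) = 3 := by norm_num
  rw [h31] at hB
  have hsub1 : ∀ q : ℕ, q.Prime → M < q → q ∈ WS r f w0 1 t →
      q ∈ SP b P Q P' Q' t κ (Fin.cons w0 fun i : Fin 0 => i.elim0) C Φ' := by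
    intro q hq hqM ⟨hq3, hq9, hw, hrr⟩
    obtain ⟨hr1, hQ, hm⟩ := hmat 1 q (Or.inl rfl) hq hqM ⟨hq3, hq9, hw, Nat.zero_le _⟩
    rw [hnZ] at hrr
    refine ⟨hQ, hq3, ?_, ?_⟩
    · rw [hκ1]
      funext i
      refine Fin.cases ?_ (fun i => i.elim0) i
      rw [Fin.cons_zero, Fin.cons_zero]
      rw [pow_one] at hw
      exact hw
    · intro τ hτ
      have e1 : (fun j i => C j i + ((1 : ℕ) : ZMod 3) *
          ((Φ j i (ZMod.unitOfCoprime q hQ)).toAdd - τ j i)) =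
          C + (Φ' (ZMod.unitOfCoprime q hQ)).toAdd - τ := by
        funext j i
        show C j i + ((1 : ℕ) : ZMod 3) * ((Φ j i (ZMod.unitOfCoprime q hQ)).toAdd - τ j i) =
          C j i + (Φ j i (ZMod.unitOfCoprime q hQ)).toAdd - τ j i
        rw [Nat.cast_one]
        ring
      rw [← e1, ← hm τ hτ]
      exact hrr.trans hr1
  have hsub2 : ∀ q : ℕ, q.Prime → M < q → q ∈ WS r f w0 2 t →
      q ∈ SM b P Q P' Q' t κ (Fin.cons w0 fun i : Fin 0 => i.elim0) C Φ' := by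
    intro q hq hqM ⟨hq3, hq9, hw, hrr⟩
    obtain ⟨hr1, hQ, hm⟩ := hmat 2 q (Or.inr rfl) hq hqM ⟨hq3, hq9, hw, Nat.zero_le _⟩
    rw [hnZ] at hrr
    refine ⟨hQ, hq3, ?_, ?_⟩
    · rw [hκ1]
      funext i
      refine Fin.cases ?_ (fun i => i.elim0) i
      rw [Fin.cons_zero, Pi.neg_apply, Fin.cons_zero]
      rw [wt_sq2 hq3] at hw
      rw [← hw]
      generalize wt ((q : ℤ) ^ 2) = z
      revert z
      decide
    · intro τ hτ
      have e1 : (fun j i => C j i + ((2 : ℕ) : ZMod 3) *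
          ((Φ j i (ZMod.unitOfCoprime q hQ)).toAdd - τ j i)) =
          C - (Φ' (ZMod.unitOfCoprime q hQ)).toAdd + τ := by
        funext j i
        show C j i + ((2 : ℕ) : ZMod 3) * ((Φ j i (ZMod.unitOfCoprime q hQ)).toAdd - τ j i) =
          C j i - (Φ j i (ZMod.unitOfCoprime q hQ)).toAdd + τ j i
        rw [show ((2 : ℕ) : ZMod 3) = -1 from by decide]
        ring
      rw [← e1, ← hm τ hτ]
      exact hrr.trans hr1
  have i1 := sm_le_add _ _ M hsub1 h1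
  have i2 := sm_le_add _ _ M hsub2 h1
  linarith

end Pool.Agent.PTL
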