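import Pool.Agent.PTL.Defs
import Pool.Agent.PTL.DOM

/-!
# Prime power twists: the theorems
-/

set_option autoImplicit false

open NumberField IsDedekindDomain Finset
open scoped nonZeroDivisors Pointwise

namespace Pool.Agent.PTL

open Pool.Agent.PT Pool.Agent.Lib_helper18 Pool.Agent.Lib_helper18.Eis Pool.Agent.Lib_helper84.Cub

namespace FIN

open BDENS

/-! ### Sums -/

theorem log_nn {σ : ℝ} (h1 : 1 < σ) (h2 : σ ≤ 2) : 0 ≤ Real.log (1 / (σ - 1)) := by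
  apply Real.log_nonneg
  rw [le_div_iff₀ (by linarith)]
  linarith

theorem Above.mono {n : ℤ} {W : ℤ → Prop} {F : ℤ → ℝ} {x y : ℝ} (h : Above n W F x) (hxy : x ≤ y) :
    Above n W F y := by
  obtain ⟨K, hK⟩ := h
  refine ⟨K, fun σ h1 h2 T => (hK σ h1 h2 T).trans ?_⟩
  have := mul_le_mul_of_nonneg_right hxy (log_nn h1 h2)
  linarith

theorem Below.mono {n : ℤ} {W : ℤ → Prop} {F : ℤ → ℝ} {x y : ℝ} (h : Below n W F x) (hxy : y ≤ x) :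
    Below n W F y := by
  obtain ⟨K, hK⟩ := h
  refine ⟨K, fun σ h1 h2 => ?_⟩
  obtain ⟨T, hT⟩ := hK σ h1 h2
  refine ⟨T, le_trans ?_ hT⟩
  have := mul_le_mul_of_nonneg_right hxy (log_nn h1 h2)
  linarith

theorem Sum_mono {n : ℤ} {W : ℤ → Prop} {F : ℤ → ℝ} (hF : ∀ A, 0 ≤ F A) {σ : ℝ} {T T' : Finset ℕ}
    (h : T ⊆ T') : Sum n W F σ T ≤ Sum n W F σ T' := by
  classical
  unfold Sum
  refine Finset.sum_le_sum fun e _ => Finset.sum_le_sum_of_subset_of_nonneg h fun q _ _ => ?_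
  split_ifs
  · exact mul_nonneg (hF _) (Real.rpow_nonneg (Nat.cast_nonneg q) _)
  · exact le_rfl

theorem not_three {n : ℤ} (hn : ¬ (3 : ℤ) ∣ n) {q : ℕ} (hq : q % 3 = 2) (E : ℕ) :
    ¬ (3 : ℤ) ∣ n * (q : ℤ) ^ E := by
  intro h
  rcases Int.prime_three.dvd_or_dvd h with h1 | h1
  · exact hn h1
  · have := Int.prime_three.dvd_of_dvd_pow h1
    omega

/-- the three classes -/
theorem Sum_all {n : ℤ} (hn : ¬ (3 : ℤ) ∣ n) (F : ℤ → ℝ) (σ : ℝ) (T : Finset ℕ) :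
    Sum n (fun _ => True) F σ T = Sum n (Cls 1) F σ T + Sum n (Cls 2) F σ T +
      Sum n (Cls 4) F σ T := by
  classical
  unfold Sum
  rw [← Finset.sum_add_distrib, ← Finset.sum_add_distrib]
  refine Finset.sum_congr rfl fun e _ => ?_
  rw [← Finset.sum_add_distrib, ← Finset.sum_add_distrib]
  refine Finset.sum_congr rfl fun q _ => ?_
  by_cases hq : q.Prime ∧ q % 3 = 2
  · have h3 := not_three hn hq.2 e
    generalize n * (q : ℤ) ^ e = A at *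
    have hA : (Cls 1 A ∧ ¬ Cls 2 A ∧ ¬ Cls 4 A) ∨ (¬ Cls 1 A ∧ Cls 2 A ∧ ¬ Cls 4 A) ∨
        (¬ Cls 1 A ∧ ¬ Cls 2 A ∧ Cls 4 A) := by
      unfold Cls
      omega
    rcases hA with ⟨h1, h2, h4⟩ | ⟨h1, h2, h4⟩ | ⟨h1, h2, h4⟩
    · rw [if_pos ⟨hq.1, hq.2, trivial⟩, if_pos ⟨hq.1, hq.2, h1⟩, if_neg fun h => h2 h.2.2,
        if_neg fun h => h4 h.2.2]
      ring
    · rw [if_pos ⟨hq.1, hq.2, trivial⟩, if_neg fun h => h1 h.2.2, if_pos ⟨hq.1, hq.2, h2⟩,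
        if_neg fun h => h4 h.2.2]
      ring
    · rw [if_pos ⟨hq.1, hq.2, trivial⟩, if_neg fun h => h1 h.2.2, if_neg fun h => h2 h.2.2,
        if_pos ⟨hq.1, hq.2, h4⟩]
      ring
  · rw [if_neg fun h => hq ⟨h.1, h.2.1⟩, if_neg fun h => hq ⟨h.1, h.2.1⟩,
      if_neg fun h => hq ⟨h.1, h.2.1⟩, if_neg fun h => hq ⟨h.1, h.2.1⟩]
    ring

theorem Above_all {n : ℤ} (hn : ¬ (3 : ℤ) ∣ n) {F : ℤ → ℝ} {x y z : ℝ} (h1 : Above n (Cls 1) F x)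
    (h2 : Above n (Cls 2) F y) (h4 : Above n (Cls 4) F z) :
    Above n (fun _ => True) F (x + y + z) := by
  obtain ⟨K1, hK1⟩ := h1
  obtain ⟨K2, hK2⟩ := h2
  obtain ⟨K4, hK4⟩ := h4
  refine ⟨K1 + K2 + K4, fun σ h1 h2 T => ?_⟩
  rw [Sum_all hn]
  have e1 := hK1 σ h1 h2 T
  have e2 := hK2 σ h1 h2 T
  have e4 := hK4 σ h1 h2 T
  have : (x + y + z) * Real.log (1 / (σ - 1)) = x * Real.log (1 / (σ - 1)) +
      y * Real.log (1 / (σ - 1)) + z * Real.log (1 / (σ - 1)) := by ring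
  linarith

theorem Below_zero {n : ℤ} {W : ℤ → Prop} {F : ℤ → ℝ} : Below n W F 0 := by
  refine ⟨0, fun σ h1 h2 => ⟨∅, ?_⟩⟩
  unfold Sum
  simp

theorem Below_all {n : ℤ} (hn : ¬ (3 : ℤ) ∣ n) {F : ℤ → ℝ} (hF : ∀ A, 0 ≤ F A) {x y z : ℝ}
    (h1 : Below n (Cls 1) F x) (h2 : Below n (Cls 2) F y) (h4 : Below n (Cls 4) F z) :
    Below n (fun _ => True) F (x + y + z) := by
  classical
  obtain ⟨K1, hK1⟩ := h1
  obtain ⟨K2, hK2⟩ := h2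
  obtain ⟨K4, hK4⟩ := h4
  refine ⟨K1 + K2 + K4, fun σ h1 h2 => ?_⟩
  obtain ⟨T1, e1⟩ := hK1 σ h1 h2
  obtain ⟨T2, e2⟩ := hK2 σ h1 h2
  obtain ⟨T4, e4⟩ := hK4 σ h1 h2
  refine ⟨T1 ∪ T2 ∪ T4, ?_⟩
  rw [Sum_all hn]
  have i1 : Sum n (Cls 1) F σ T1 ≤ Sum n (Cls 1) F σ (T1 ∪ T2 ∪ T4) :=
    Sum_mono hF fun q hq => by simp [hq]
  have i2 : Sum n (Cls 2) F σ T2 ≤ Sum n (Cls 2) F σ (T1 ∪ T2 ∪ T4) :=
    Sum_mono hF fun q hq => by simp [hq]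
  have i4 : Sum n (Cls 4) F σ T4 ≤ Sum n (Cls 4) F σ (T1 ∪ T2 ∪ T4) :=
    Sum_mono hF fun q hq => by simp [hq]
  have : (x + y + z) * Real.log (1 / (σ - 1)) = x * Real.log (1 / (σ - 1)) +
      y * Real.log (1 / (σ - 1)) + z * Real.log (1 / (σ - 1)) := by ring
  linarith

/-! ### Classes -/

theorem wt_res {A : ℤ} {c : ℤ} (s t : ℤ) (hA : A % 9 = c) (h : c ^ 2 = 1 + 3 * (3 * s + t)) :
    wt (A ^ 2) = (t : ZMod 3) := by
  obtain ⟨k, hk⟩ : ∃ k : ℤ, A = 9 * k + c := ⟨A / 9, by omega⟩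
  have h3 : A ^ 2 = 1 + 3 * (3 * (9 * k ^ 2 + 2 * k * c + s) + t) := by
    rw [hk]
    linear_combination h
  rw [wt_eq h3]
  push_cast
  have h4 : (3 : ZMod 3) = 0 := by decide
  rw [h4]
  ring

theorem cls_iff {a A : ℤ} (ha : a = 1 ∨ a = 2 ∨ a = 4) (hA : ¬ (3 : ℤ) ∣ A) :
    Cls a A ↔ wt (A ^ 2) = wt (a ^ 2) := by
  have w1 : wt ((1 : ℤ) ^ 2) = 0 := by rw [wt_res (c := 1) 0 0 (by norm_num) (by norm_num)]; decide
  have w2 : wt ((2 : ℤ) ^ 2) = 1 := by rw [wt_res (c := 2) 0 1 (by norm_num) (by norm_num)]; decide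
  have w4 : wt ((4 : ℤ) ^ 2) = 2 := by rw [wt_res (c := 4) 1 2 (by norm_num) (by norm_num)]; decide
  have d01 : (0 : ZMod 3) ≠ 1 := by decide
  have d02 : (0 : ZMod 3) ≠ 2 := by decide
  have d12 : (1 : ZMod 3) ≠ 2 := by decide
  have hr : A % 9 = 1 ∨ A % 9 = 2 ∨ A % 9 = 4 ∨ A % 9 = 5 ∨ A % 9 = 7 ∨ A % 9 = 8 := by omega
  have hwt : (A % 9 = 1 ∨ A % 9 = 8) ∧ wt (A ^ 2) = 0 ∨ (A % 9 = 2 ∨ A % 9 = 7) ∧ wt (A ^ 2) = 1 ∨
      (A % 9 = 4 ∨ A % 9 = 5) ∧ wt (A ^ 2) = 2 := by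
    rcases hr with h | h | h | h | h | h
    · exact Or.inl ⟨Or.inl h, by rw [wt_res 0 0 h (by norm_num)]; decide⟩
    · exact Or.inr (Or.inl ⟨Or.inl h, by rw [wt_res 0 1 h (by norm_num)]; decide⟩)
    · exact Or.inr (Or.inr ⟨Or.inl h, by rw [wt_res 1 2 h (by norm_num)]; decide⟩)
    · exact Or.inr (Or.inr ⟨Or.inr h, by rw [wt_res 2 2 h (by norm_num)]; decide⟩)
    · exact Or.inr (Or.inl ⟨Or.inr h, by rw [wt_res 5 1 h (by norm_num)]; decide⟩)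
    · exact Or.inl ⟨Or.inr h, by rw [wt_res 7 0 h (by norm_num)]; decide⟩
  unfold Cls
  rcases ha with rfl | rfl | rfl
  · rw [w1]
    rcases hwt with ⟨h, hw⟩ | ⟨h, hw⟩ | ⟨h, hw⟩
    · rw [hw]
      exact ⟨fun _ => rfl, fun _ => by omega⟩
    · rw [hw]
      exact ⟨fun _ => by omega, fun h => absurd h.symm d01⟩
    · rw [hw]
      exact ⟨fun _ => by omega, fun h => absurd h.symm d02⟩
  · rw [w2]
    rcases hwt with ⟨h, hw⟩ | ⟨h, hw⟩ | ⟨h, hw⟩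
    · rw [hw]
      exact ⟨fun _ => by omega, fun h => absurd h d01⟩
    · rw [hw]
      exact ⟨fun _ => rfl, fun _ => by omega⟩
    · rw [hw]
      exact ⟨fun _ => by omega, fun h => absurd h.symm d12⟩
  · rw [w4]
    rcases hwt with ⟨h, hw⟩ | ⟨h, hw⟩ | ⟨h, hw⟩
    · rw [hw]
      exact ⟨fun _ => by omega, fun h => absurd h d02⟩
    · rw [hw]
      exact ⟨fun _ => by omega, fun h => absurd h d12⟩
    · rw [hw]
      exact ⟨fun _ => rfl, fun _ => by omega⟩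

theorem wt_one_iff {a : ℤ} (ha : a = 1 ∨ a = 2 ∨ a = 4) : wt (a ^ 2) = 0 ↔ a = 1 := by
  have h1 := cls_iff (a := 1) (A := a) (Or.inl rfl) (by omega)
  have w1 : wt ((1 : ℤ) ^ 2) = 0 := by rw [wt_res (c := 1) 0 0 (by norm_num) (by norm_num)]; decide
  rw [w1] at h1
  rw [← h1]
  unfold Cls
  omega

section

variable {k : ℕ} {p e : Fin k → ℕ} (hp : ∀ i, (p i).Prime) (h3 : ∀ i, p i % 3 = 2)

include hp h3 in
theorem n_three : ¬ (3 : ℤ) ∣ ∏ i, (p i : ℤ) ^ e i := by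
  intro h
  obtain ⟨i, -, hi⟩ := (Prime.dvd_finsetProd_iff Int.prime_three _).1 h
  have h1 := Int.prime_three.dvd_of_dvd_pow hi
  have := h3 i
  omega

theorem p_wt {q : ℕ} (hq : q % 3 = 2) : wt ((q : ℤ) ^ 2) ≠ 0 ↔ q % 9 ≠ 8 := by
  have h1 : q % 9 = 2 ∨ q % 9 = 5 ∨ q % 9 = 8 := by omega
  rcases h1 with h | h | h
  · rw [DL.wt_val 2 0 1 h (by norm_num)]
    exact ⟨fun _ => by omega, fun _ => by decide⟩
  · rw [DL.wt_val 5 2 2 h (by norm_num)]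
    exact ⟨fun _ => by omega, fun _ => by decide⟩
  · rw [DL.wt_val 8 7 0 h (by norm_num)]
    exact ⟨fun h2 => absurd (by decide : ((0 : ℤ) : ZMod 3) = 0) h2, fun h2 => absurd h h2⟩

/-- if all primes are `8` modulo `9` -/
theorem n_wt (h8 : ∀ i, p i % 9 = 8) : wt ((∏ i, (p i : ℤ) ^ e i) ^ 2) = 0 := by
  have h1 : (((∏ i, (p i : ℤ) ^ e i) ^ 2 : ℤ) : ZMod 9) = 1 := by
    push_cast
    rw [← Finset.prod_pow]
    refine Finset.prod_eq_one fun i _ => ?_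
    have h2 : ((p i : ℕ) : ZMod 9) = 8 := by
      have h4 : ((p i : ℕ) : ZMod 9) = ((8 : ℕ) : ZMod 9) := by
        rw [ZMod.natCast_eq_natCast_iff']
        rw [h8 i]
      rw [h4]
      rfl
    rw [h2, ← pow_mul, mul_comm, pow_mul]
    have h5 : (8 : ZMod 9) ^ 2 = 1 := by decide
    rw [h5, one_pow]
  have h2 : (9 : ℤ) ∣ (∏ i, (p i : ℤ) ^ e i) ^ 2 - 1 := by
    have h4 : (((∏ i, (p i : ℤ) ^ e i) ^ 2 - 1 : ℤ) : ZMod 9) = 0 := by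
      rw [Int.cast_sub, h1, Int.cast_one, sub_self]
    exact (ZMod.intCast_zmod_eq_zero_iff_dvd _ 9).1 h4
  obtain ⟨m, hm⟩ := h2
  have h4 : (∏ i, (p i : ℤ) ^ e i) ^ 2 = 1 + 3 * (3 * m) := by linarith
  rw [wt_eq h4]
  push_cast
  have h5 : (3 : ZMod 3) = 0 := by decide
  rw [h5, zero_mul]

/-- the class of `q` -/
noncomputable def w0 (p e : Fin k → ℕ) (a : ℤ) : ZMod 3 :=
  wt (a ^ 2) - wt ((∏ i, (p i : ℤ) ^ e i) ^ 2)

theorem H_of {a : ℤ} (ha : a = 1 ∨ a = 2 ∨ a = 4) (h1 : a = 1 → ∃ i, p i % 9 ≠ 8) :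
    (∃ i, p i % 9 ≠ 8) ∨ w0 p e a ≠ 0 := by
  by_cases h : ∃ i, p i % 9 ≠ 8
  · exact Or.inl h
  · right
    push Not at h
    unfold w0
    rw [n_wt h, sub_zero]
    intro h2
    exact absurd (h1 ((wt_one_iff ha).1 h2)) (by push Not; exact h)

include hp h3 in
theorem mem_iff {a : ℤ} (ha : a = 1 ∨ a = 2 ∨ a = 4) (h1 : a = 1 → ∃ i, p i % 9 ≠ 8)
    (E q : ℕ) (hE : E = 1 ∨ E = 2) : (q % 3 = 2 ∧ Cls a ((∏ i, (p i : ℤ) ^ e i) * q ^ E)) ↔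
      q ∈ WS p e (w0 p e a) E 0 := by
  have hn := n_three (e := e) hp h3
  by_cases hq3 : q % 3 = 2
  · have hqE : ¬ (3 : ℤ) ∣ (q : ℤ) ^ E := by
      intro h
      have := Int.prime_three.dvd_of_dvd_pow h
      omega
    have key : Cls a ((∏ i, (p i : ℤ) ^ e i) * q ^ E) ↔
        wt (((q : ℤ) ^ E) ^ 2) = w0 p e a := by
      rw [cls_iff ha (not_three hn hq3 E), mul_pow, wt_mul (sq_mod_three hn) (sq_mod_three hqE)]
      unfold w0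
      rw [eq_sub_iff_add_eq, add_comm]
    constructor
    · rintro ⟨-, hc⟩
      have hw := key.1 hc
      refine ⟨hq3, ?_, hw, Nat.zero_le _⟩
      rcases H_of (e := e) ha h1 with h | h
      · exact Or.inr h
      · left
        rw [← p_wt hq3]
        intro h2
        apply h
        rw [← hw]
        rcases hE with rfl | rfl
        · rw [pow_one]
          exact h2
        · rw [CL.wt_sq2 hq3, h2, mul_zero]
    · intro h
      exact ⟨hq3, key.2 h.2.2.1⟩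
  · exact ⟨fun h => absurd h.1 hq3, fun h => absurd h.1 hq3⟩

include h3 in
theorem sz_eq {a : ℤ} (ha : a = 1 ∨ a = 2 ∨ a = 4) (h1 : a = 1 → ∃ i, p i % 9 ≠ 8) :
    sz p e (w0 p e a) = if a = 1 then k - 1 else k := by
  classical
  unfold sz
  have hcast : ((∏ i, p i ^ e i : ℕ) : ℤ) = ∏ i, (p i : ℤ) ^ e i := by
    push_cast
    rfl
  rw [hcast]
  have h2 : wt ((∏ i, (p i : ℤ) ^ e i) ^ 2) + w0 p e a = 0 ↔ a = 1 := by
    unfold w0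
    rw [add_sub_cancel]
    exact wt_one_iff ha
  by_cases h : a = 1
  · rw [if_pos h, if_pos]
    refine ⟨h2.2 h, ?_⟩
    obtain ⟨i, hi⟩ := h1 h
    exact ⟨i, (p_wt (h3 i)).2 hi⟩
  · rw [if_neg h, if_neg fun h' => h (h2.1 h'.1)]

include hp h3 in
/-- averages -/
theorem above (hCLE : CLE) (hk : 1 ≤ k) (hinj : Function.Injective p)
    (he : ∀ i, e i = 1 ∨ e i = 2) {a : ℤ} (ha : a = 1 ∨ a = 2 ∨ a = 4)
    (h1 : a = 1 → ∃ i, p i % 9 ≠ 8) (F : ℕ → ℝ) (hF : Monotone F) (h0 : 0 ≤ F 0) :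
    Above (∏ i, (p i : ℤ) ^ e i) (Cls a) (fun A => F (CubeRank.rr A))
      (Esk (if a = 1 then k - 1 else k) F / 3) := by
  classical
  obtain ⟨K, hK⟩ := DOM.dom hCLE hk hp h3 hinj he (w0 p e a) F hF h0
  rw [sz_eq h3 ha h1] at hK
  refine ⟨K, fun σ hs1 hs2 T => le_trans (le_of_eq ?_) (hK σ hs1 hs2 T)⟩
  unfold Sum
  refine Finset.sum_congr rfl fun E hE => ?_
  have hE' : E = 1 ∨ E = 2 := by simpa using hE
  refine Finset.sum_congr rfl fun q _ => ?_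
  have hm := mem_iff (e := e) hp h3 ha h1 E q hE'
  by_cases hq : q.Prime ∧ q ∈ WS p e (w0 p e a) E 0
  · rw [if_pos hq, if_pos ⟨hq.1, (hm.2 hq.2).1, (hm.2 hq.2).2⟩]
  · rw [if_neg hq, if_neg fun h => hq ⟨h.1, hm.1 ⟨h.2.1, h.2.2⟩⟩]

include hp h3 in
/-- lower bounds -/
theorem below (hCLE : CLE) (hDIR : DIR) (hk : 1 ≤ k) (hinj : Function.Injective p)
    (he : ∀ i, e i = 1 ∨ e i = 2) {a : ℤ} (ha : a = 1 ∨ a = 2 ∨ a = 4)
    (h1 : a = 1 → ∃ i, p i % 9 ≠ 8) (t M : ℕ) (R : ℤ → Prop) (x : ℝ)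
    (hx : Esk (if a = 1 then k - 1 else k) (fun c => if t ≤ c then 1 else 0) ≤ x)
    (hR : ∀ E q : ℕ, (E = 1 ∨ E = 2) → q.Prime → M < q → q % 3 = 2 →
      (q % 9 ≠ 8 ∨ ∃ i, p i % 9 ≠ 8) → ¬ t ≤ CubeRank.rr ((∏ i, (p i : ℤ) ^ e i) * q ^ E) →
      R ((∏ i, (p i : ℤ) ^ e i) * q ^ E)) :
    Below (∏ i, (p i : ℤ) ^ e i) (Cls a) (fun A => tf (R A)) ((1 - x) / 3) := by
  classical
  obtain ⟨K, hK⟩ := DOM.low hCLE hDIR hk hp h3 hinj he (w0 p e a) (H_of ha h1) t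
    (fun E => {q | q ∈ WS p e (w0 p e a) E 0 ∧ R ((∏ i, (p i : ℤ) ^ e i) * (q : ℤ) ^ E)}) M
    (fun E q hE hq hqM hqW hqt => ⟨hqW, hR E q hE hq hqM hqW.1 hqW.2.1 fun ht =>
      hqt ⟨hqW.1, hqW.2.1, hqW.2.2.1, ht⟩⟩)
  rw [sz_eq h3 ha h1] at hK
  refine ⟨K, fun σ hs1 hs2 => ?_⟩
  obtain ⟨T, hT⟩ := hK σ hs1 hs2
  refine ⟨T, le_trans ?_ (hT.trans (le_of_eq ?_))⟩
  · have h2 : Esk (if a = 1 then k - 1 else k) (fun c => if t ≤ c then 1 else 0) =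
        (NK (if a = 1 then k - 1 else k) t : ℝ) / Nat.card
          (Fin (if a = 1 then k - 1 else k) → Fin (if a = 1 then k - 1 else k) → ZMod 3) := by
      generalize (if a = 1 then k - 1 else k) = s
      rw [AL.Esk_eq]
      congr 1
      unfold NK
      rw [Nat.card_eq_fintype_card, Fintype.card_subtype, Finset.sum_ite, Finset.sum_const_zero,
        add_zero, Finset.sum_const, nsmul_eq_mul, mul_one]
      rfl
    rw [h2] at hx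
    have h4 := mul_le_mul_of_nonneg_right (sub_le_sub_left hx 1) (log_nn hs1 hs2)
    linarith
  · unfold Sum
    refine Finset.sum_congr rfl fun E hE => ?_
    have hE' : E = 1 ∨ E = 2 := by simpa using hE
    refine Finset.sum_congr rfl fun q _ => ?_
    have hm := mem_iff (e := e) hp h3 ha h1 E q hE'
    show ind {q : ℕ | q ∈ WS p e (w0 p e a) E 0 ∧
      R ((∏ i, (p i : ℤ) ^ e i) * (q : ℤ) ^ E)} σ q = _
    unfold tf
    beta_reduce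
    by_cases hq : q.Prime ∧ q ∈ WS p e (w0 p e a) E 0
    · rw [if_pos ⟨hq.1, (hm.2 hq.2).1, (hm.2 hq.2).2⟩]
      by_cases hRq : R ((∏ i, (p i : ℤ) ^ e i) * (q : ℤ) ^ E)
      · rw [ind_mem (S := {q : ℕ | q ∈ WS p e (w0 p e a) E 0 ∧
          R ((∏ i, (p i : ℤ) ^ e i) * (q : ℤ) ^ E)}) hq.1 ⟨hq.2, hRq⟩, if_pos hRq, one_mul]
      · rw [ind_not fun h => hRq h.2.2, if_neg hRq, zero_mul]
    · rw [if_neg fun h => hq ⟨h.1, hm.1 ⟨h.2.1, h.2.2⟩⟩, ind_not fun h => hq ⟨h.1, h.2.1⟩]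

end

end FIN

end Pool.Agent.PTL
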