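import Pool.Agent.PTL.FIN
import Pool.Agent.PT.FinalB

/-!
# Prime power twists: assembly
-/

set_option autoImplicit false

namespace Pool.Agent.PTL.MAIN

open Pool.Agent.PT Pool.Agent.PT.Final Pool.Agent.PT.FinalB Pool.Agent.PTL

theorem fDCE : DCE := DCE_thm fSTM fSPP fSLC fLCI fAVV

theorem fEAE : EAE := EAE_thm fSPP fSCJ

theorem fBKE : BKE := BKE_thm fEAE fFDX fTEND

theorem fBSE : BSE := BSE_thm fEVEC fESYS fSPP

theorem fBDE : BDE := BDE_thm fGALD fEQD fDIR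

theorem fCLE : CLE := CLE_thm fBSE fDCE fCLSC fBKE fBDE fTEND fEAE

theorem tf_nonneg (P : Prop) : 0 ≤ tf P := by
  unfold tf
  split_ifs
  · exact zero_le_one
  · exact le_rfl

variable {k : ℕ} {p e : Fin k → ℕ}

theorem big {q : ℕ} (h : ∑ i, p i < q) (i : Fin k) : p i ≠ q := by
  have h1 : p i ≤ ∑ i, p i := Finset.single_le_sum (f := p) (fun _ _ => Nat.zero_le _)
    (Finset.mem_univ i)
  omega

/-- the class `a` -/
theorem cls (hk : 1 ≤ k) (hp : ∀ i, (p i).Prime) (h3 : ∀ i, p i % 3 = 2)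
    (hinj : Function.Injective p) (he : ∀ i, e i = 1 ∨ e i = 2) (a : ℤ)
    (ha : a = 1 ∨ a = 2 ∨ a = 4) (h1 : a = 1 → ∃ i, p i % 9 ≠ 8) (s : ℕ)
    (hs : s = if a = 1 then k - 1 else k) :
    (∀ F : ℕ → ℝ, Monotone F → 0 ≤ F 0 →
      Above (∏ i, (p i : ℤ) ^ e i) (Cls a) (fun A => F (CubeRank.rr A)) (Esk s F / 3)) ∧
    Above (∏ i, (p i : ℤ) ^ e i) (Cls a) (fun A => 3 ^ CubeRank.rr A) ((4 - 3 / 3 ^ s) / 3) ∧
    Above (∏ i, (p i : ℤ) ^ e i) (Cls a) (fun A => (CubeRank.rr A : ℝ))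
      ((if Even s then 3 / 4 else 13 / 12) / 3) ∧
    (Even s → Below (∏ i, (p i : ℤ) ^ e i) (Cls a)
      (fun A => tf (¬ ∃ X Y : ℚ, X ^ 3 + Y ^ 3 = (A : ℚ))) (5 / 24)) ∧
    (Odd s → Below (∏ i, (p i : ℤ) ^ e i) (Cls a) (fun A => tf (CubeRank.rr A ≤ 1)) (23 / 72)) := by
  have hA := fun F hF h0 => FIN.above (p := p) (e := e) hp h3 fCLE hk hinj he ha h1 F hF h0
  rw [← hs] at hA
  refine ⟨hA, ?_, ?_, ?_, ?_⟩
  · have h2 := hA (fun c => (3 : ℝ) ^ c) (fun a b hab => pow_le_pow_right₀ (by norm_num) hab)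
      (by norm_num)
    refine FIN.Above.mono h2 ?_
    have := AL.Esk_pow s
    linarith
  · have h2 := hA (fun c => (c : ℝ)) (fun a b hab => Nat.cast_le.2 hab) (by norm_num)
    refine FIN.Above.mono h2 ?_
    have := AL.Esk_id s
    linarith
  · intro hev
    have hx := AL.Esk_pos hev
    rw [hs] at hx
    have h2 := FIN.below (p := p) (e := e) hp h3 fCLE fDIR hk hinj he ha h1 1 (∑ i, p i)
      (fun A => ¬ ∃ X Y : ℚ, X ^ 3 + Y ^ 3 = (A : ℚ)) (3 / 8) hx (by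
        intro E q hE hq hqM hq3 hq9 hr
        have hg := DOM.fin_gen hk hp h3 hinj he hq hq3 hE hq9 (big hqM)
        have hr0 : CubeRank.rr ((∏ i, (p i : ℤ) ^ e i) * q ^ E) = 0 := by omega
        rw [hr0] at hg
        refine DOM.no_sol ?_ hg
        refine mul_ne_zero (Finset.prod_ne_zero_iff.2 fun i _ => pow_ne_zero _ ?_)
          (pow_ne_zero _ ?_)
        · exact_mod_cast (hp i).ne_zero
        · exact_mod_cast hq.ne_zero)
    have e1 : ((1 : ℝ) - 3 / 8) / 3 = 5 / 24 := by norm_num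
    rw [e1] at h2
    exact h2
  · intro hodd
    have hx := AL.Esk_two hodd
    rw [hs] at hx
    have h2 := FIN.below (p := p) (e := e) hp h3 fCLE fDIR hk hinj he ha h1 2 (∑ i, p i)
      (fun A => CubeRank.rr A ≤ 1) (1 / 24) hx (by
        intro E q hE hq hqM hq3 hq9 hr
        omega)
    have e1 : ((1 : ℝ) - 1 / 24) / 3 = 23 / 72 := by norm_num
    rw [e1] at h2
    exact h2

/-- all classes -/
theorem all (hk : 1 ≤ k) (hp : ∀ i, (p i).Prime) (h3 : ∀ i, p i % 3 = 2)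
    (hinj : Function.Injective p) (he : ∀ i, e i = 1 ∨ e i = 2) (h9 : ∃ i, p i % 9 ≠ 8) :
    Above (∏ i, (p i : ℤ) ^ e i) (fun _ => True) (fun A => (CubeRank.rr A : ℝ)) (35 / 36) ∧
    Below (∏ i, (p i : ℤ) ^ e i) (fun _ => True)
      (fun A => tf (¬ ∃ X Y : ℚ, X ^ 3 + Y ^ 3 = (A : ℚ)))
      (if Even k then 5 / 12 else 5 / 24) := by
  have hn := FIN.n_three (e := e) hp h3
  obtain ⟨-, -, a1, b1, -⟩ := cls hk hp h3 hinj he 1 (Or.inl rfl) (fun _ => h9) (k - 1) rfl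
  obtain ⟨-, -, a2, b2, -⟩ := cls hk hp h3 hinj he 2 (Or.inr (Or.inl rfl))
    (fun h => absurd h (by norm_num)) k rfl
  obtain ⟨-, -, a4, b4, -⟩ := cls hk hp h3 hinj he 4 (Or.inr (Or.inr rfl))
    (fun h => absurd h (by norm_num)) k rfl
  have hnn : ∀ A : ℤ, 0 ≤ tf (¬ ∃ X Y : ℚ, X ^ 3 + Y ^ 3 = (A : ℚ)) := fun A => tf_nonneg _
  by_cases hev : Even k
  · have hodd : ¬ Even (k - 1) := by
      rw [Nat.even_iff] at hev ⊢
      omega
    rw [if_neg hodd] at a1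
    rw [if_pos hev] at a2 a4
    refine ⟨FIN.Above.mono (FIN.Above_all hn a1 a2 a4) (by norm_num), ?_⟩
    rw [if_pos hev]
    exact FIN.Below.mono (FIN.Below_all hn hnn FIN.Below_zero (b2 hev) (b4 hev)) (by norm_num)
  · have hev1 : Even (k - 1) := by
      rw [Nat.even_iff] at hev ⊢
      omega
    rw [if_pos hev1] at a1
    rw [if_neg hev] at a2 a4
    refine ⟨FIN.Above.mono (FIN.Above_all hn a1 a2 a4) (by norm_num), ?_⟩
    rw [if_neg hev]
    exact FIN.Below.mono (FIN.Below_all hn hnn (b1 hev1) FIN.Below_zero FIN.Below_zero)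
      (by norm_num)

end Pool.Agent.PTL.MAIN
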